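import Pool.Agent.Lib_helper24.GRH.APPROX1

/-! Block APPROX: approximation of the phase of an Euler product by a finite Dirichlet polynomial. -/

namespace Pool.Agent.GRH

open Complex MeasureTheory Filter Topology

/-- The split of `n * p ^ j`. -/
theorem ap_fact {p n j : ℕ} (hp : p.Prime) (hn : 0 < n) (hpn : p ∉ n.primeFactors) :
    (n * p ^ j).factorization p = j ∧ n * p ^ j / p ^ (n * p ^ j).factorization p = n := by
  have h1 : ¬ p ∣ n := by
    intro h
    exact hpn (Nat.mem_primeFactors.2 ⟨hp, h, hn.ne'⟩)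
  have h2 : (n * p ^ j).factorization p = j := by
    rw [Nat.factorization_mul hn.ne' (pow_ne_zero _ hp.ne_zero), Finsupp.add_apply,
      Nat.factorization_eq_zero_of_not_dvd h1, Nat.Prime.factorization_pow hp]
    simp
  refine ⟨h2, ?_⟩
  rw [h2]
  exact Nat.mul_div_cancel _ (pow_pos hp.pos _)

theorem ap_norm_le (r : ℝ) (w : ℂ) :
    ‖starRingEnd ℂ (1 - r * w) / (‖1 - r * w‖ : ℂ)‖ ≤ 1 := by
  rw [norm_div, RCLike.norm_conj, Complex.norm_real, norm_norm]
  exact div_self_le_one _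

theorem approx (S : Finset ℕ) (hS : ∀ p ∈ S, p.Prime) (r : ℕ → ℝ)
    (hr : ∀ p ∈ S, 0 ≤ r p ∧ r p < 1) (ε : ℝ) (hε : 0 < ε) :
    ∃ (B : ℕ) (ι : Finset ℕ) (c : ℕ → ℂ), 0 < B ∧ B.primeFactors ⊆ S ∧
      (∀ n ∈ ι, 0 < n ∧ n.primeFactors ⊆ S) ∧ ∑ n ∈ ι, ‖c n‖ ^ 2 ≤ (1 + ε) ^ 2 ∧
      ∀ x : ℕ →* ℂ, (∀ p ∈ S, ‖x p‖ = 1) →
        ‖starRingEnd ℂ (x B) * ∑ n ∈ ι, c n * x n -
          ∏ p ∈ S, (starRingEnd ℂ (1 - r p * x p) / ‖1 - r p * x p‖)‖ ≤ ε := by
  classical
  induction S using Finset.induction_on generalizing ε with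
  | empty =>
    refine ⟨1, {1}, fun _ => 1, one_pos, by simp, by simp, ?_, ?_⟩
    · have : (1 : ℝ) ≤ (1 + ε) ^ 2 := by nlinarith
      simpa using this
    · intro x _
      simp [hε.le]
  | insert p S hpS ih =>
    set ε' : ℝ := min ε 1 / 4 with hε'
    have hm : 0 < min ε 1 := lt_min hε one_pos
    have hε'0 : 0 < ε' := by positivity
    have hle1 : ε' ≤ 1 / 4 := by
      have := min_le_right ε 1
      simp only [hε']; linarith
    have hle2 : ε' ≤ ε / 4 := by
      have := min_le_left ε 1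
      simp only [hε']; linarith
    obtain ⟨B', ι', c', hB'0, hB'S, hι', hc', hx'⟩ := ih
      (fun q hq => hS q (Finset.mem_insert_of_mem hq))
      (fun q hq => hr q (Finset.mem_insert_of_mem hq)) ε' hε'0
    have hp : p.Prime := hS p (Finset.mem_insert_self _ _)
    obtain ⟨hr0, hr1⟩ := hr p (Finset.mem_insert_self _ _)
    obtain ⟨N, M, d, hd, hw⟩ := approx₁ (r p) hr0 hr1 ε' hε'0
    have hpι : ∀ n ∈ ι', p ∉ n.primeFactors := fun n hn hpn => hpS ((hι' n hn).2 hpn)
    have hfac : ∀ n ∈ ι', ∀ j, (n * p ^ j).factorization p = j ∧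
        n * p ^ j / p ^ (n * p ^ j).factorization p = n :=
      fun n hn j => ap_fact hp (hι' n hn).1 (hpι n hn)
    set g : ℕ × ℕ → ℕ := fun z => z.1 * p ^ z.2 with hg
    have hinj : Set.InjOn g (ι' ×ˢ Finset.range M : Finset (ℕ × ℕ)) := by
      rintro ⟨n, j⟩ hnj ⟨n', j'⟩ hnj' heq
      simp only [Finset.coe_product, Set.mem_prod, Finset.mem_coe] at hnj hnj'
      simp only [hg] at heq
      have h1 := hfac n hnj.1 j
      have h2 := hfac n' hnj'.1 j'
      rw [heq] at h1
      have h3 : j = j' := h1.1.symm.trans h2.1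
      have h4 : n = n' := h1.2.symm.trans h2.2
      rw [h3, h4]
    set c : ℕ → ℂ := fun m => c' (m / p ^ m.factorization p) * d (m.factorization p) with hc
    have hcg : ∀ n ∈ ι', ∀ j, c (n * p ^ j) = c' n * d j := by
      intro n hn j
      simp only [hc]
      rw [(hfac n hn j).2, (hfac n hn j).1]
    refine ⟨B' * p ^ N, (ι' ×ˢ Finset.range M).image g, c, ?_, ?_, ?_, ?_, ?_⟩
    · exact mul_pos hB'0 (pow_pos hp.pos _)
    · intro q hq
      rw [Nat.primeFactors_mul hB'0.ne' (pow_ne_zero _ hp.ne_zero), Finset.mem_union] at hq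
      rcases hq with hq | hq
      · exact Finset.mem_insert_of_mem (hB'S hq)
      · have h1 := Nat.mem_primeFactors.1 hq
        have h2 : q = p := (Nat.prime_dvd_prime_iff_eq h1.1 hp).1 (h1.1.dvd_of_dvd_pow h1.2.1)
        rw [h2]
        exact Finset.mem_insert_self _ _
    · intro m hm
      obtain ⟨⟨n, j⟩, hnj, rfl⟩ := Finset.mem_image.1 hm
      rw [Finset.mem_product] at hnj
      have hn := hι' n hnj.1
      refine ⟨mul_pos hn.1 (pow_pos hp.pos _), ?_⟩
      intro q hq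
      simp only [hg] at hq
      rw [Nat.primeFactors_mul hn.1.ne' (pow_ne_zero _ hp.ne_zero), Finset.mem_union] at hq
      rcases hq with hq | hq
      · exact Finset.mem_insert_of_mem (hn.2 hq)
      · have h1 := Nat.mem_primeFactors.1 hq
        have h2 : q = p := (Nat.prime_dvd_prime_iff_eq h1.1 hp).1 (h1.1.dvd_of_dvd_pow h1.2.1)
        rw [h2]
        exact Finset.mem_insert_self _ _
    · rw [Finset.sum_image hinj, Finset.sum_product]
      have h1 : ∑ n ∈ ι', ∑ j ∈ Finset.range M, ‖c (g (n, j))‖ ^ 2 =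
          (∑ n ∈ ι', ‖c' n‖ ^ 2) * ∑ j ∈ Finset.range M, ‖d j‖ ^ 2 := by
        rw [Finset.sum_mul_sum]
        refine Finset.sum_congr rfl fun n hn => Finset.sum_congr rfl fun j _ => ?_
        simp only [hg]
        rw [hcg n hn j, norm_mul, mul_pow]
      rw [h1]
      have h2 : (∑ n ∈ ι', ‖c' n‖ ^ 2) * ∑ j ∈ Finset.range M, ‖d j‖ ^ 2 ≤
          (1 + ε') ^ 2 * (1 + ε') ^ 2 :=
        mul_le_mul hc' hd (Finset.sum_nonneg fun _ _ => by positivity) (by positivity)
      refine h2.trans ?_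
      have h3 : (1 + ε') ^ 2 ≤ 1 + ε := by nlinarith
      have h4 : 0 ≤ (1 + ε') ^ 2 := by positivity
      calc (1 + ε') ^ 2 * (1 + ε') ^ 2 ≤ (1 + ε) * (1 + ε) :=
            mul_le_mul h3 h3 h4 (by positivity)
        _ = (1 + ε) ^ 2 := by ring
    · intro x hx
      have hxp : ‖x p‖ = 1 := hx p (Finset.mem_insert_self _ _)
      have hA := hx' x (fun q hq => hx q (Finset.mem_insert_of_mem hq))
      have hBb := hw (x p) hxp
      set A : ℂ := starRingEnd ℂ (x B') * ∑ n ∈ ι', c' n * x n with hAdef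
      set A' : ℂ := ∏ q ∈ S, (starRingEnd ℂ (1 - r q * x q) / (‖1 - r q * x q‖ : ℂ)) with hA'def
      set D : ℂ := starRingEnd ℂ (x p) ^ N * ∑ j ∈ Finset.range M, d j * x p ^ j with hDdef
      set D' : ℂ := starRingEnd ℂ (1 - r p * x p) / (‖1 - r p * x p‖ : ℂ) with hD'def
      have hprod : starRingEnd ℂ (x (B' * p ^ N)) *
          ∑ n ∈ (ι' ×ˢ Finset.range M).image g, c n * x n = A * D := by
        rw [Finset.sum_image hinj, Finset.sum_product]
        have h1 : ∑ n ∈ ι', ∑ j ∈ Finset.range M, c (g (n, j)) * x (g (n, j)) =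
            (∑ n ∈ ι', c' n * x n) * ∑ j ∈ Finset.range M, d j * x p ^ j := by
          rw [Finset.sum_mul_sum]
          refine Finset.sum_congr rfl fun n hn => Finset.sum_congr rfl fun j _ => ?_
          simp only [hg]
          rw [hcg n hn j, map_mul, map_pow]
          ring
        rw [h1, map_mul, map_pow, map_mul, map_pow, hAdef, hDdef]
        ring
      rw [hprod, Finset.prod_insert hpS]
      have hD'1 : ‖D'‖ ≤ 1 := ap_norm_le _ _
      have hA'1 : ‖A'‖ ≤ 1 := by
        rw [hA'def, norm_prod]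
        exact Finset.prod_le_one (fun _ _ => norm_nonneg _) (fun q _ => ap_norm_le _ _)
      have hA1 : ‖A‖ ≤ 1 + ε' := by
        calc ‖A‖ = ‖A' + (A - A')‖ := by rw [add_sub_cancel]
          _ ≤ ‖A'‖ + ‖A - A'‖ := norm_add_le _ _
          _ ≤ 1 + ε' := add_le_add hA'1 hA
      calc ‖A * D - D' * A'‖ = ‖A * (D - D') + (A - A') * D'‖ := by
            rw [show A * D - D' * A' = A * (D - D') + (A - A') * D' by ring]
        _ ≤ ‖A * (D - D')‖ + ‖(A - A') * D'‖ := norm_add_le _ _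
        _ = ‖A‖ * ‖D - D'‖ + ‖A - A'‖ * ‖D'‖ := by
            rw [norm_mul A (D - D'), norm_mul (A - A') D']
        _ ≤ (1 + ε') * ε' + ε' * 1 := by
            refine add_le_add (mul_le_mul hA1 hBb (norm_nonneg _) (by positivity)) ?_
            exact mul_le_mul hA hD'1 (norm_nonneg _) hε'0.le
        _ ≤ ε := by nlinarith

end Pool.Agent.GRH
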