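import Pool.Agent.Lib_helper24.GRH.Defs

/-! Block APPROX1 of MP_77948b_nt: Laurent polynomial approximation on the circle. -/

namespace Pool.Agent.GRH

open Complex MeasureTheory Filter Topology

/-- the function to be approximated -/
noncomputable def apxF (r : ℝ) (h0 : 0 ≤ r) (h1 : r < 1) : C(AddCircle (1 : ℝ), ℂ) where
  toFun x := starRingEnd ℂ (1 - r * fourier 1 x) / (‖1 - r * fourier 1 x‖ : ℂ)
  continuous_toFun := by
    have hc : Continuous fun x : AddCircle (1 : ℝ) => (1 - r * fourier 1 x : ℂ) :=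
      continuous_const.sub (continuous_const.mul (fourier 1).continuous)
    refine (Complex.continuous_conj.comp hc).div (Complex.continuous_ofReal.comp hc.norm) ?_
    intro x
    have h2 : ‖(fourier 1 x : ℂ)‖ = 1 := by
      rw [fourier_apply]
      exact Circle.norm_coe _
    have h3 : (1 : ℝ) - r ≤ ‖(1 - r * fourier 1 x : ℂ)‖ := by
      have h4 := norm_sub_norm_le (1 : ℂ) (r * fourier 1 x)
      rw [norm_one, norm_mul, h2, mul_one, Complex.norm_real, Real.norm_of_nonneg h0] at h4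
      exact h4
    have h5 : ‖(1 - r * fourier 1 x : ℂ)‖ ≠ 0 := by linarith
    exact_mod_cast h5

theorem apxF_norm (r : ℝ) (h0 : 0 ≤ r) (h1 : r < 1) : ‖apxF r h0 h1‖ ≤ 1 := by
  rw [ContinuousMap.norm_le _ zero_le_one]
  intro x
  show ‖starRingEnd ℂ (1 - r * fourier 1 x) / (‖1 - r * fourier 1 x‖ : ℂ)‖ ≤ 1
  rw [norm_div, RCLike.norm_conj, Complex.norm_real, norm_norm]
  exact div_self_le_one _

theorem approx₁ (r : ℝ) (h0 : 0 ≤ r) (h1 : r < 1) (ε : ℝ) (hε : 0 < ε) :
    ∃ (N M : ℕ) (c : ℕ → ℂ), ∑ j ∈ Finset.range M, ‖c j‖ ^ 2 ≤ (1 + ε) ^ 2 ∧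
      ∀ w : ℂ, ‖w‖ = 1 → ‖starRingEnd ℂ w ^ N * ∑ j ∈ Finset.range M, c j * w ^ j -
          starRingEnd ℂ (1 - r * w) / ‖1 - r * w‖‖ ≤ ε := by
  have hmem : apxF r h0 h1 ∈
      (Submodule.span ℂ (Set.range (fourier (T := (1 : ℝ))))).topologicalClosure := by
    rw [span_fourier_closure_eq_top]
    trivial
  have hmem2 : apxF r h0 h1 ∈ closure
      (Submodule.span ℂ (Set.range (fourier (T := (1 : ℝ)))) : Set C(AddCircle (1 : ℝ), ℂ)) :=
    hmem
  obtain ⟨g, hg, hdist⟩ := Metric.mem_closure_iff.1 hmem2 ε hε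
  obtain ⟨c, hc⟩ := Finsupp.mem_span_range_iff_exists_finsupp.1 hg
  set N : ℕ := c.support.sup Int.natAbs with hN
  set e : ℕ ↪ ℤ := ⟨fun j => (j : ℤ) - N, fun i j h => by
    have : (i : ℤ) - N = (j : ℤ) - N := h
    omega⟩ with he
  set s : Finset ℤ := (Finset.range (2 * N + 1)).map e with hs
  have hsub : c.support ⊆ s := by
    intro i hi
    have h2 : i.natAbs ≤ N := Finset.le_sup (f := Int.natAbs) hi
    rw [hs, Finset.mem_map]
    refine ⟨(i + N).toNat, ?_, ?_⟩
    · rw [Finset.mem_range]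
      omega
    · show (((i + N).toNat : ℕ) : ℤ) - N = i
      omega
  have hg2 : g = ∑ i ∈ s, c i • fourier (T := (1 : ℝ)) i := by
    rw [← hc]
    exact Finsupp.sum_of_support_subset c hsub _ (fun i _ => zero_smul _ _)
  have hgnorm : ‖g‖ ≤ 1 + ε := by
    have h2 : ‖g‖ ≤ ‖apxF r h0 h1‖ + ‖g - apxF r h0 h1‖ := by
      have := norm_add_le (apxF r h0 h1) (g - apxF r h0 h1)
      rwa [add_sub_cancel] at this
    have h3 : ‖g - apxF r h0 h1‖ < ε := by
      rw [← dist_eq_norm, dist_comm]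
      exact hdist
    have h4 := apxF_norm r h0 h1
    linarith
  refine ⟨N, 2 * N + 1, fun j => c ((j : ℤ) - N), ?_, ?_⟩
  · -- Bessel
    set L := ContinuousMap.toLp (E := ℂ) 2 (AddCircle.haarAddCircle (T := (1 : ℝ))) ℂ with hL
    have h2 : L g = ∑ i ∈ s, c i • fourierLp 2 i := by
      rw [hg2, map_sum]
      refine Finset.sum_congr rfl fun i _ => ?_
      rw [map_smul]
    have h3 : ∑ i ∈ s, ‖c i‖ ^ 2 ≤ ‖L g‖ ^ 2 := by
      have h4 := (orthonormal_fourier (T := (1 : ℝ))).sum_inner_products_le (s := s) (L g)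
      refine le_trans (le_of_eq ?_) h4
      refine Finset.sum_congr rfl fun i hi => ?_
      rw [h2, (orthonormal_fourier (T := (1 : ℝ))).inner_right_sum _ hi]
    have h5 : ‖L g‖ ≤ ‖g‖ := by
      have h6 : ‖L‖ ≤ 1 := by
        have h7 := ContinuousMap.toLp_norm_le (E := ℂ) (p := 2)
          (μ := AddCircle.haarAddCircle (T := (1 : ℝ))) (𝕜 := ℂ)
        refine h7.trans (le_of_eq ?_)
        simp [measureUnivNNReal, measure_univ]
      calc ‖L g‖ ≤ ‖L‖ * ‖g‖ := L.le_opNorm g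
        _ ≤ 1 * ‖g‖ := mul_le_mul_of_nonneg_right h6 (norm_nonneg _)
        _ = ‖g‖ := one_mul _
    have h8 : ∑ j ∈ Finset.range (2 * N + 1), ‖c ((j : ℤ) - N)‖ ^ 2 = ∑ i ∈ s, ‖c i‖ ^ 2 := by
      rw [hs, Finset.sum_map]
      rfl
    rw [h8]
    refine h3.trans ?_
    exact pow_le_pow_left₀ (norm_nonneg _) (h5.trans hgnorm) 2
  · intro w hw
    have hw0 : w ≠ 0 := by
      intro h
      rw [h, norm_zero] at hw
      exact zero_ne_one hw
    set x : AddCircle (1 : ℝ) := ((Complex.arg w / (2 * Real.pi) : ℝ) : AddCircle (1 : ℝ)) with hx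
    have hfour : ∀ n : ℤ, (fourier n x : ℂ) = w ^ n := by
      intro n
      rw [hx, fourier_coe_apply]
      have h2 : w = cexp (Complex.arg w * I) := by
        have := Complex.norm_mul_exp_arg_mul_I w
        rw [hw, Complex.ofReal_one, one_mul] at this
        exact this.symm
      conv_rhs => rw [h2]
      rw [← Complex.exp_int_mul]
      congr 1
      have hpi : (Real.pi : ℂ) ≠ 0 := by exact_mod_cast Real.pi_ne_zero
      push_cast
      field_simp
    have hF : apxF r h0 h1 x = starRingEnd ℂ (1 - r * w) / ‖1 - r * w‖ := by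
      show starRingEnd ℂ (1 - r * fourier 1 x) / (‖1 - r * fourier 1 x‖ : ℂ) = _
      rw [hfour 1, zpow_one]
    have hG : g x = starRingEnd ℂ w ^ N * ∑ j ∈ Finset.range (2 * N + 1), c ((j : ℤ) - N) * w ^ j := by
      have h2 : g x = ∑ i ∈ s, c i * w ^ i := by
        rw [hg2, ContinuousMap.sum_apply]
        refine Finset.sum_congr rfl fun i _ => ?_
        rw [ContinuousMap.smul_apply, hfour i, smul_eq_mul]
      have hconj : starRingEnd ℂ w = w⁻¹ := by
        rw [Complex.inv_def, Complex.normSq_eq_norm_sq, hw]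
        simp
      rw [h2, hs, Finset.sum_map, Finset.mul_sum, hconj]
      refine Finset.sum_congr rfl fun j _ => ?_
      show c ((j : ℤ) - N) * w ^ ((j : ℤ) - N) = w⁻¹ ^ N * (c ((j : ℤ) - N) * w ^ j)
      rw [zpow_sub₀ hw0, zpow_natCast, zpow_natCast, inv_pow, div_eq_mul_inv]
      ring
    rw [← hF, ← hG]
    have h3 : ‖(g - apxF r h0 h1) x‖ ≤ ‖g - apxF r h0 h1‖ := ContinuousMap.norm_coe_le_norm _ x
    have h4 : ‖g - apxF r h0 h1‖ < ε := by
      rw [← dist_eq_norm, dist_comm]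
      exact hdist
    rw [ContinuousMap.sub_apply] at h3
    linarith

end Pool.Agent.GRH
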