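import Pool.Agent.Lib_helper24.GRH.Defs

/-! Block MS of MP_77948b_nt: mean square over all Dirichlet characters. -/

namespace Pool.Agent.GRH

open Complex MeasureTheory Filter Topology

theorem ms_orth {q : ℕ} [NeZero q] (j k : ZMod q) :
    ∑ χ : DirichletCharacter ℂ q, χ j * starRingEnd ℂ (χ k) =
      if (j = k ∧ IsUnit k) then (q.totient : ℂ) else 0 := by
  by_cases hk : IsUnit k
  · obtain ⟨u, rfl⟩ := hk
    have h1 : ∀ χ : DirichletCharacter ℂ q, starRingEnd ℂ (χ (u : ZMod q)) =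
        χ ((u : ZMod q)⁻¹) := by
      intro χ
      have h2 : starRingEnd ℂ (χ (u : ZMod q)) = χ⁻¹ (u : ZMod q) := MulChar.star_apply' χ _
      rw [h2, MulChar.inv_apply, Ring.inverse_unit, ZMod.inv_coe_unit]
    have h3 := DirichletCharacter.sum_char_inv_mul_char_eq (R := ℂ) (n := q)
      (a := (u : ZMod q)) u.isUnit j
    calc ∑ χ : DirichletCharacter ℂ q, χ j * starRingEnd ℂ (χ (u : ZMod q))
        = ∑ χ : DirichletCharacter ℂ q, χ ((u : ZMod q)⁻¹) * χ j := by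
          refine Finset.sum_congr rfl fun χ _ => ?_
          rw [h1 χ, mul_comm]
      _ = if (u : ZMod q) = j then (q.totient : ℂ) else 0 := h3
      _ = _ := by
          by_cases h : (u : ZMod q) = j
          · rw [if_pos h, if_pos ⟨h.symm, u.isUnit⟩]
          · rw [if_neg h, if_neg]
            rintro ⟨h4, _⟩
            exact h h4.symm
  · rw [if_neg (fun h => hk h.2)]
    refine Finset.sum_eq_zero fun χ _ => ?_
    rw [MulChar.map_nonunit χ hk]
    simp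

theorem ms_parseval {q : ℕ} [NeZero q] (A : ZMod q → ℂ) :
    ∑ χ : DirichletCharacter ℂ q, ‖∑ j, χ j * A j‖ ^ 2 ≤ q.totient * ∑ j, ‖A j‖ ^ 2 := by
  classical
  have h1 : ((∑ χ : DirichletCharacter ℂ q, ‖∑ j, χ j * A j‖ ^ 2 : ℝ) : ℂ) =
      ((q.totient * ∑ j, (if IsUnit j then ‖A j‖ ^ 2 else 0) : ℝ) : ℂ) := by
    push_cast
    have h2 : ∀ χ : DirichletCharacter ℂ q, ((‖∑ j, χ j * A j‖ : ℂ)) ^ 2 =
        ∑ j, ∑ k, (A j * starRingEnd ℂ (A k)) * (χ j * starRingEnd ℂ (χ k)) := by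
      intro χ
      rw [← Complex.mul_conj', map_sum, Finset.sum_mul_sum]
      refine Finset.sum_congr rfl fun j _ => Finset.sum_congr rfl fun k _ => ?_
      rw [map_mul]
      ring
    simp only [h2]
    rw [Finset.sum_comm, Finset.mul_sum]
    refine Finset.sum_congr rfl fun j _ => ?_
    rw [Finset.sum_comm]
    simp only [← Finset.mul_sum, ms_orth]
    rw [Finset.sum_eq_single j]
    · by_cases hj : IsUnit j
      · simp only [hj, and_self, if_true]
        rw [Complex.mul_conj']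
        push_cast
        ring
      · simp [hj]
    · intro k _ hk
      rw [if_neg (fun h => hk h.1.symm), mul_zero]
    · simp
  have h3 : ∑ χ : DirichletCharacter ℂ q, ‖∑ j, χ j * A j‖ ^ 2 =
      q.totient * ∑ j, (if IsUnit j then ‖A j‖ ^ 2 else 0) := Complex.ofReal_injective h1
  rw [h3]
  apply mul_le_mul_of_nonneg_left _ (Nat.cast_nonneg _)
  refine Finset.sum_le_sum fun j _ => ?_
  split_ifs
  · exact le_rfl
  · positivity

/-- finite form of the off-diagonal bound -/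
theorem ms_fin (m : ℕ → ℝ) (M : ℝ) (hm : ∀ N, ∑ l ∈ Finset.range N, m l ≤ M) (N : ℕ) :
    ∀ b : ℕ → ℝ, (∀ k, 0 ≤ b k) → (∀ k l, b (k + l + 1) ≤ m l) →
      (∑ k ∈ Finset.range N, b k) ^ 2 ≤
        ∑ k ∈ Finset.range N, b k ^ 2 + 2 * M * ∑ k ∈ Finset.range N, b k := by
  induction N with
  | zero =>
    intro b _ _
    simp
  | succ N ih =>
    intro b hb hbm
    have h1 := ih (fun k => b (k + 1)) (fun k => hb _) (fun k l => by
      have := hbm (k + 1) l
      rw [show k + l + 1 + 1 = k + 1 + l + 1 by ring]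
      exact this)
    rw [Finset.sum_range_succ', Finset.sum_range_succ' (fun k => b k ^ 2)]
    have h2 : ∑ k ∈ Finset.range N, b (k + 1) ≤ M := by
      refine le_trans (Finset.sum_le_sum fun k _ => ?_) (hm N)
      have := hbm 0 k
      simpa using this
    have h3 : 0 ≤ b 0 := hb 0
    nlinarith [mul_le_mul_of_nonneg_left h2 h3]

theorem ms_tsum (m : ℕ → ℝ) (M : ℝ) (hm : ∀ N, ∑ l ∈ Finset.range N, m l ≤ M)
    (b : ℕ → ℝ) (hb : ∀ k, 0 ≤ b k) (hbm : ∀ k l, b (k + l + 1) ≤ m l) (hs : Summable b)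
    (hs2 : Summable fun k => b k ^ 2) :
    (∑' k, b k) ^ 2 ≤ ∑' k, b k ^ 2 + 2 * M * ∑' k, b k := by
  have h1 : Tendsto (fun N => (∑ k ∈ Finset.range N, b k) ^ 2) atTop (𝓝 ((∑' k, b k) ^ 2)) :=
    (hs.hasSum.tendsto_sum_nat).pow 2
  have h2 : Tendsto (fun N => ∑ k ∈ Finset.range N, b k ^ 2 + 2 * M * ∑ k ∈ Finset.range N, b k)
      atTop (𝓝 (∑' k, b k ^ 2 + 2 * M * ∑' k, b k)) :=
    (hs2.hasSum.tendsto_sum_nat).add ((hs.hasSum.tendsto_sum_nat).const_mul _)
  exact le_of_tendsto_of_tendsto' h1 h2 fun N => ms_fin m M hm N b hb hbm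

theorem ms_X_summable {δ : ℝ} (hδ : 0 < δ) :
    Summable (fun n : ℕ => 1 / (1 + (((n : ℝ) + 1) * δ) ^ 2)) := by
  have h1 : Summable fun n : ℕ => (1 / δ ^ 2) * (1 / ((n : ℝ) + 1) ^ 2) := by
    have h2 : Summable fun n : ℕ => 1 / ((n : ℝ)) ^ 2 := Real.summable_one_div_nat_pow.2 (by norm_num)
    have h3 := (summable_nat_add_iff 1).2 h2
    refine (h3.mul_left (1 / δ ^ 2)).congr fun n => ?_
    push_cast
    rfl
  refine Summable.of_nonneg_of_le (fun n => by positivity) (fun n => ?_) h1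
  have h5 : 1 / δ ^ 2 * (1 / ((n : ℝ) + 1) ^ 2) = 1 / ((((n : ℝ) + 1) * δ) ^ 2) := by
    rw [one_div_mul_one_div, mul_pow, mul_comm]
  rw [h5]
  apply one_div_le_one_div_of_le (by positivity)
  linarith

theorem ms_a_summable (a : ℕ → ℂ) (K δ : ℝ) (hδ : 0 < δ)
    (ha : ∀ n : ℕ, ‖a n‖ ≤ K / (1 + ((n : ℝ) * δ) ^ 2)) : Summable fun n => ‖a n‖ := by
  rw [← summable_nat_add_iff 1]
  have h1 := (ms_X_summable hδ).mul_left K
  refine Summable.of_nonneg_of_le (fun n => norm_nonneg _) (fun n => ?_) h1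
  refine (ha (n + 1)).trans (le_of_eq ?_)
  push_cast
  rw [mul_one_div]

theorem ms_a_tsum_le (a : ℕ → ℂ) (K δ : ℝ) (hδ : 0 < δ) (ha0 : a 0 = 0)
    (ha : ∀ n : ℕ, ‖a n‖ ≤ K / (1 + ((n : ℝ) * δ) ^ 2)) : ∑' n, ‖a n‖ ≤ K * X δ := by
  have hs := ms_a_summable a K δ hδ ha
  rw [hs.tsum_eq_zero_add, ha0, norm_zero, zero_add]
  unfold X
  rw [← tsum_mul_left]
  refine ((summable_nat_add_iff 1).2 hs).tsum_le_tsum (fun n => ?_) ((ms_X_summable hδ).mul_left K)
  refine (ha (n + 1)).trans (le_of_eq ?_)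
  push_cast
  rw [mul_one_div]

theorem ms {q : ℕ} [NeZero q] (a : ℕ → ℂ) (K δ : ℝ) (hδ : 0 < δ) (ha0 : a 0 = 0)
    (ha : ∀ n : ℕ, ‖a n‖ ≤ K / (1 + ((n : ℝ) * δ) ^ 2)) :
    ∑ χ : DirichletCharacter ℂ q, ‖∑' n : ℕ, χ n * a n‖ ^ 2 ≤
      q.totient * (∑' n : ℕ, ‖a n‖ ^ 2 + 2 * K ^ 2 * X δ * X (q * δ)) := by
  have hq0 : (0 : ℝ) < q := Nat.cast_pos.2 (Nat.pos_of_ne_zero (NeZero.ne q))
  have hqδ : 0 < q * δ := mul_pos hq0 hδ
  have hK : 0 ≤ K := by
    have := ha 0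
    rw [ha0, norm_zero] at this
    simpa using this
  have hs := ms_a_summable a K δ hδ ha
  have hsc : Summable a := hs.of_norm
  have hs2 : Summable fun n => ‖a n‖ ^ 2 := by
    refine Summable.of_nonneg_of_le (fun n => by positivity) (fun n => ?_) (hs.mul_left K)
    have h1 : ‖a n‖ ≤ K := (ha n).trans (div_le_self hK (by nlinarith [sq_nonneg ((n : ℝ) * δ)]))
    rw [sq]
    exact mul_le_mul_of_nonneg_right h1 (norm_nonneg _)
  set A : ZMod q → ℂ := fun j => ∑' k : ℕ, a (j.val + q * k) with hA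
  have hT : ∀ χ : DirichletCharacter ℂ q, ∑' n : ℕ, χ n * a n = ∑ j, χ j * A j := by
    intro χ
    have hsχ : Summable fun n : ℕ => χ n * a n := by
      apply Summable.of_norm
      refine Summable.of_nonneg_of_le (fun n => norm_nonneg _) (fun n => ?_) hs
      rw [norm_mul]
      exact mul_le_of_le_one_left (norm_nonneg _) (DirichletCharacter.norm_le_one χ _)
    rw [Nat.sumByResidueClasses hsχ q]
    refine Finset.sum_congr rfl fun j _ => ?_
    rw [hA, ← tsum_mul_left]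
    refine tsum_congr fun k => ?_
    congr 2
    push_cast
    rw [ZMod.natCast_self, zero_mul, add_zero, ZMod.natCast_zmod_val]
  simp only [hT]
  refine (ms_parseval A).trans ?_
  apply mul_le_mul_of_nonneg_left _ (Nat.cast_nonneg _)
  -- bound for one class
  have hcls : ∀ j : ZMod q, ‖A j‖ ^ 2 ≤ ∑' k : ℕ, ‖a (j.val + q * k)‖ ^ 2 +
      2 * (K * X (q * δ)) * ∑' k : ℕ, ‖a (j.val + q * k)‖ := by
    intro j
    have hinj : Function.Injective fun k : ℕ => j.val + q * k := by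
      intro k l hkl
      have h1 : q * k = q * l := Nat.add_left_cancel hkl
      exact Nat.eq_of_mul_eq_mul_left (Nat.pos_of_ne_zero (NeZero.ne q)) h1
    have hsj : Summable fun k : ℕ => ‖a (j.val + q * k)‖ := hs.comp_injective hinj
    have hsj2 : Summable fun k : ℕ => ‖a (j.val + q * k)‖ ^ 2 := hs2.comp_injective hinj
    have h1 : ‖A j‖ ^ 2 ≤ (∑' k : ℕ, ‖a (j.val + q * k)‖) ^ 2 :=
      pow_le_pow_left₀ (norm_nonneg _) (norm_tsum_le_tsum_norm hsj) 2
    refine h1.trans (ms_tsum (fun l => K * (1 / (1 + (((l : ℝ) + 1) * (q * δ)) ^ 2)))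
      (K * X (q * δ)) (fun N => ?_) _ (fun k => norm_nonneg _) (fun k l => ?_) hsj hsj2)
    · rw [← Finset.mul_sum]
      apply mul_le_mul_of_nonneg_left _ hK
      exact (ms_X_summable hqδ).sum_le_tsum _ (fun n _ => by positivity)
    · refine (ha _).trans ?_
      rw [mul_one_div]
      apply div_le_div_of_nonneg_left hK (by positivity)
      have h2 : ((l : ℝ) + 1) * (q * δ) ≤ ((j.val + q * (k + l + 1) : ℕ) : ℝ) * δ := by
        push_cast
        have h3 : (0 : ℝ) ≤ (j.val : ℝ) := Nat.cast_nonneg _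
        have h4 : (0 : ℝ) ≤ (k : ℝ) := Nat.cast_nonneg _
        have h5 : ((l : ℝ) + 1) * q ≤ (j.val : ℝ) + q * (k + l + 1) := by nlinarith
        calc ((l : ℝ) + 1) * (q * δ) = (((l : ℝ) + 1) * q) * δ := by ring
          _ ≤ _ := mul_le_mul_of_nonneg_right h5 hδ.le
      have h6 : 0 ≤ ((l : ℝ) + 1) * (q * δ) := by positivity
      have := pow_le_pow_left₀ h6 h2 2
      linarith
  refine (Finset.sum_le_sum fun j _ => hcls j).trans ?_
  rw [Finset.sum_add_distrib, ← Finset.mul_sum]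
  have e1 : ∑ j : ZMod q, ∑' k : ℕ, ‖a (j.val + q * k)‖ ^ 2 = ∑' n, ‖a n‖ ^ 2 :=
    (Nat.sumByResidueClasses hs2 q).symm
  have e2 : ∑ j : ZMod q, ∑' k : ℕ, ‖a (j.val + q * k)‖ = ∑' n, ‖a n‖ :=
    (Nat.sumByResidueClasses hs q).symm
  rw [e1, e2]
  have h7 := ms_a_tsum_le a K δ hδ ha0 ha
  have h8 : 0 ≤ X (q * δ) := by
    unfold X
    exact tsum_nonneg fun n => by positivity
  have h9 : 2 * (K * X (q * δ)) * ∑' n, ‖a n‖ ≤ 2 * (K * X (q * δ)) * (K * X δ) :=
    mul_le_mul_of_nonneg_left h7 (by positivity)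
  nlinarith

end Pool.Agent.GRH
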