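import Pool.Agent.Lib_helper24.GRH.Defs

namespace Pool.Agent.GRH

open Complex MeasureTheory Filter Topology

theorem X_summable {δ : ℝ} (hδ : 0 < δ) :
    Summable (fun n : ℕ => 1 / (1 + (((n : ℝ) + 1) * δ) ^ 2)) := by
  have h1 : Summable (fun n : ℕ => 1 / δ ^ 2 * (1 / ((n : ℝ) + 1) ^ 2)) := by
    apply Summable.mul_left
    have := (summable_nat_add_iff 1).mpr (Real.summable_one_div_nat_pow.mpr (by norm_num : 1 < 2))
    simpa using this
  refine Summable.of_nonneg_of_le (fun n => by positivity) (fun n => ?_) h1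
  rw [div_mul_div_comm, mul_one]
  exact one_div_le_one_div_of_le (by positivity) (by nlinarith [sq_nonneg (((n:ℝ)+1) * δ)])

theorem X_nonneg (δ : ℝ) : 0 ≤ X δ := by
  unfold X
  exact tsum_nonneg fun n => by positivity

theorem X_le {δ : ℝ} (hδ : 0 < δ) : X δ ≤ Real.pi / (2 * δ) := by
  unfold X
  apply Real.tsum_le_of_sum_range_le (fun n => by positivity)
  intro N
  have hanti : AntitoneOn (fun x : ℝ => 1 / (1 + (x * δ) ^ 2)) (Set.Icc 0 (0 + (N : ℝ))) := by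
    intro x hx y hy hxy
    have hx0 : 0 ≤ x := hx.1
    have : x * δ ≤ y * δ := mul_le_mul_of_nonneg_right hxy hδ.le
    have h2 : (x * δ) ^ 2 ≤ (y * δ) ^ 2 := by
      apply pow_le_pow_left₀ (by positivity) this
    exact one_div_le_one_div_of_le (by positivity) (by linarith)
  have h1 := hanti.sum_le_integral
  have h2 : ∫ x in (0:ℝ)..(0 + (N:ℝ)), 1 / (1 + (x * δ) ^ 2) = δ⁻¹ * Real.arctan (N * δ) := by
    rw [zero_add]
    have := intervalIntegral.integral_comp_mul_right (a := (0:ℝ)) (b := (N:ℝ))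
      (fun x : ℝ => 1 / (1 + x ^ 2)) hδ.ne'
    rw [this]
    simp [smul_eq_mul]
  rw [h2] at h1
  have h3 : ∑ i ∈ Finset.range N, 1 / (1 + (((i : ℝ) + 1) * δ) ^ 2) ≤ δ⁻¹ * Real.arctan (N * δ) := by
    refine le_trans (le_of_eq ?_) h1
    apply Finset.sum_congr rfl
    intro i _
    simp
  refine h3.trans ?_
  have h4 : Real.arctan (N * δ) ≤ Real.pi / 2 := (Real.arctan_lt_pi_div_two _).le
  calc δ⁻¹ * Real.arctan (N * δ) ≤ δ⁻¹ * (Real.pi / 2) :=
        mul_le_mul_of_nonneg_left h4 (by positivity)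
    _ = Real.pi / (2 * δ) := by field_simp

theorem X_le' {δ : ℝ} (hδ : 0 < δ) : X δ ≤ 2 / δ ^ 2 := by
  unfold X
  have hz : HasSum (fun n : ℕ => 1 / ((n : ℝ) + 1) ^ 2) (Real.pi ^ 2 / 6) := by
    have := hasSum_zeta_two
    rw [hasSum_nat_add_iff' 1 |>.symm] at this
    simpa using this
  have hs : Summable (fun n : ℕ => 1 / δ ^ 2 * (1 / ((n : ℝ) + 1) ^ 2)) := hz.summable.mul_left _
  have hle : ∑' n : ℕ, 1 / (1 + (((n : ℝ) + 1) * δ) ^ 2) ≤
      ∑' n : ℕ, 1 / δ ^ 2 * (1 / ((n : ℝ) + 1) ^ 2) := by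
    refine (X_summable hδ).tsum_le_tsum (fun n => ?_) hs
    rw [div_mul_div_comm, mul_one]
    exact one_div_le_one_div_of_le (by positivity) (by nlinarith [sq_nonneg (((n:ℝ)+1) * δ)])
  refine hle.trans ?_
  rw [tsum_mul_left, hz.tsum_eq]
  have hpi := Real.pi_lt_d2
  have hpi0 := Real.pi_pos
  have h6 : Real.pi ^ 2 / 6 ≤ 2 := by nlinarith
  calc 1 / δ ^ 2 * (Real.pi ^ 2 / 6) ≤ 1 / δ ^ 2 * 2 := mul_le_mul_of_nonneg_left h6 (by positivity)
    _ = 2 / δ ^ 2 := by ring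

end Pool.Agent.GRH
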