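import Pool.Agent.Lib_helper24.GRH.GB
import Pool.Agent.Lib_helper24.GRH.XB
import Pool.Agent.Lib_helper24.GRH.MS

/-! Block A of MP_77948b_nt. -/

namespace Pool.Agent.GRH

open Complex MeasureTheory Filter Topology

/-- `χ(n)` restricted to `n` coprime to `m` -/
noncomputable def afun {q : ℕ} (m : ℕ) (χ : DirichletCharacter ℂ q) (n : ℕ) : ℂ :=
  χ n * (if n.Coprime m then 1 else 0)

theorem aper_sum (f : ℕ → ℂ) (p : ℕ) (hf : ∀ n, f (p + n) = f n)
    (h0 : ∑ n ∈ Finset.range p, f n = 0) (k r : ℕ) :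
    ∑ n ∈ Finset.range (p * k + r), f n = ∑ n ∈ Finset.range r, f n := by
  induction k with
  | zero => simp
  | succ k ih =>
    rw [show p * (k + 1) + r = p + (p * k + r) by ring, Finset.sum_range_add, h0, zero_add]
    simp only [hf]
    exact ih

theorem afun_periodic {q m : ℕ} (χ : DirichletCharacter ℂ q) (n : ℕ) :
    afun m χ (q * m + n) = afun m χ n := by
  unfold afun
  have h1 : ((q * m + n : ℕ) : ZMod q) = (n : ZMod q) := by
    push_cast
    rw [ZMod.natCast_self, zero_mul, zero_add]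
  have h2 : (q * m + n).Coprime m ↔ n.Coprime m := by
    rw [add_comm, mul_comm]
    exact Nat.coprime_add_mul_left_left n m q
  rw [h1]
  simp only [h2]

theorem afun_sum_period {q m : ℕ} [NeZero q] (hm : 0 < m) (χ : DirichletCharacter ℂ q)
    (hχ : χ ≠ 1) : ∑ n ∈ Finset.range (q * m), afun m χ n = 0 := by
  have hq : 0 < q := Nat.pos_of_ne_zero (NeZero.ne q)
  have : NeZero (q * m) := ⟨(Nat.mul_pos hq hm).ne'⟩
  set χ' := DirichletCharacter.changeLevel (dvd_mul_right q m) χ with hχ'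
  have hne : χ' ≠ 1 := by
    rw [hχ', Ne, DirichletCharacter.changeLevel_eq_one_iff]
    exact hχ
  have h1 : ∀ n : ℕ, afun m χ n = χ' (n : ZMod (q * m)) := by
    intro n
    by_cases hn : n.Coprime (q * m)
    · have h2 : IsCoprime (n : ℤ) ((q * m : ℕ) : ℤ) := Nat.isCoprime_iff_coprime.2 hn
      have h3 := DirichletCharacter.changeLevel_eq_cast_of_dvd' χ (dvd_mul_right q m) h2
      have h4 : n.Coprime m := Nat.Coprime.coprime_mul_left_right hn
      unfold afun
      rw [if_pos h4, mul_one]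
      push_cast at h3
      exact h3.symm
    · have h2 : χ' (n : ZMod (q * m)) = 0 := by
        apply MulChar.map_nonunit
        rw [ZMod.isUnit_iff_coprime]
        exact hn
      rw [h2]
      unfold afun
      by_cases h4 : n.Coprime m
      · have h5 : ¬ n.Coprime q := fun h5 => hn (Nat.Coprime.mul_right h5 h4)
        have h6 : χ (n : ZMod q) = 0 := by
          apply MulChar.map_nonunit
          rw [ZMod.isUnit_iff_coprime]
          exact h5
        rw [h6, zero_mul]
      · rw [if_neg h4, mul_zero]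
  rw [← MulChar.sum_eq_zero_of_ne_one hne]
  refine Finset.sum_nbij' (fun n : ℕ => (n : ZMod (q * m))) (fun a => a.val) ?_ ?_ ?_ ?_ ?_
  · intro a _
    exact Finset.mem_univ _
  · intro a _
    exact Finset.mem_range.2 (ZMod.val_lt a)
  · intro a ha
    exact ZMod.val_cast_of_lt (Finset.mem_range.1 ha)
  · intro a _
    exact ZMod.natCast_zmod_val a
  · intro a _
    exact h1 a

/-- mean square of the partial sums -/
theorem afun_mean {q m : ℕ} [NeZero q] (hm : 0 < m) (N : ℕ) :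
    ∑ χ ∈ (Finset.univ.erase (1 : DirichletCharacter ℂ q)),
      ‖∑ n ∈ Finset.range N, afun m χ n‖ ^ 2 ≤ q.totient * (q * (m : ℝ) ^ 2) := by
  have hq : 0 < q := Nat.pos_of_ne_zero (NeZero.ne q)
  set N' := N % (q * m) with hN'
  have hN'lt : N' < q * m := Nat.mod_lt _ (Nat.mul_pos hq hm)
  have hred : ∀ χ ∈ (Finset.univ.erase (1 : DirichletCharacter ℂ q)),
      ∑ n ∈ Finset.range N, afun m χ n = ∑ n ∈ Finset.range N', afun m χ n := by
    intro χ hχ
    have hne : χ ≠ 1 := (Finset.mem_erase.1 hχ).1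
    have h1 := aper_sum (afun m χ) (q * m) (afun_periodic χ) (afun_sum_period hm χ hne)
      (N / (q * m)) N'
    rw [hN', Nat.div_add_mod] at h1
    exact h1
  rw [Finset.sum_congr rfl fun χ hχ => by rw [hred χ hχ]]
  refine (Finset.sum_le_sum_of_subset_of_nonneg (Finset.erase_subset _ _)
    (fun _ _ _ => by positivity)).trans ?_
  -- write as a sum over residue classes
  set A : ZMod q → ℂ := fun j => ∑ n ∈ (Finset.range N').filter (fun n : ℕ => (n : ZMod q) = j),
    (if n.Coprime m then (1 : ℂ) else 0) with hA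
  have h2 : ∀ χ : DirichletCharacter ℂ q, ∑ n ∈ Finset.range N', afun m χ n =
      ∑ j, χ j * A j := by
    intro χ
    rw [← Finset.sum_fiberwise (Finset.range N') (fun n : ℕ => (n : ZMod q))]
    refine Finset.sum_congr rfl fun j _ => ?_
    rw [hA, Finset.mul_sum]
    refine Finset.sum_congr rfl fun n hn => ?_
    unfold afun
    rw [(Finset.mem_filter.1 hn).2]
  simp only [h2]
  refine (ms_parseval A).trans ?_
  apply mul_le_mul_of_nonneg_left _ (Nat.cast_nonneg _)
  have h3 : ∀ j, ‖A j‖ ≤ m := by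
    intro j
    have h4 : ‖A j‖ ≤ ∑ n ∈ (Finset.range N').filter (fun n : ℕ => (n : ZMod q) = j), (1 : ℝ) := by
      refine (norm_sum_le _ _).trans (Finset.sum_le_sum fun n _ => ?_)
      split_ifs <;> simp
    refine h4.trans ?_
    rw [Finset.sum_const, nsmul_eq_mul, mul_one]
    have h5 : ((Finset.range N').filter (fun n : ℕ => (n : ZMod q) = j)).card ≤ m := by
      have h6 : ∀ n ∈ (Finset.range N').filter (fun n : ℕ => (n : ZMod q) = j),
          n / q ∈ Finset.range m := by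
        intro n hn
        rw [Finset.mem_range]
        apply Nat.div_lt_of_lt_mul
        exact lt_trans (Finset.mem_range.1 (Finset.mem_filter.1 hn).1) hN'lt
      have h7 : Set.InjOn (fun n : ℕ => n / q)
          ((Finset.range N').filter (fun n : ℕ => (n : ZMod q) = j)) := by
        intro a ha b hb hab
        have ha2 : (a : ZMod q) = j := (Finset.mem_filter.1 ha).2
        have hb2 : (b : ZMod q) = j := (Finset.mem_filter.1 hb).2
        have h8 : a % q = b % q := (ZMod.natCast_eq_natCast_iff' a b q).1 (ha2.trans hb2.symm)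
        have h9 : a / q = b / q := hab
        rw [← Nat.div_add_mod a q, ← Nat.div_add_mod b q, h8, h9]
      calc _ ≤ (Finset.range m).card := Finset.card_le_card_of_injOn _ h6 h7
        _ = m := Finset.card_range m
    exact_mod_cast h5
  calc ∑ j, ‖A j‖ ^ 2 ≤ ∑ _j : ZMod q, (m : ℝ) ^ 2 :=
        Finset.sum_le_sum fun j _ => pow_le_pow_left₀ (norm_nonneg _) (h3 j) 2
    _ = q * (m : ℝ) ^ 2 := by
        rw [Finset.sum_const, Finset.card_univ, ZMod.card, nsmul_eq_mul]

/-- Abel summation for finite sums -/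
theorem aabel (f : ℕ → ℂ) (g : ℕ → ℝ) (M : ℕ) :
    ∑ n ∈ Finset.range M, f n * (g n : ℂ) =
      (∑ n ∈ Finset.range M, f n) * (g M : ℂ) +
        ∑ n ∈ Finset.range M, (∑ k ∈ Finset.range (n + 1), f k) * ((g n - g (n + 1) : ℝ) : ℂ) := by
  induction M with
  | zero => simp
  | succ M ih =>
    rw [Finset.sum_range_succ, ih, Finset.sum_range_succ (fun n => f n) M,
      Finset.sum_range_succ (fun n => (∑ k ∈ Finset.range (n + 1), f k) *
        ((g n - g (n + 1) : ℝ) : ℂ)) M, Finset.sum_range_succ (fun n => f n) M]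
    push_cast
    ring

/-- Cauchy-Schwarz after Abel summation -/
theorem aabel_sq (f : ℕ → ℂ) (g : ℕ → ℝ) (M : ℕ) :
    ‖∑ n ∈ Finset.range M, f n * (g n : ℂ)‖ ^ 2 ≤
      (|g M| + ∑ n ∈ Finset.range M, |g n - g (n + 1)|) *
        (‖∑ n ∈ Finset.range M, f n‖ ^ 2 * |g M| +
          ∑ n ∈ Finset.range M, ‖∑ k ∈ Finset.range (n + 1), f k‖ ^ 2 * |g n - g (n + 1)|) := by
  set W : ℝ := |g M| + ∑ n ∈ Finset.range M, |g n - g (n + 1)| with hW
  set s : ℕ → ℝ := fun n => ‖∑ k ∈ Finset.range n, f k‖ with hs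
  set d : ℕ → ℝ := fun n => |g n - g (n + 1)| with hd
  have h1 : ‖∑ n ∈ Finset.range M, f n * (g n : ℂ)‖ ≤
      s M * |g M| + ∑ n ∈ Finset.range M, s (n + 1) * d n := by
    rw [aabel]
    refine (norm_add_le _ _).trans (add_le_add ?_ ?_)
    · rw [norm_mul, Complex.norm_real]
      exact le_rfl
    · refine (norm_sum_le _ _).trans (Finset.sum_le_sum fun n _ => ?_)
      rw [norm_mul, Complex.norm_real]
      exact le_rfl
  have h0 : 0 ≤ ‖∑ n ∈ Finset.range M, f n * (g n : ℂ)‖ := norm_nonneg _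
  refine (pow_le_pow_left₀ h0 h1 2).trans ?_
  -- Cauchy-Schwarz on Option-like index: use range (M+1)
  set x : ℕ → ℝ := fun n => if n = M then s M else s (n + 1) with hx
  set y : ℕ → ℝ := fun n => if n = M then |g M| else d n with hy
  have hy0 : ∀ n, 0 ≤ y n := by
    intro n
    simp only [hy, hd]
    split_ifs <;> exact abs_nonneg _
  have e1 : s M * |g M| + ∑ n ∈ Finset.range M, s (n + 1) * d n =
      ∑ n ∈ Finset.range (M + 1), x n * y n := by
    rw [Finset.sum_range_succ, add_comm]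
    congr 1
    · refine Finset.sum_congr rfl fun n hn => ?_
      have : n ≠ M := (Finset.mem_range.1 hn).ne
      simp [hx, hy, this]
    · simp [hx, hy]
  have e2 : W = ∑ n ∈ Finset.range (M + 1), y n := by
    rw [Finset.sum_range_succ, hW, add_comm]
    congr 1
    · refine Finset.sum_congr rfl fun n hn => ?_
      have : n ≠ M := (Finset.mem_range.1 hn).ne
      simp [hy, hd, this]
    · simp [hy]
  have e3 : ‖∑ n ∈ Finset.range M, f n‖ ^ 2 * |g M| +
      ∑ n ∈ Finset.range M, ‖∑ k ∈ Finset.range (n + 1), f k‖ ^ 2 * |g n - g (n + 1)| =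
      ∑ n ∈ Finset.range (M + 1), x n ^ 2 * y n := by
    rw [Finset.sum_range_succ, add_comm]
    congr 1
    · refine Finset.sum_congr rfl fun n hn => ?_
      have : n ≠ M := (Finset.mem_range.1 hn).ne
      simp [hx, hy, hs, hd, this]
    · simp [hx, hy, hs]
  rw [e1, e2, e3]
  have hcs := Finset.sum_mul_sq_le_sq_mul_sq (Finset.range (M + 1)) (fun n => √(y n))
    (fun n => x n * √(y n))
  have h5 : ∀ n, √(y n) * (x n * √(y n)) = x n * y n := by
    intro n
    calc √(y n) * (x n * √(y n)) = x n * (√(y n) * √(y n)) := by ring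
      _ = _ := by rw [Real.mul_self_sqrt (hy0 n)]
  have h6 : ∀ n, √(y n) ^ 2 = y n := fun n => Real.sq_sqrt (hy0 n)
  have h7 : ∀ n, (x n * √(y n)) ^ 2 = x n ^ 2 * y n := by
    intro n
    rw [mul_pow, h6]
  simp only [h5, h6, h7] at hcs
  exact hcs

/-- coefficients -/
noncomputable def acoef (κ m : ℕ) (δ : ℝ) (n : ℕ) : ℂ :=
  if n.Coprime m ∧ n ≠ 0 then (G κ (n * δ) : ℂ) else 0

theorem acoef_zero (κ m : ℕ) (δ : ℝ) : acoef κ m δ 0 = 0 := by
  simp [acoef]

theorem acoef_norm_le {κ : ℕ} (hκ : κ ≤ 1) (m : ℕ) {δ : ℝ} (hδ : 0 < δ) (n : ℕ) :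
    ‖acoef κ m δ n‖ ≤ 1 / (1 + ((n : ℝ) * δ) ^ 2) := by
  unfold acoef
  split_ifs
  · rw [Complex.norm_real]
    exact G_le hκ (by positivity)
  · rw [norm_zero]
    positivity

theorem acoef_norm_le_one {κ : ℕ} (hκ : κ ≤ 1) (m : ℕ) {δ : ℝ} (hδ : 0 < δ) (n : ℕ) :
    ‖acoef κ m δ n‖ ≤ 1 := by
  refine (acoef_norm_le hκ m hδ n).trans ?_
  rw [div_le_one (by positivity)]
  nlinarith [sq_nonneg ((n : ℝ) * δ)]

theorem acoef_chi {q κ m : ℕ} (hq : 2 ≤ q) (χ : DirichletCharacter ℂ q) (δ : ℝ) (n : ℕ) :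
    χ n * acoef κ m δ n = afun m χ n * (G κ (n * δ) : ℂ) := by
  unfold acoef afun
  by_cases hn : n = 0
  · subst hn
    have hχ0 : χ ((0 : ℕ) : ZMod q) = 0 := by
      have : Fact (1 < q) := ⟨hq⟩
      rw [Nat.cast_zero]
      exact MulChar.map_nonunit χ not_isUnit_zero
    rw [hχ0]
    ring
  · simp only [ne_eq, hn, not_false_eq_true, and_true]
    split_ifs <;> ring

theorem aT_eq {q κ m : ℕ} (hq : 2 ≤ q) (χ : DirichletCharacter ℂ q) (δ : ℝ) :
    T κ m χ δ = ∑' n : ℕ, χ n * acoef κ m δ n := by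
  unfold T
  refine tsum_congr fun n => ?_
  rw [acoef_chi hq]
  unfold afun
  split_ifs <;> ring

theorem adens_sq {q κ m : ℕ} (χ : DirichletCharacter ℂ q) (u : ℝ) :
    ‖dens κ m χ u‖ ^ 2 = 4 * Real.exp u * ‖T κ m χ (Real.exp u)‖ ^ 2 := by
  unfold dens
  have h1 : Real.exp (u / 2) ^ 2 = Real.exp u := by
    rw [← Real.exp_nat_mul]
    congr 1
    push_cast
    ring
  rw [norm_mul, norm_mul, Complex.norm_real, Complex.norm_two, Real.norm_of_nonneg
    (Real.exp_pos _).le]
  calc (2 * Real.exp (u / 2) * ‖T κ m χ (Real.exp u)‖) ^ 2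
      = 4 * Real.exp (u / 2) ^ 2 * ‖T κ m χ (Real.exp u)‖ ^ 2 := by ring
    _ = _ := by rw [h1]

theorem asum_le {δ : ℝ} (hδ : 0 < δ) (M : ℕ) :
    ∑ n ∈ Finset.range M, 1 / (1 + ((n : ℝ) * δ) ^ 2) ≤ 1 + X δ := by
  have h1 : ∑ n ∈ Finset.range M, 1 / (1 + ((n : ℝ) * δ) ^ 2) ≤
      ∑ n ∈ Finset.range (M + 1), 1 / (1 + ((n : ℝ) * δ) ^ 2) := by
    rw [Finset.sum_range_succ]
    have : (0 : ℝ) ≤ 1 / (1 + ((M : ℝ) * δ) ^ 2) := by positivity
    linarith
  refine h1.trans ?_
  rw [Finset.sum_range_succ', add_comm]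
  apply add_le_add
  · simp
  · unfold X
    have h2 := (ms_X_summable hδ).sum_le_tsum (Finset.range M) (fun n _ => by positivity)
    refine le_trans (le_of_eq ?_) h2
    refine Finset.sum_congr rfl fun n _ => ?_
    push_cast
    rfl

theorem meanA {κ m : ℕ} (hκ : κ ≤ 1) (hm : 0 < m) : ∃ C : ℝ, 0 ≤ C ∧
    ∀ (q : ℕ) [NeZero q], 2 ≤ q → ∀ u : ℝ,
      ∑ χ ∈ (Finset.univ.erase (1 : DirichletCharacter ℂ q)), ‖dens κ m χ u‖ ^ 2 ≤
        C * q.totient := by
  obtain ⟨C, hC0, hC⟩ := G_lip hκ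
  have hpi := Real.pi_pos
  set V : ℝ := 1 + C * (1 + Real.pi / 2) with hV
  have hV0 : 0 ≤ V := by positivity
  refine ⟨2 * Real.pi * (1 + Real.pi) + 4 * V ^ 2 * (m : ℝ) ^ 2, by positivity, ?_⟩
  intro q _ hq u
  have hq' : (0 : ℝ) < q := by
    have : 0 < q := by omega
    exact_mod_cast this
  set δ : ℝ := Real.exp u with hδdef
  have hδ : 0 < δ := Real.exp_pos u
  have hφ : (0 : ℝ) ≤ q.totient := Nat.cast_nonneg _
  simp only [adens_sq]
  rw [← hδdef, ← Finset.mul_sum]
  have hs := ms_a_summable (acoef κ m δ) 1 δ hδ (acoef_norm_le hκ m hδ)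
  by_cases hcase : 1 ≤ q * δ
  · -- large δ
    have h1 : ∑ χ ∈ (Finset.univ.erase (1 : DirichletCharacter ℂ q)), ‖T κ m χ δ‖ ^ 2 ≤
        q.totient * (∑' n : ℕ, ‖acoef κ m δ n‖ ^ 2 + 2 * (1 : ℝ) ^ 2 * X δ * X (q * δ)) := by
      refine (Finset.sum_le_sum_of_subset_of_nonneg (Finset.erase_subset _ _)
        (fun _ _ _ => by positivity)).trans ?_
      have h2 := ms (q := q) (acoef κ m δ) 1 δ hδ (acoef_zero κ m δ) (acoef_norm_le hκ m hδ)
      refine le_trans (le_of_eq ?_) h2
      refine Finset.sum_congr rfl fun χ _ => ?_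
      rw [aT_eq hq]
    have h3 : ∑' n : ℕ, ‖acoef κ m δ n‖ ^ 2 ≤ X δ := by
      have h4 : ∑' n : ℕ, ‖acoef κ m δ n‖ ^ 2 ≤ ∑' n : ℕ, ‖acoef κ m δ n‖ := by
        have hle : ∀ n, ‖acoef κ m δ n‖ ^ 2 ≤ ‖acoef κ m δ n‖ := by
          intro n
          rw [sq]
          exact mul_le_of_le_one_left (norm_nonneg _) (acoef_norm_le_one hκ m hδ n)
        exact (Summable.of_nonneg_of_le (fun n => by positivity) hle hs).tsum_le_tsum hle hs
      have h5 := ms_a_tsum_le (acoef κ m δ) 1 δ hδ (acoef_zero κ m δ) (acoef_norm_le hκ m hδ)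
      linarith
    have h6 := X_le hδ
    have h7 : X (q * δ) ≤ Real.pi / 2 := by
      refine (X_le (mul_pos hq' hδ)).trans ?_
      apply div_le_div_of_nonneg_left hpi.le (by norm_num)
      linarith
    have h8 : 0 ≤ X δ := X_nonneg δ
    have h9 : X δ * X (q * δ) ≤ (Real.pi / (2 * δ)) * (Real.pi / 2) :=
      mul_le_mul h6 h7 (X_nonneg _) (by positivity)
    have h10 : ∑' n : ℕ, ‖acoef κ m δ n‖ ^ 2 + 2 * (1 : ℝ) ^ 2 * X δ * X (q * δ) ≤
        (Real.pi / (2 * δ)) * (1 + Real.pi) := by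
      nlinarith
    have h11 : 4 * δ * ((q.totient : ℝ) * ((Real.pi / (2 * δ)) * (1 + Real.pi))) =
        2 * Real.pi * (1 + Real.pi) * q.totient := by
      field_simp
      ring
    calc 4 * δ * ∑ χ ∈ (Finset.univ.erase (1 : DirichletCharacter ℂ q)), ‖T κ m χ δ‖ ^ 2
        ≤ 4 * δ * ((q.totient : ℝ) * ((Real.pi / (2 * δ)) * (1 + Real.pi))) := by
          apply mul_le_mul_of_nonneg_left _ (by positivity)
          exact h1.trans (mul_le_mul_of_nonneg_left h10 hφ)
      _ = 2 * Real.pi * (1 + Real.pi) * q.totient := h11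
      _ ≤ _ := by
          apply mul_le_mul_of_nonneg_right _ hφ
          have : 0 ≤ 4 * V ^ 2 * (m : ℝ) ^ 2 := by positivity
          linarith
  · -- small δ
    push Not at hcase
    have hδ1 : δ ≤ 1 := by
      have h1 : (1 : ℝ) ≤ q := by
        have : 1 ≤ q := by omega
        exact_mod_cast this
      nlinarith
    have hW : ∀ M : ℕ, |G κ (M * δ)| + ∑ n ∈ Finset.range M,
        |G κ (n * δ) - G κ ((n + 1 : ℕ) * δ)| ≤ V := by
      intro M
      have h1 : |G κ (M * δ)| ≤ 1 := by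
        refine (G_le hκ (by positivity)).trans ?_
        rw [div_le_one (by positivity)]
        nlinarith [sq_nonneg ((M : ℝ) * δ)]
      have h2 : ∑ n ∈ Finset.range M, |G κ (n * δ) - G κ ((n + 1 : ℕ) * δ)| ≤
          C * δ * ∑ n ∈ Finset.range M, 1 / (1 + ((n : ℝ) * δ) ^ 2) := by
        rw [Finset.mul_sum]
        refine Finset.sum_le_sum fun n _ => ?_
        have h3 := hC (n * δ) ((n + 1 : ℕ) * δ) (by positivity) (by push_cast; nlinarith)
        refine h3.trans (le_of_eq ?_)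
        push_cast
        rw [mul_one_div]
        congr 1
        ring
      have h4 : C * δ * ∑ n ∈ Finset.range M, 1 / (1 + ((n : ℝ) * δ) ^ 2) ≤
          C * (1 + Real.pi / 2) := by
        have h5 := asum_le hδ M
        have h6 := X_le hδ
        have h7 : δ * (1 + X δ) ≤ 1 + Real.pi / 2 := by
          have h8 : δ * X δ ≤ Real.pi / 2 := by
            calc δ * X δ ≤ δ * (Real.pi / (2 * δ)) := mul_le_mul_of_nonneg_left h6 hδ.le
              _ = Real.pi / 2 := by field_simp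
          nlinarith
        calc C * δ * ∑ n ∈ Finset.range M, 1 / (1 + ((n : ℝ) * δ) ^ 2)
            ≤ C * δ * (1 + X δ) := mul_le_mul_of_nonneg_left h5 (by positivity)
          _ = C * (δ * (1 + X δ)) := by ring
          _ ≤ _ := mul_le_mul_of_nonneg_left h7 hC0
      linarith
    have hfin : ∀ M : ℕ, ∑ χ ∈ (Finset.univ.erase (1 : DirichletCharacter ℂ q)),
        ‖∑ n ∈ Finset.range M, χ n * acoef κ m δ n‖ ^ 2 ≤
          V ^ 2 * (q.totient * (q * (m : ℝ) ^ 2)) := by
      intro M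
      set g : ℕ → ℝ := fun n => G κ (n * δ) with hg
      set W : ℝ := |g M| + ∑ n ∈ Finset.range M, |g n - g (n + 1)| with hWdef
      have hWV : W ≤ V := hW M
      have hW0 : 0 ≤ W := add_nonneg (abs_nonneg _) (Finset.sum_nonneg fun _ _ => abs_nonneg _)
      set Q : ℝ := q.totient * (q * (m : ℝ) ^ 2) with hQ
      have hQ0 : 0 ≤ Q := by positivity
      have h1 : ∀ χ : DirichletCharacter ℂ q, ‖∑ n ∈ Finset.range M, χ n * acoef κ m δ n‖ ^ 2 ≤
          W * (‖∑ n ∈ Finset.range M, afun m χ n‖ ^ 2 * |g M| +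
          ∑ n ∈ Finset.range M, ‖∑ k ∈ Finset.range (n + 1), afun m χ k‖ ^ 2 *
            |g n - g (n + 1)|) := by
        intro χ
        have h2 : ∑ n ∈ Finset.range M, χ n * acoef κ m δ n =
            ∑ n ∈ Finset.range M, afun m χ n * (g n : ℂ) :=
          Finset.sum_congr rfl fun n _ => acoef_chi hq χ δ n
        rw [h2]
        exact aabel_sq (afun m χ) g M
      refine (Finset.sum_le_sum fun χ _ => h1 χ).trans ?_
      rw [← Finset.mul_sum, Finset.sum_add_distrib, ← Finset.sum_mul, Finset.sum_comm]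
      have h3 : ∑ n ∈ Finset.range M, ∑ χ ∈ (Finset.univ.erase (1 : DirichletCharacter ℂ q)),
          ‖∑ k ∈ Finset.range (n + 1), afun m χ k‖ ^ 2 * |g n - g (n + 1)| ≤
          ∑ n ∈ Finset.range M, Q * |g n - g (n + 1)| := by
        refine Finset.sum_le_sum fun n _ => ?_
        rw [← Finset.sum_mul]
        exact mul_le_mul_of_nonneg_right (afun_mean hm (n + 1)) (abs_nonneg _)
      have h4 : (∑ χ ∈ (Finset.univ.erase (1 : DirichletCharacter ℂ q)),
          ‖∑ n ∈ Finset.range M, afun m χ n‖ ^ 2) * |g M| ≤ Q * |g M| :=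
        mul_le_mul_of_nonneg_right (afun_mean hm M) (abs_nonneg _)
      rw [← Finset.mul_sum] at h3
      calc _ ≤ W * (Q * |g M| + Q * ∑ n ∈ Finset.range M, |g n - g (n + 1)|) :=
            mul_le_mul_of_nonneg_left (add_le_add h4 h3) hW0
        _ = W * W * Q := by rw [hWdef]; ring
        _ ≤ V * V * Q := by
            apply mul_le_mul_of_nonneg_right _ hQ0
            exact mul_le_mul hWV hWV hW0 hV0
        _ = V ^ 2 * Q := by ring
    have hlim : Tendsto (fun M : ℕ => ∑ χ ∈ (Finset.univ.erase (1 : DirichletCharacter ℂ q)),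
        ‖∑ n ∈ Finset.range M, χ n * acoef κ m δ n‖ ^ 2) atTop
        (𝓝 (∑ χ ∈ (Finset.univ.erase (1 : DirichletCharacter ℂ q)), ‖T κ m χ δ‖ ^ 2)) := by
      refine tendsto_finsetSum _ fun χ _ => ?_
      have hsum : Summable fun n : ℕ => χ n * acoef κ m δ n := by
        apply Summable.of_norm
        refine Summable.of_nonneg_of_le (fun n => norm_nonneg _) (fun n => ?_) hs
        rw [norm_mul]
        exact mul_le_of_le_one_left (norm_nonneg _) (DirichletCharacter.norm_le_one χ _)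
      have h1 := hsum.hasSum.tendsto_sum_nat
      rw [← aT_eq hq] at h1
      exact (h1.norm).pow 2
    have h2 := le_of_tendsto' hlim hfin
    calc 4 * δ * ∑ χ ∈ (Finset.univ.erase (1 : DirichletCharacter ℂ q)), ‖T κ m χ δ‖ ^ 2
        ≤ 4 * δ * (V ^ 2 * (q.totient * (q * (m : ℝ) ^ 2))) :=
          mul_le_mul_of_nonneg_left h2 (by positivity)
      _ = (q * δ) * (4 * V ^ 2 * (m : ℝ) ^ 2 * q.totient) := by ring
      _ ≤ 1 * (4 * V ^ 2 * (m : ℝ) ^ 2 * q.totient) :=
          mul_le_mul_of_nonneg_right hcase.le (by positivity)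
      _ ≤ _ := by
          rw [one_mul, add_mul]
          have : 0 ≤ 2 * Real.pi * (1 + Real.pi) * (q.totient : ℝ) := by positivity
          linarith

end Pool.Agent.GRH
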