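import Pool.Agent.Lib_helper24.GRH.XB

namespace Pool.Agent.GRH

open Complex MeasureTheory Filter Topology

/-- The summand of `rough_sum`. -/
theorem rough_partial {m : ℕ} (hm : 0 < m) {δ : ℝ} (hδ : 0 < δ) (K : ℕ) :
    ∑ n ∈ Finset.range (K * m),
      (if n.Coprime m then (if n = 0 then 0 else 1 / (1 + ((n : ℝ) * δ) ^ 2)) else 0) ≤
    (m.totient : ℝ) * ∑ k ∈ Finset.range K, 1 / (1 + ((k : ℝ) * (m * δ)) ^ 2) := by
  induction K with
  | zero => simp
  | succ K ih =>
    rw [Finset.sum_range_succ, mul_add, add_mul, one_mul, ← Finset.sum_range_add_sum_Ico _ (Nat.le_add_right (K * m) m)]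
    refine add_le_add ih ?_
    have hcard := Nat.filter_coprime_Ico_eq_totient m (K * m)
    rw [← hcard, ← nsmul_eq_mul, ← Finset.sum_const, Finset.sum_filter]
    apply Finset.sum_le_sum
    intro n hn
    rw [Finset.mem_Ico] at hn
    have hc : n.Coprime m ↔ m.Coprime n := Nat.coprime_comm
    by_cases h : m.Coprime n
    · rw [if_pos (hc.mpr h), if_pos h]
      split_ifs with h0
      · positivity
      · apply one_div_le_one_div_of_le (by positivity)
        have h1 : ((K * m : ℕ) : ℝ) ≤ n := by exact_mod_cast hn.1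
        have h2 : (K : ℝ) * (m * δ) ≤ n * δ := by
          rw [← mul_assoc]
          push_cast at h1
          exact mul_le_mul_of_nonneg_right h1 hδ.le
        have h3 := pow_le_pow_left₀ (by positivity) h2 2
        linarith
    · rw [if_neg (fun h' => h (hc.mp h')), if_neg h]

theorem rough_sum {m : ℕ} (hm : 0 < m) {δ : ℝ} (hδ : 0 < δ) :
    Summable (fun n : ℕ => if n.Coprime m then (if n = 0 then 0 else 1 / (1 + ((n : ℝ) * δ) ^ 2))
      else 0) ∧
    ∑' n : ℕ, (if n.Coprime m then (if n = 0 then 0 else 1 / (1 + ((n : ℝ) * δ) ^ 2)) else 0) ≤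
      m.totient + (m.totient : ℝ) / m * (Real.pi / (2 * δ)) := by
  have hnn : ∀ n : ℕ, 0 ≤ (if n.Coprime m then (if n = 0 then 0 else 1 / (1 + ((n : ℝ) * δ) ^ 2))
      else 0) := by
    intro n
    split_ifs <;> positivity
  have hmR : (0 : ℝ) < m := by exact_mod_cast hm
  have hmδ : 0 < (m : ℝ) * δ := by positivity
  have hbd : ∀ N : ℕ, ∑ n ∈ Finset.range N,
      (if n.Coprime m then (if n = 0 then 0 else 1 / (1 + ((n : ℝ) * δ) ^ 2)) else 0) ≤
      m.totient + (m.totient : ℝ) / m * (Real.pi / (2 * δ)) := by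
    intro N
    have h1 : ∑ n ∈ Finset.range N,
        (if n.Coprime m then (if n = 0 then 0 else 1 / (1 + ((n : ℝ) * δ) ^ 2)) else 0) ≤
        ∑ n ∈ Finset.range (N * m),
        (if n.Coprime m then (if n = 0 then 0 else 1 / (1 + ((n : ℝ) * δ) ^ 2)) else 0) := by
      apply Finset.sum_le_sum_of_subset_of_nonneg
      · exact Finset.range_subset_range.mpr (Nat.le_mul_of_pos_right N hm)
      · intro n _ _
        exact hnn n
    refine h1.trans ((rough_partial hm hδ N).trans ?_)
    have h2 : ∑ k ∈ Finset.range N, 1 / (1 + ((k : ℝ) * (m * δ)) ^ 2) ≤ 1 + X (m * δ) := by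
      have h3 : ∑ k ∈ Finset.range N, 1 / (1 + ((k : ℝ) * (m * δ)) ^ 2) ≤
          ∑ k ∈ Finset.range (N + 1), 1 / (1 + ((k : ℝ) * (m * δ)) ^ 2) := by
        apply Finset.sum_le_sum_of_subset_of_nonneg
        · exact Finset.range_subset_range.mpr (Nat.le_succ N)
        · intro n _ _
          positivity
      refine h3.trans ?_
      rw [Finset.sum_range_succ']
      have h4 : ∑ k ∈ Finset.range N, 1 / (1 + (((k : ℝ) + 1) * (m * δ)) ^ 2) ≤ X (m * δ) := by
        unfold X
        exact (X_summable hmδ).sum_le_tsum _ (fun k _ => by positivity)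
      have h5 : (1 : ℝ) / (1 + (((0 : ℕ) : ℝ) * (m * δ)) ^ 2) = 1 := by simp
      rw [h5, add_comm]
      refine add_le_add le_rfl ?_
      refine le_trans (le_of_eq ?_) h4
      apply Finset.sum_congr rfl
      intro k _
      push_cast
      rfl
    have h6 : X (m * δ) ≤ Real.pi / (2 * (m * δ)) := X_le hmδ
    calc (m.totient : ℝ) * ∑ k ∈ Finset.range N, 1 / (1 + ((k : ℝ) * (m * δ)) ^ 2)
        ≤ (m.totient : ℝ) * (1 + Real.pi / (2 * (m * δ))) :=
          mul_le_mul_of_nonneg_left (h2.trans (by linarith)) (by positivity)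
      _ = m.totient + (m.totient : ℝ) / m * (Real.pi / (2 * δ)) := by
          field_simp
  exact ⟨summable_of_sum_range_le hnn hbd, Real.tsum_le_of_sum_range_le hnn hbd⟩

end Pool.Agent.GRH
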