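import Pool.Agent.Lib_helper24.GRH.GB
import Pool.Agent.Lib_helper24.GRH.XB
import Pool.Agent.Lib_helper24.GRH.MS
import Pool.Agent.Lib_helper24.GRH.ROUGH

/-! Block B of MP_77948b_nt. -/

namespace Pool.Agent.GRH

open Complex MeasureTheory Filter Topology

/-- coefficient of `k` coming from `n` -/
noncomputable def bcoef (κ m : ℕ) (δ : ℝ) (w : ℕ → ℂ) (n k : ℕ) : ℂ :=
  if n ∣ k ∧ (k / n).Coprime m ∧ k ≠ 0 then w n * (G κ (k * δ) : ℂ) else 0

theorem bcoef_zero (κ m : ℕ) (δ : ℝ) (w : ℕ → ℂ) (n : ℕ) : bcoef κ m δ w n 0 = 0 := by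
  simp [bcoef]

theorem bcoef_norm_le {κ : ℕ} (hκ : κ ≤ 1) (m : ℕ) {δ : ℝ} (hδ : 0 < δ) (w : ℕ → ℂ) (n k : ℕ) :
    ‖bcoef κ m δ w n k‖ ≤ ‖w n‖ / (1 + ((k : ℝ) * δ) ^ 2) := by
  unfold bcoef
  split_ifs
  · rw [norm_mul, Complex.norm_real, div_eq_mul_one_div]
    exact mul_le_mul_of_nonneg_left (G_le hκ (by positivity)) (norm_nonneg _)
  · rw [norm_zero]
    positivity

theorem bcoef_unique {κ m : ℕ} (hm : 0 < m) {δ : ℝ} (w : ℕ → ℂ) {n n' k : ℕ}
    (hn : 0 < n ∧ n.primeFactors ⊆ m.primeFactors)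
    (hn' : 0 < n' ∧ n'.primeFactors ⊆ m.primeFactors)
    (h : bcoef κ m δ w n k ≠ 0) (h' : bcoef κ m δ w n' k ≠ 0) : n = n' := by
  have key : ∀ {a b : ℕ}, 0 < a → (0 < b ∧ b.primeFactors ⊆ m.primeFactors) → a ∣ k →
      (k / a).Coprime m → k ≠ 0 → b ∣ k → b ∣ a := by
    intro a b ha hb hak hco hk0 hbk
    obtain ⟨r, hr⟩ := hak
    have hr2 : k / a = r := by
      rw [hr]
      exact Nat.mul_div_cancel_left r ha
    rw [hr2] at hco
    have hr0 : r ≠ 0 := by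
      rintro rfl
      exact hk0 (by rw [hr, mul_zero])
    have hdis : Disjoint r.primeFactors m.primeFactors :=
      (Nat.disjoint_primeFactors hr0 hm.ne').2 hco
    have hdis2 : Disjoint r.primeFactors b.primeFactors := hdis.mono_right hb.2
    have hco2 : Nat.Coprime r b := (Nat.disjoint_primeFactors hr0 hb.1.ne').1 hdis2
    rw [hr] at hbk
    exact hco2.symm.dvd_of_dvd_mul_right hbk
  unfold bcoef at h h'
  have e1 : n ∣ k ∧ (k / n).Coprime m ∧ k ≠ 0 := by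
    by_contra hcon
    exact h (if_neg hcon)
  have e2 : n' ∣ k ∧ (k / n').Coprime m ∧ k ≠ 0 := by
    by_contra hcon
    exact h' (if_neg hcon)
  exact Nat.dvd_antisymm (key hn'.1 hn e2.1 e2.2.1 e2.2.2 e1.1)
    (key hn.1 hn' e1.1 e1.2.1 e1.2.2 e2.1)

theorem bcoef_sq_sum {κ m : ℕ} (hm : 0 < m) {δ : ℝ} (w : ℕ → ℂ) (ι : Finset ℕ)
    (hι : ∀ n ∈ ι, 0 < n ∧ n.primeFactors ⊆ m.primeFactors) (k : ℕ) :
    ‖∑ n ∈ ι, bcoef κ m δ w n k‖ ^ 2 ≤ ∑ n ∈ ι, ‖bcoef κ m δ w n k‖ ^ 2 := by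
  by_cases h : ∃ n ∈ ι, bcoef κ m δ w n k ≠ 0
  · obtain ⟨n, hn, hne⟩ := h
    have h1 : ∑ n ∈ ι, bcoef κ m δ w n k = bcoef κ m δ w n k := by
      refine Finset.sum_eq_single n (fun b hb hbn => ?_) (fun h => absurd hn h)
      by_contra hcon
      exact hbn (bcoef_unique hm w (hι b hb) (hι n hn) hcon hne)
    rw [h1]
    exact Finset.single_le_sum (f := fun n => ‖bcoef κ m δ w n k‖ ^ 2)
      (fun i _ => by positivity) hn
  · push Not at h
    rw [Finset.sum_eq_zero h, norm_zero]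
    have : (0 : ℝ) ^ 2 = 0 := by norm_num
    rw [this]
    exact Finset.sum_nonneg fun i _ => by positivity

theorem bcoef_tsum_sq_le {κ : ℕ} (hκ : κ ≤ 1) {m : ℕ} (hm : 0 < m) {δ : ℝ} (hδ : 0 < δ)
    (w : ℕ → ℂ) {n : ℕ} (hn : 0 < n) :
    (Summable fun k => ‖bcoef κ m δ w n k‖ ^ 2) ∧
    ∑' k, ‖bcoef κ m δ w n k‖ ^ 2 ≤
      ‖w n‖ ^ 2 * (m.totient + (m.totient : ℝ) / m * (Real.pi / (2 * (n * δ)))) := by
  have hn' : (0 : ℝ) < n := Nat.cast_pos.2 hn
  have hs : Summable fun k => ‖bcoef κ m δ w n k‖ :=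
    ms_a_summable _ _ δ hδ (bcoef_norm_le hκ m hδ w n)
  have hs2 : Summable fun k => ‖bcoef κ m δ w n k‖ ^ 2 := by
    refine Summable.of_nonneg_of_le (fun k => by positivity) (fun k => ?_) (hs.mul_left ‖w n‖)
    have h1 : ‖bcoef κ m δ w n k‖ ≤ ‖w n‖ := (bcoef_norm_le hκ m hδ w n k).trans
      (div_le_self (norm_nonneg _) (by nlinarith [sq_nonneg ((k : ℝ) * δ)]))
    rw [sq]
    exact mul_le_mul_of_nonneg_right h1 (norm_nonneg _)
  refine ⟨hs2, ?_⟩
  have hinj : Function.Injective fun r : ℕ => n * r := fun a b h =>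
    Nat.eq_of_mul_eq_mul_left hn h
  have hsupp : Function.support (fun k => ‖bcoef κ m δ w n k‖ ^ 2) ⊆
      Set.range fun r : ℕ => n * r := by
    intro k hk
    have h1 : bcoef κ m δ w n k ≠ 0 := by
      intro h
      apply hk
      show ‖bcoef κ m δ w n k‖ ^ 2 = 0
      rw [h, norm_zero]
      norm_num
    have e1 : n ∣ k ∧ (k / n).Coprime m ∧ k ≠ 0 := by
      by_contra hcon
      exact h1 (if_neg hcon)
    obtain ⟨r, hr⟩ := e1.1
    exact ⟨r, hr.symm⟩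
  rw [← hinj.tsum_eq hsupp]
  obtain ⟨hr1, hr2⟩ := rough_sum hm (mul_pos hn' hδ)
  refine le_trans ?_ (mul_le_mul_of_nonneg_left hr2 (by positivity))
  rw [← tsum_mul_left]
  refine Summable.tsum_le_tsum (fun r => ?_) (hs2.comp_injective hinj) (hr1.mul_left _)
  unfold bcoef
  rw [Nat.mul_div_cancel_left r hn]
  by_cases h : n ∣ n * r ∧ r.Coprime m ∧ n * r ≠ 0
  · rw [if_pos h, if_pos h.2.1, if_neg (fun h0 => h.2.2 (by rw [h0, mul_zero])), norm_mul,
      Complex.norm_real, mul_pow]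
    apply mul_le_mul_of_nonneg_left _ (by positivity)
    have h1 : |G κ ((n * r : ℕ) * δ)| ≤ 1 / (1 + (((n * r : ℕ) : ℝ) * δ) ^ 2) :=
      G_le hκ (by positivity)
    have h2 : (1 : ℝ) / (1 + (((n * r : ℕ) : ℝ) * δ) ^ 2) ≤ 1 := by
      rw [div_le_one (by positivity)]
      nlinarith [sq_nonneg (((n * r : ℕ) : ℝ) * δ)]
    have h3 : ((n * r : ℕ) : ℝ) * δ = (r : ℝ) * (n * δ) := by
      push_cast
      ring
    have h0 : (0 : ℝ) ≤ 1 / (1 + (((n * r : ℕ) : ℝ) * δ) ^ 2) := by positivity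
    rw [← h3]
    calc ‖G κ ((n * r : ℕ) * δ)‖ ^ 2 ≤ (1 / (1 + (((n * r : ℕ) : ℝ) * δ) ^ 2)) ^ 2 :=
          pow_le_pow_left₀ (norm_nonneg _) h1 2
      _ ≤ 1 / (1 + (((n * r : ℕ) : ℝ) * δ) ^ 2) := by
          rw [sq]
          exact mul_le_of_le_one_left h0 h2
  · rw [if_neg h, norm_zero]
    have h4 : (0 : ℝ) ^ 2 = 0 := by norm_num
    rw [h4]
    apply mul_nonneg (by positivity)
    split_ifs <;> positivity

theorem bcoef_transform {κ : ℕ} (hκ : κ ≤ 1) (m : ℕ) {q : ℕ} [NeZero q] (hq : 2 ≤ q)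
    (χ : DirichletCharacter ℂ q) {δ : ℝ} (hδ : 0 < δ) (w : ℕ → ℂ) {n : ℕ} (hn : 0 < n) :
    (Summable fun k : ℕ => χ k * bcoef κ m δ w n k) ∧
    ∑' k : ℕ, χ k * bcoef κ m δ w n k = w n * χ n * T κ m χ (n * δ) := by
  have hχ0 : χ ((0 : ℕ) : ZMod q) = 0 := by
    have : Fact (1 < q) := ⟨hq⟩
    rw [Nat.cast_zero]
    exact MulChar.map_nonunit χ not_isUnit_zero
  constructor
  · apply Summable.of_norm
    refine Summable.of_nonneg_of_le (fun k => norm_nonneg _) (fun k => ?_)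
      (ms_a_summable _ _ δ hδ (bcoef_norm_le hκ m hδ w n))
    rw [norm_mul]
    exact mul_le_of_le_one_left (norm_nonneg _) (DirichletCharacter.norm_le_one χ _)
  · have hinj : Function.Injective fun r : ℕ => n * r := fun a b h =>
      Nat.eq_of_mul_eq_mul_left hn h
    have hsupp : Function.support (fun k : ℕ => χ k * bcoef κ m δ w n k) ⊆
        Set.range fun r : ℕ => n * r := by
      intro k hk
      have h1 : bcoef κ m δ w n k ≠ 0 := by
        intro h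
        apply hk
        show χ k * bcoef κ m δ w n k = 0
        rw [h, mul_zero]
      have e1 : n ∣ k ∧ (k / n).Coprime m ∧ k ≠ 0 := by
        by_contra hcon
        exact h1 (if_neg hcon)
      obtain ⟨r, hr⟩ := e1.1
      exact ⟨r, hr.symm⟩
    rw [← hinj.tsum_eq hsupp]
    unfold T
    rw [← tsum_mul_left]
    refine tsum_congr fun r => ?_
    unfold bcoef
    rw [Nat.mul_div_cancel_left r hn]
    by_cases hr : r = 0
    · subst hr
      rw [mul_zero, hχ0, zero_mul, zero_mul, mul_zero]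
    · have h1 : (n ∣ n * r ∧ r.Coprime m ∧ n * r ≠ 0) ↔ r.Coprime m := by
        constructor
        · exact fun h => h.2.1
        · exact fun h => ⟨dvd_mul_right n r, h, Nat.mul_ne_zero hn.ne' hr⟩
      simp only [h1]
      have h3 : ((n * r : ℕ) : ℝ) * δ = (r : ℝ) * (n * δ) := by
        push_cast
        ring
      rw [h3]
      push_cast
      rw [map_mul]
      split_ifs <;> ring

theorem meanB {κ m : ℕ} (hκ : κ ≤ 1) (hm : 0 < m) {B : ℕ} (hB : 0 < B) (ι : Finset ℕ)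
    (c : ℕ → ℂ) (hι : ∀ n ∈ ι, 0 < n ∧ n.primeFactors ⊆ m.primeFactors) (u : ℝ) :
    ∃ err : ℕ → ℝ, Tendsto err atTop (𝓝 0) ∧ ∀ (q : ℕ) [NeZero q], 2 ≤ q →
      ∑ χ : DirichletCharacter ℂ q,
        ‖∑ n ∈ ι, c n * χ n * dens κ m χ (u + Real.log n - Real.log (B * √q))‖ ^ 2 ≤
      q.totient * (2 * Real.pi * ((m.totient : ℝ) / m) * ∑ n ∈ ι, ‖c n‖ ^ 2 + err q) := by
  have hB' : (0 : ℝ) < B := Nat.cast_pos.2 hB
  set S1 : ℝ := ∑ n ∈ ι, (n : ℝ) * ‖c n‖ ^ 2 with hS1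
  set S : ℝ := ∑ n ∈ ι, ‖c n‖ * √n with hS
  set E1 : ℝ := 4 * m.totient * S1 * (Real.exp u / B) with hE1
  set E2 : ℝ := 8 * Real.pi * S ^ 2 * (B / Real.exp u) ^ 2 with hE2
  refine ⟨fun q => E1 * (√q)⁻¹ + E2 * ((q : ℝ))⁻¹, ?_, ?_⟩
  · have h1 : Tendsto (fun q : ℕ => ((q : ℝ))⁻¹) atTop (𝓝 0) :=
      tendsto_inv_atTop_zero.comp tendsto_natCast_atTop_atTop
    have h2 : Tendsto (fun q : ℕ => (√(q : ℝ))⁻¹) atTop (𝓝 0) :=
      tendsto_inv_atTop_zero.comp
        (Real.tendsto_sqrt_atTop.comp tendsto_natCast_atTop_atTop)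
    have := (h2.const_mul E1).add (h1.const_mul E2)
    simpa using this
  · intro q _ hq
    have hq' : (0 : ℝ) < q := by
      have : 0 < q := by omega
      exact_mod_cast this
    have hsq : (0 : ℝ) < √q := Real.sqrt_pos.2 hq'
    set δ : ℝ := Real.exp u / (B * √q) with hδdef
    have hδ : 0 < δ := div_pos (Real.exp_pos u) (mul_pos hB' hsq)
    have hexp : ∀ n ∈ ι, Real.exp (u + Real.log n - Real.log (B * √q)) = n * δ := by
      intro n hn
      have hn' : (0 : ℝ) < n := Nat.cast_pos.2 (hι n hn).1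
      rw [Real.exp_sub, Real.exp_add, Real.exp_log hn', Real.exp_log (mul_pos hB' hsq), hδdef]
      ring
    set w : ℕ → ℂ := fun n =>
      c n * (2 * (Real.exp ((u + Real.log n - Real.log (B * √q)) / 2) : ℂ)) with hw
    have hwn : ∀ n ∈ ι, ‖w n‖ = ‖c n‖ * √n * (2 * √δ) := by
      intro n hn
      have hn' : (0 : ℝ) ≤ n := Nat.cast_nonneg n
      have h1 : Real.exp ((u + Real.log n - Real.log (B * √q)) / 2) = √n * √δ := by
        rw [← Real.sqrt_mul hn', ← hexp n hn, Real.exp_half]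
      rw [hw]
      simp only
      rw [norm_mul, norm_mul, Complex.norm_real, h1, Complex.norm_two, Real.norm_of_nonneg
        (by positivity)]
      ring
    have hwsq : ∀ n ∈ ι, ‖w n‖ ^ 2 = 4 * ‖c n‖ ^ 2 * (n * δ) := by
      intro n hn
      rw [hwn n hn]
      have h1 : √(n : ℝ) ^ 2 = n := Real.sq_sqrt (Nat.cast_nonneg n)
      have h2 : √δ ^ 2 = δ := Real.sq_sqrt hδ.le
      calc (‖c n‖ * √n * (2 * √δ)) ^ 2 = 4 * ‖c n‖ ^ 2 * (√(n : ℝ) ^ 2 * √δ ^ 2) := by ring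
        _ = _ := by rw [h1, h2]
    set A : ℕ → ℂ := fun k => ∑ n ∈ ι, bcoef κ m δ w n k with hA
    have htrans : ∀ χ : DirichletCharacter ℂ q,
        ∑ n ∈ ι, c n * χ n * dens κ m χ (u + Real.log n - Real.log (B * √q)) =
          ∑' k : ℕ, χ k * A k := by
      intro χ
      have h1 : ∀ k : ℕ, χ k * A k = ∑ n ∈ ι, χ k * bcoef κ m δ w n k := by
        intro k
        rw [hA, Finset.mul_sum]
      simp only [h1]
      rw [Summable.tsum_finsetSum fun n hn => (bcoef_transform hκ m hq χ hδ w (hι n hn).1).1]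
      refine Finset.sum_congr rfl fun n hn => ?_
      rw [(bcoef_transform hκ m hq χ hδ w (hι n hn).1).2]
      unfold dens
      rw [hexp n hn, hw]
      simp only
      ring
    simp only [htrans]
    set K : ℝ := ∑ n ∈ ι, ‖w n‖ with hK
    have hA0 : A 0 = 0 := by
      rw [hA]
      simp only
      exact Finset.sum_eq_zero fun n _ => bcoef_zero κ m δ w n
    have hAle : ∀ k : ℕ, ‖A k‖ ≤ K / (1 + ((k : ℝ) * δ) ^ 2) := by
      intro k
      rw [hK, Finset.sum_div]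
      exact (norm_sum_le _ _).trans
        (Finset.sum_le_sum fun n _ => bcoef_norm_le hκ m hδ w n k)
    refine (ms A K δ hδ hA0 hAle).trans ?_
    apply mul_le_mul_of_nonneg_left _ (Nat.cast_nonneg _)
    have hsA : Summable fun k => ‖A k‖ ^ 2 := by
      have hs := ms_a_summable A K δ hδ hAle
      have hK0 : 0 ≤ K := Finset.sum_nonneg fun n _ => norm_nonneg _
      refine Summable.of_nonneg_of_le (fun k => by positivity) (fun k => ?_) (hs.mul_left K)
      have h1 : ‖A k‖ ≤ K := (hAle k).trans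
        (div_le_self hK0 (by nlinarith [sq_nonneg ((k : ℝ) * δ)]))
      rw [sq]
      exact mul_le_mul_of_nonneg_right h1 (norm_nonneg _)
    have hdiag : ∑' k, ‖A k‖ ^ 2 ≤ 2 * Real.pi * ((m.totient : ℝ) / m) * ∑ n ∈ ι, ‖c n‖ ^ 2 +
        E1 * (√q)⁻¹ := by
      have h1 : ∑' k, ‖A k‖ ^ 2 ≤ ∑' k, ∑ n ∈ ι, ‖bcoef κ m δ w n k‖ ^ 2 := by
        refine hsA.tsum_le_tsum (fun k => bcoef_sq_sum hm w ι hι k) ?_
        exact summable_sum fun n hn => (bcoef_tsum_sq_le hκ hm hδ w (hι n hn).1).1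
      rw [Summable.tsum_finsetSum fun n hn => (bcoef_tsum_sq_le hκ hm hδ w (hι n hn).1).1] at h1
      refine h1.trans ?_
      have h2 : ∀ n ∈ ι, ∑' k, ‖bcoef κ m δ w n k‖ ^ 2 ≤
          2 * Real.pi * ((m.totient : ℝ) / m) * ‖c n‖ ^ 2 +
            4 * m.totient * δ * ((n : ℝ) * ‖c n‖ ^ 2) := by
        intro n hn
        have hn' : (0 : ℝ) < n := Nat.cast_pos.2 (hι n hn).1
        refine (bcoef_tsum_sq_le hκ hm hδ w (hι n hn).1).2.trans (le_of_eq ?_)
        rw [hwsq n hn]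
        have hm' : (m : ℝ) ≠ 0 := by exact_mod_cast hm.ne'
        field_simp
        ring
      refine (Finset.sum_le_sum h2).trans (le_of_eq ?_)
      rw [Finset.sum_add_distrib, ← Finset.mul_sum, ← Finset.mul_sum, ← hS1, hE1, hδdef]
      field_simp
    have hoff : 2 * K ^ 2 * X δ * X (q * δ) ≤ E2 * ((q : ℝ))⁻¹ := by
      have hKS : K = 2 * √δ * S := by
        rw [hK, hS, Finset.mul_sum]
        refine Finset.sum_congr rfl fun n hn => ?_
        rw [hwn n hn]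
        ring
      have hK2 : K ^ 2 = 4 * δ * S ^ 2 := by
        rw [hKS]
        have h2 : √δ ^ 2 = δ := Real.sq_sqrt hδ.le
        calc (2 * √δ * S) ^ 2 = 4 * (√δ ^ 2) * S ^ 2 := by ring
          _ = _ := by rw [h2]
      have hqδ : 0 < q * δ := mul_pos hq' hδ
      have h1 : X δ * X (q * δ) ≤ (Real.pi / (2 * δ)) * (2 / (q * δ) ^ 2) :=
        mul_le_mul (X_le hδ) (X_le' hqδ) (X_nonneg _) (by positivity)
      have h2 : 2 * K ^ 2 * X δ * X (q * δ) ≤
          2 * K ^ 2 * ((Real.pi / (2 * δ)) * (2 / (q * δ) ^ 2)) := by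
        rw [mul_assoc]
        exact mul_le_mul_of_nonneg_left h1 (by positivity)
      refine h2.trans (le_of_eq ?_)
      have hqq : √(q : ℝ) ^ 2 = q := Real.sq_sqrt hq'.le
      have hδ2 : δ ^ 2 = (Real.exp u / B) ^ 2 / q := by
        rw [hδdef, div_pow, mul_pow, hqq, div_pow]
        field_simp
      have he : (0 : ℝ) < Real.exp u := Real.exp_pos u
      calc 2 * K ^ 2 * ((Real.pi / (2 * δ)) * (2 / (q * δ) ^ 2))
          = 8 * Real.pi * S ^ 2 / (q ^ 2 * δ ^ 2) := by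
            rw [hK2]
            field_simp
            ring
        _ = _ := by
            rw [hδ2, hE2]
            field_simp
    show _ ≤ 2 * Real.pi * ((m.totient : ℝ) / m) * ∑ n ∈ ι, ‖c n‖ ^ 2 +
      (E1 * (√q)⁻¹ + E2 * ((q : ℝ))⁻¹)
    linarith

end Pool.Agent.GRH
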