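import Pool.Agent.Lib_helper24.GRH.GB
import Pool.Agent.Lib_helper24.GRH.XB
import Pool.Agent.Lib_helper24.GRH.MS

namespace Pool.Agent.GRH

open Complex MeasureTheory Filter Topology

theorem inv_summable_C {δ : ℝ} (hδ : 0 < δ) :
    Summable (fun n : ℕ => 1 / (1 + ((n : ℝ) * δ) ^ 2)) := by
  rw [← summable_nat_add_iff 1]
  simpa using X_summable hδ

/-- coefficients of `dens - dens₁`. -/
noncomputable def aC (κ m : ℕ) (u : ℝ) (n : ℕ) : ℂ :=
  if 2 ≤ n ∧ n.Coprime m then 2 * (Real.exp (u / 2) : ℂ) * (G κ (n * Real.exp u) : ℂ) else 0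

theorem aC_zero (κ m : ℕ) (u : ℝ) : aC κ m u 0 = 0 := by
  simp [aC]

theorem aC_le {κ : ℕ} (hκ : κ ≤ 1) (m : ℕ) (u : ℝ) (n : ℕ) :
    ‖aC κ m u n‖ ≤ (2 * Real.exp (u / 2)) / (1 + ((n : ℝ) * Real.exp u) ^ 2) := by
  unfold aC
  split_ifs with h
  · have h1 := G_le hκ (y := (n : ℝ) * Real.exp u) (by positivity)
    rw [norm_mul, norm_mul, Complex.norm_real, Complex.norm_real, Real.norm_eq_abs,
      Real.norm_eq_abs, abs_of_pos (Real.exp_pos _)]
    simp only [Complex.norm_ofNat]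
    calc 2 * Real.exp (u / 2) * |G κ (n * Real.exp u)|
        ≤ 2 * Real.exp (u / 2) * (1 / (1 + ((n : ℝ) * Real.exp u) ^ 2)) :=
          mul_le_mul_of_nonneg_left h1 (by positivity)
      _ = _ := by ring
  · rw [norm_zero]
    positivity

theorem aC_normSq {κ m P : ℕ} (hP : ∀ p : ℕ, p.Prime → p ≤ P → p ∣ m) (u : ℝ)
    (n : ℕ) : ‖aC κ m u n‖ ^ 2 ≤
      4 * Real.exp u * (if P < n then (G κ (n * Real.exp u)) ^ 2 else 0) := by
  unfold aC
  split_ifs with h hn hn
  · rw [norm_mul, norm_mul, Complex.norm_real, Complex.norm_real, Real.norm_eq_abs,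
      Real.norm_eq_abs, abs_of_pos (Real.exp_pos _), mul_pow, mul_pow, sq_abs]
    simp only [Complex.norm_ofNat]
    rw [← Real.exp_nat_mul]
    have : ((2 : ℕ) : ℝ) * (u / 2) = u := by push_cast; ring
    rw [this]
    norm_num
  · exfalso
    have hne : n ≠ 1 := by omega
    have hp := Nat.minFac_prime hne
    have h1 : n.minFac ≤ n := Nat.minFac_le (by omega)
    have h2 := hP _ hp (by omega)
    have h3 : n.minFac ∣ Nat.gcd n m := Nat.dvd_gcd (Nat.minFac_dvd n) h2
    rw [h.2] at h3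
    exact hp.one_lt.ne' (Nat.dvd_one.mp h3)
  · rw [norm_zero, zero_pow two_ne_zero]
    positivity
  · simp

theorem ell_summable_C {κ : ℕ} (hκ : κ ≤ 1) (P : ℕ) (u : ℝ) :
    Summable (fun n : ℕ => if P < n then (G κ (n * Real.exp u)) ^ 2 else 0) := by
  refine Summable.of_nonneg_of_le (fun n => by positivity) (fun n => ?_)
    (inv_summable_C (Real.exp_pos u))
  split_ifs with h
  · have h1 := G_le hκ (y := (n : ℝ) * Real.exp u) (by positivity)
    have h2 : 1 / (1 + ((n : ℝ) * Real.exp u) ^ 2) ≤ 1 := by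
      rw [div_le_one (by positivity)]
      nlinarith [sq_nonneg ((n : ℝ) * Real.exp u)]
    rw [← sq_abs]
    have h3 : |G κ (n * Real.exp u)| ^ 2 ≤ |G κ (n * Real.exp u)| := by
      rw [sq]
      exact mul_le_of_le_one_left (abs_nonneg _) (h1.trans h2)
    exact h3.trans h1
  · positivity

theorem dens_sub {q : ℕ} [NeZero q] (hq : 2 ≤ q) {κ : ℕ} (hκ : κ ≤ 1) (m : ℕ)
    (χ : DirichletCharacter ℂ q) (u : ℝ) :
    dens κ m χ u - dens₁ κ u = ∑' n : ℕ, χ n * aC κ m u n := by
  have hsum : Summable (fun n : ℕ => χ n * (if n.Coprime m then (G κ (n * Real.exp u) : ℂ) else 0)) := by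
    apply Summable.of_norm
    refine Summable.of_nonneg_of_le (fun n => norm_nonneg _) (fun n => ?_)
      (inv_summable_C (Real.exp_pos u))
    rw [norm_mul]
    have h1 := G_le hκ (y := (n : ℝ) * Real.exp u) (by positivity)
    have h2 : ‖χ n‖ ≤ 1 := χ.norm_le_one _
    have h3 : ‖(if n.Coprime m then (G κ (n * Real.exp u) : ℂ) else 0)‖ ≤
        1 / (1 + ((n : ℝ) * Real.exp u) ^ 2) := by
      split_ifs
      · rw [Complex.norm_real]; exact h1
      · rw [norm_zero]; positivity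
    calc ‖χ n‖ * ‖(if n.Coprime m then (G κ (n * Real.exp u) : ℂ) else 0)‖
        ≤ 1 * ‖(if n.Coprime m then (G κ (n * Real.exp u) : ℂ) else 0)‖ :=
          mul_le_mul_of_nonneg_right h2 (norm_nonneg _)
      _ ≤ _ := by rw [one_mul]; exact h3
  unfold dens dens₁ T
  rw [← tsum_mul_left]
  have hχ0 : χ (0 : ZMod q) = 0 := by
    apply MulChar.map_nonunit
    have : Fact (1 < q) := ⟨by omega⟩
    exact not_isUnit_zero
  -- single out the term n = 1
  have hs2 : Summable (fun n : ℕ => 2 * (Real.exp (u / 2) : ℂ) *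
      (χ n * (if n.Coprime m then (G κ (n * Real.exp u) : ℂ) else 0))) := hsum.mul_left _
  rw [← hs2.sum_add_tsum_nat_add 2]
  have hs3 : Summable (fun n : ℕ => χ n * aC κ m u n) := by
    rw [← summable_nat_add_iff 2]
    refine ((summable_nat_add_iff 2).mpr hs2).congr (fun n => ?_)
    unfold aC
    by_cases h : (n + 2).Coprime m
    · rw [if_pos h, if_pos ⟨by omega, h⟩]; ring
    · rw [if_neg h, if_neg (fun h' => h h'.2)]; ring
  rw [← hs3.sum_add_tsum_nat_add 2]
  have ht : ∑' n : ℕ, 2 * (Real.exp (u / 2) : ℂ) *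
      (χ ((n + 2 : ℕ) : ZMod q) * (if (n + 2).Coprime m then (G κ ((n + 2 : ℕ) * Real.exp u) : ℂ) else 0)) =
      ∑' n : ℕ, χ ((n + 2 : ℕ) : ZMod q) * aC κ m u (n + 2) := by
    apply tsum_congr
    intro n
    unfold aC
    by_cases h : (n + 2).Coprime m
    · rw [if_pos h, if_pos ⟨by omega, h⟩]; ring
    · rw [if_neg h, if_neg (fun h' => h h'.2)]; ring
  rw [ht]
  simp only [Finset.sum_range_succ, Finset.sum_range_zero, zero_add, Nat.cast_zero, hχ0, zero_mul,
    mul_zero, Nat.cast_one, map_one, one_mul, Nat.coprime_one_left_eq_true, if_true]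
  have h1 : aC κ m u 1 = 0 := by simp [aC]
  rw [h1]
  ring

theorem meanC {κ m P : ℕ} (hκ : κ ≤ 1) (_hm : 0 < m)
    (hP : ∀ p : ℕ, p.Prime → p ≤ P → p ∣ m) (u : ℝ) :
    ∃ err : ℕ → ℝ, Tendsto err atTop (𝓝 0) ∧ ∀ (q : ℕ) [NeZero q], 2 ≤ q →
      ∑ χ : DirichletCharacter ℂ q, ‖dens κ m χ u - dens₁ κ u‖ ^ 2 ≤
        q.totient * (ell κ P u + err q) := by
  have he : 0 < Real.exp u := Real.exp_pos u
  refine ⟨fun q => 2 * (2 * Real.exp (u / 2)) ^ 2 * X (Real.exp u) * X (q * Real.exp u), ?_, ?_⟩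
  · have hlim : Tendsto (fun q : ℕ => 2 / ((q : ℝ) * Real.exp u) ^ 2) atTop (𝓝 0) := by
      apply Tendsto.div_atTop tendsto_const_nhds
      exact (tendsto_pow_atTop (by norm_num)).comp
        (tendsto_natCast_atTop_atTop.atTop_mul_const he)
    have hX : Tendsto (fun q : ℕ => X (q * Real.exp u)) atTop (𝓝 0) := by
      refine squeeze_zero' (Eventually.of_forall fun q => X_nonneg _) ?_ hlim
      filter_upwards [eventually_gt_atTop 0] with q hq
      have : (0 : ℝ) < q := by exact_mod_cast hq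
      exact X_le' (by positivity)
    have := hX.const_mul (2 * (2 * Real.exp (u / 2)) ^ 2 * X (Real.exp u))
    simpa using this
  · intro q _ hq
    have h1 := ms (q := q) (aC κ m u) (2 * Real.exp (u / 2)) (Real.exp u) he (aC_zero κ m u)
      (aC_le hκ m u)
    have h2 : ∑ χ : DirichletCharacter ℂ q, ‖dens κ m χ u - dens₁ κ u‖ ^ 2 =
        ∑ χ : DirichletCharacter ℂ q, ‖∑' n : ℕ, χ n * aC κ m u n‖ ^ 2 := by
      apply Finset.sum_congr rfl
      intro χ _
      rw [dens_sub hq hκ m χ u]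
    rw [h2]
    refine h1.trans (mul_le_mul_of_nonneg_left ?_ (by positivity))
    refine add_le_add ?_ le_rfl
    unfold ell
    rw [← tsum_mul_left]
    have hs := (ell_summable_C hκ P u).mul_left (4 * Real.exp u)
    exact (Summable.of_nonneg_of_le (fun n => by positivity) (aC_normSq hP u) hs).tsum_le_tsum
      (aC_normSq hP u) hs

end Pool.Agent.GRH
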