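import Pool.Agent.Lib_helper24.GRH.GB
import Pool.Agent.Lib_helper24.GRH.XB

/-!
# Block ELL (MP_77948b_nt)
-/

namespace Pool.Agent.GRH

open Complex MeasureTheory Filter Topology

theorem ell_aux_summable {δ : ℝ} (hδ : 0 < δ) :
    Summable (fun n : ℕ => 1 / (1 + ((n : ℝ) * δ) ^ 2)) := by
  rw [← summable_nat_add_iff 1]
  simpa using X_summable hδ

theorem ell_aux_sq {κ : ℕ} (hκ : κ ≤ 1) {y : ℝ} (hy : 0 ≤ y) :
    (G κ y) ^ 2 ≤ 1 / (1 + y ^ 2) := by
  have h := G_le hκ hy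
  have h0 : 0 ≤ |G κ y| := abs_nonneg _
  have h1 : 1 / (1 + y ^ 2) ≤ 1 := by
    rw [div_le_one (by positivity)]
    nlinarith [sq_nonneg y]
  have h2 : (G κ y) ^ 2 = |G κ y| * |G κ y| := by
    rw [← abs_mul_abs_self, ← sq_abs]
    ring_nf
    rw [abs_abs]
  rw [h2]
  calc |G κ y| * |G κ y| ≤ (1 / (1 + y ^ 2)) * 1 :=
        mul_le_mul h (h.trans h1) h0 (by positivity)
    _ = _ := by ring

theorem ell_aux_term {κ : ℕ} (hκ : κ ≤ 1) (P : ℕ) (u : ℝ) (n : ℕ) :
    (if P < n then (G κ (n * Real.exp u)) ^ 2 else 0) ≤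
      1 / (1 + ((n : ℝ) * Real.exp u) ^ 2) := by
  split_ifs with h
  · exact ell_aux_sq hκ (by positivity)
  · positivity

theorem ell_aux_term_nonneg {κ : ℕ} (P : ℕ) (u : ℝ) (n : ℕ) :
    0 ≤ (if P < n then (G κ (n * Real.exp u)) ^ 2 else 0) := by
  split_ifs with h
  · positivity
  · exact le_rfl

theorem ell_aux_summable' {κ : ℕ} (hκ : κ ≤ 1) (P : ℕ) (u : ℝ) :
    Summable (fun n : ℕ => if P < n then (G κ (n * Real.exp u)) ^ 2 else 0) :=
  Summable.of_nonneg_of_le (ell_aux_term_nonneg P u) (ell_aux_term hκ P u)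
    (ell_aux_summable (Real.exp_pos u))

theorem ell_nonneg (κ P : ℕ) (u : ℝ) : 0 ≤ ell κ P u := by
  unfold ell
  have h : 0 ≤ ∑' n : ℕ, (if P < n then (G κ (n * Real.exp u)) ^ 2 else 0) :=
    tsum_nonneg (ell_aux_term_nonneg (κ := κ) P u)
  exact mul_nonneg (by positivity) h

theorem ell_aux_tsum_le (f : ℕ → ℝ) (hs : Summable f) (h0 : f 0 = 0) {δ : ℝ} (hδ : 0 < δ)
    (hle : ∀ n : ℕ, f n ≤ 1 / (1 + ((n : ℝ) * δ) ^ 2)) : ∑' n : ℕ, f n ≤ X δ := by
  rw [hs.tsum_eq_zero_add, h0, zero_add, X]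
  refine Summable.tsum_le_tsum ?_ ((summable_nat_add_iff 1).2 hs) (X_summable hδ)
  intro n
  have h5 := hle (n + 1)
  have h6 : ((n + 1 : ℕ) : ℝ) = (n : ℝ) + 1 := by push_cast; ring
  refine h5.trans (le_of_eq ?_)
  rw [h6]

theorem ell_le {κ : ℕ} (hκ : κ ≤ 1) (P : ℕ) (u : ℝ) : ell κ P u ≤ 2 * Real.pi := by
  unfold ell
  have hs := ell_aux_summable' hκ P u
  have h1 : ∑' n : ℕ, (if P < n then (G κ (n * Real.exp u)) ^ 2 else 0) ≤ X (Real.exp u) := by
    exact ell_aux_tsum_le _ hs (if_neg (Nat.not_lt_zero P)) (Real.exp_pos u)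
      (ell_aux_term hκ P u)
  have h2 := X_le (Real.exp_pos u)
  have h3 : (0 : ℝ) < Real.exp u := Real.exp_pos u
  calc 4 * Real.exp u * ∑' n : ℕ, (if P < n then (G κ (n * Real.exp u)) ^ 2 else 0)
      ≤ 4 * Real.exp u * (Real.pi / (2 * Real.exp u)) := by
        apply mul_le_mul_of_nonneg_left (h1.trans h2) (by positivity)
    _ = 2 * Real.pi := by
        field_simp
        ring

theorem ell_tendsto {κ : ℕ} (hκ : κ ≤ 1) (u : ℝ) :
    Tendsto (fun P : ℕ => ell κ P u) atTop (𝓝 0) := by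
  unfold ell
  have h : Tendsto (fun P : ℕ => ∑' n : ℕ, (if P < n then (G κ (n * Real.exp u)) ^ 2 else 0))
      atTop (𝓝 (∑' n : ℕ, (0 : ℝ))) := by
    refine tendsto_tsum_of_dominated_convergence (ell_aux_summable (Real.exp_pos u)) ?_ ?_
    · intro n
      apply tendsto_const_nhds.congr'
      filter_upwards [eventually_ge_atTop n] with P hP
      rw [if_neg (not_lt.2 hP)]
    · refine Eventually.of_forall fun P n => ?_
      rw [Real.norm_eq_abs, abs_of_nonneg (ell_aux_term_nonneg P u n)]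
      exact ell_aux_term hκ P u n
  simpa using h.const_mul (4 * Real.exp u)

theorem ell_aux_measG (κ n : ℕ) : Measurable (fun u : ℝ => G κ (n * Real.exp u)) := by
  unfold G
  fun_prop

theorem ell_measurable {κ : ℕ} (hκ : κ ≤ 1) (P : ℕ) : Measurable (ell κ P) := by
  unfold ell
  refine Measurable.mul (by fun_prop) ?_
  refine measurable_of_tendsto_metrizable
    (f := fun (N : ℕ) (u : ℝ) => ∑ n ∈ Finset.range N,
      (if P < n then (G κ (n * Real.exp u)) ^ 2 else 0)) ?_ ?_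
  · intro N
    refine Finset.measurable_sum _ fun n _ => ?_
    split_ifs with h
    · exact (ell_aux_measG κ n).pow_const 2
    · exact measurable_const
  · rw [tendsto_pi_nhds]
    intro u
    exact (ell_aux_summable' hκ P u).hasSum.tendsto_sum_nat

theorem dens_measurable {q κ : ℕ} (hκ : κ ≤ 1) (m : ℕ) (χ : DirichletCharacter ℂ q) :
    Measurable (dens κ m χ) := by
  unfold dens T
  refine Measurable.mul (by fun_prop) ?_
  refine measurable_of_tendsto_metrizable
    (f := fun (N : ℕ) (u : ℝ) => ∑ n ∈ Finset.range N,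
      χ n * (if n.Coprime m then (G κ (n * Real.exp u) : ℂ) else 0)) ?_ ?_
  · intro N
    refine Finset.measurable_sum _ fun n _ => ?_
    refine Measurable.const_mul ?_ _
    split_ifs with h
    · exact Complex.measurable_ofReal.comp (ell_aux_measG κ n)
    · exact measurable_const
  · rw [tendsto_pi_nhds]
    intro u
    have hs : Summable (fun n : ℕ =>
        χ n * (if n.Coprime m then (G κ (n * Real.exp u) : ℂ) else 0)) := by
      refine Summable.of_norm_bounded (ell_aux_summable (Real.exp_pos u)) ?_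
      intro n
      rw [norm_mul]
      have h1 : ‖χ n‖ ≤ 1 := χ.norm_le_one _
      have h2 : ‖(if n.Coprime m then (G κ (n * Real.exp u) : ℂ) else 0)‖ ≤
          1 / (1 + ((n : ℝ) * Real.exp u) ^ 2) := by
        split_ifs
        · rw [Complex.norm_real, Real.norm_eq_abs]
          exact G_le hκ (by positivity)
        · rw [norm_zero]
          positivity
      calc ‖χ n‖ * ‖(if n.Coprime m then (G κ (n * Real.exp u) : ℂ) else 0)‖
          ≤ 1 * (1 / (1 + ((n : ℝ) * Real.exp u) ^ 2)) :=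
            mul_le_mul h1 h2 (norm_nonneg _) zero_le_one
        _ = _ := one_mul _
    exact hs.hasSum.tendsto_sum_nat

theorem dens₁_measurable (κ : ℕ) : Measurable (dens₁ κ) := by
  unfold dens₁ G
  fun_prop

theorem dens₁_bdd {κ : ℕ} (hκ : κ ≤ 1) : ∃ C : ℝ, ∀ u : ℝ, ‖dens₁ κ u‖ ≤ C := by
  refine ⟨2, fun u => ?_⟩
  unfold dens₁
  have h1 : ‖(G κ (Real.exp u) : ℂ)‖ ≤ 1 / (1 + (Real.exp u) ^ 2) := by
    rw [Complex.norm_real, Real.norm_eq_abs]
    exact G_le hκ (Real.exp_pos u).le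
  have hx : 0 < Real.exp (u / 2) := Real.exp_pos _
  have hexp : Real.exp u = Real.exp (u / 2) ^ 2 := by
    rw [← Real.exp_nat_mul]
    congr 1
    push_cast
    ring
  rw [norm_mul, norm_mul, Complex.norm_real, Real.norm_eq_abs, abs_of_pos hx, Complex.norm_ofNat]
  rw [hexp] at h1 ⊢
  set x := Real.exp (u / 2) with hxdef
  have h2 : x ≤ 1 + (x ^ 2) ^ 2 := by
    by_cases hx1 : x ≤ 1
    · nlinarith [sq_nonneg (x ^ 2)]
    · push Not at hx1
      nlinarith [sq_nonneg (x ^ 2), sq_nonneg (x - 1), sq_nonneg (x ^ 2 - 1)]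
  calc 2 * x * ‖(G κ (x ^ 2) : ℂ)‖ ≤ 2 * x * (1 / (1 + (x ^ 2) ^ 2)) :=
        mul_le_mul_of_nonneg_left h1 (by positivity)
    _ = 2 * (x / (1 + (x ^ 2) ^ 2)) := by ring
    _ ≤ 2 * 1 := by
        apply mul_le_mul_of_nonneg_left _ (by norm_num)
        rw [div_le_one (by positivity)]
        exact h2
    _ = 2 := by norm_num

end Pool.Agent.GRH
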