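import Pool.Agent.Lib_helper24.GRH.Defs

/-!
# Block FLIP (MP_77948b_nt)
-/

namespace Pool.Agent.GRH

open Complex MeasureTheory Filter Topology

theorem flip (w : ℝ → ℝ) (hw : Continuous w) (hc : HasCompactSupport w) (f : ℝ → ℂ)
    (hf : Integrable f) :
    ∫ t : ℝ, (w t : ℂ) * (∫ u : ℝ, f u * cexp (t * u * I)) = ∫ u : ℝ, f u * hatw w u := by
  have hwi : Integrable (fun t => (w t : ℂ)) :=
    (hw.integrable_of_hasCompactSupport hc).ofReal
  have hprod : Integrable (fun z : ℝ × ℝ => (w z.1 : ℂ) * f z.2) (volume.prod volume) :=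
    hwi.mul_prod hf
  have hcont : Continuous (fun z : ℝ × ℝ => cexp ((z.1 : ℂ) * (z.2 : ℂ) * I)) := by
    fun_prop
  have hint : Integrable (Function.uncurry fun (t u : ℝ) => (w t : ℂ) * (f u * cexp (t * u * I)))
      (volume.prod volume) := by
    refine hprod.mono ?_ ?_
    · have h1 := hprod.1.mul hcont.aestronglyMeasurable
      refine h1.congr (ae_of_all _ ?_)
      intro z
      simp only [Pi.mul_apply, Function.uncurry]
      ring
    · refine ae_of_all _ ?_
      intro z
      have h2 : ‖cexp ((z.1 : ℂ) * (z.2 : ℂ) * I)‖ = 1 := by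
        rw [← ofReal_mul]
        exact norm_exp_ofReal_mul_I _
      simp only [Function.uncurry, norm_mul, h2, mul_one]
      exact le_rfl
  calc ∫ t : ℝ, (w t : ℂ) * (∫ u : ℝ, f u * cexp (t * u * I))
      = ∫ t : ℝ, ∫ u : ℝ, (w t : ℂ) * (f u * cexp (t * u * I)) := by
        congr 1
        ext t
        rw [integral_const_mul]
    _ = ∫ u : ℝ, ∫ t : ℝ, (w t : ℂ) * (f u * cexp (t * u * I)) :=
        integral_integral_swap hint
    _ = ∫ u : ℝ, f u * hatw w u := by
        congr 1
        ext u
        rw [hatw, ← integral_const_mul]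
        congr 1
        ext t
        ring

end Pool.Agent.GRH
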