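import Pool.Agent.Lib_helper24.GRH.Defs

/-!
# MP_77948b_nt, block GAM (helper60)

Substitution t = c e^{2u} in Mellin integrals; the Gamma factor as a Fourier integral.
-/

namespace Pool.Agent.GRH

open Complex MeasureTheory Filter Topology Set

namespace RepAux

lemma sub_deriv (c : ℝ) :
    ∀ x ∈ (univ : Set ℝ), HasDerivWithinAt (fun u : ℝ => c * Real.exp (2 * u))
      (2 * c * Real.exp (2 * x)) univ x := by
  intro x _
  have h1 : HasDerivAt (fun u : ℝ => 2 * u) 2 x := by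
    simpa using (hasDerivAt_id x).const_mul (2 : ℝ)
  have h2 : HasDerivAt (fun u : ℝ => Real.exp (2 * u)) (Real.exp (2 * x) * 2) x := h1.exp
  have h3 := (h2.const_mul c).hasDerivWithinAt (s := univ)
  exact h3.congr_deriv (by ring)

lemma sub_image {c : ℝ} (hc : 0 < c) :
    (fun u : ℝ => c * Real.exp (2 * u)) '' univ = Ioi 0 := by
  ext y
  simp only [image_univ, mem_range, mem_Ioi]
  constructor
  · rintro ⟨u, rfl⟩
    positivity
  · intro hy
    refine ⟨Real.log (y / c) / 2, ?_⟩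
    rw [mul_div_cancel₀ _ (two_ne_zero), Real.exp_log (by positivity)]
    field_simp

lemma sub_inj {c : ℝ} (hc : 0 < c) :
    InjOn (fun u : ℝ => c * Real.exp (2 * u)) univ := by
  intro x _ y _ h
  have h1 : Real.exp (2 * x) = Real.exp (2 * y) := by
    have := mul_left_cancel₀ hc.ne' h
    exact this
  have := Real.exp_injective h1
  linarith

lemma sub_integrand {c : ℝ} (hc : 0 < c) (z : ℂ) (u : ℝ) (w : ℂ) :
    |2 * c * Real.exp (2 * u)| • (((c * Real.exp (2 * u) : ℝ) : ℂ) ^ (z - 1) • w) =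
      2 * (c : ℂ) ^ z * cexp (2 * z * u) * w := by
  have hpos : 0 < c * Real.exp (2 * u) := by positivity
  have hne : ((c * Real.exp (2 * u) : ℝ) : ℂ) ≠ 0 := by exact_mod_cast hpos.ne'
  rw [abs_of_pos (by positivity), Complex.cpow_sub _ _ hne, Complex.cpow_one]
  have h1 : ((c * Real.exp (2 * u) : ℝ) : ℂ) ^ z = (c : ℂ) ^ z * cexp (2 * z * u) := by
    rw [Complex.ofReal_mul, Complex.mul_cpow_ofReal_nonneg hc.le (Real.exp_pos _).le]
    congr 1
    rw [Complex.ofReal_exp, ← Complex.exp_log (Complex.exp_ne_zero (((2 * u : ℝ) : ℂ)))]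
    rw [Complex.cpow_def_of_ne_zero (Complex.exp_ne_zero _), Complex.exp_log (Complex.exp_ne_zero _)]
    rw [← Complex.ofReal_exp, ← Complex.ofReal_log (Real.exp_pos _).le, Real.log_exp]
    congr 1
    push_cast
    ring
  rw [h1, Complex.real_smul, smul_eq_mul]
  have hc' : (c : ℂ) ≠ 0 := by exact_mod_cast hc.ne'
  push_cast at hne ⊢
  field_simp

lemma mellin_sub_conv {c : ℝ} (hc : 0 < c) (z : ℂ) (F : ℝ → ℂ) (h : MellinConvergent F z) :
    Integrable (fun u : ℝ => 2 * (c : ℂ) ^ z * cexp (2 * z * u) * F (c * Real.exp (2 * u))) := by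
  rw [MellinConvergent, ← sub_image hc, integrableOn_image_iff_integrableOn_abs_deriv_smul
    MeasurableSet.univ (sub_deriv c) (sub_inj hc), integrableOn_univ] at h
  simpa only [sub_integrand hc] using h

lemma mellin_sub_eq {c : ℝ} (hc : 0 < c) (z : ℂ) (F : ℝ → ℂ) :
    mellin F z =
      ∫ u : ℝ, 2 * (c : ℂ) ^ z * cexp (2 * z * u) * F (c * Real.exp (2 * u)) := by
  rw [mellin, ← sub_image hc, integral_image_eq_integral_abs_deriv_smul
    MeasurableSet.univ (sub_deriv c) (sub_inj hc), setIntegral_univ]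
  simp only [sub_integrand hc]

end RepAux

open RepAux

theorem gam (κ : ℕ) : Integrable (dens₁ κ) ∧ ∀ t : ℝ,
    Gammaℝ (1 / 2 + κ + t * I) = ∫ u : ℝ, dens₁ κ u * cexp (t * u * I) := by
  have key : ∀ t : ℝ, ∀ u : ℝ, 2 * ((Real.pi : ℝ) : ℂ) ^ ((1 / 2 + κ + t * I) / 2 : ℂ) *
      cexp (2 * ((1 / 2 + κ + t * I) / 2 : ℂ) * u) *
        (((Real.exp (-(Real.pi * Real.exp (2 * u))) : ℝ)) : ℂ) =
      ((Real.pi : ℝ) : ℂ) ^ ((1 / 2 + κ + t * I) / 2 : ℂ) *
        (dens₁ κ u * cexp (t * u * I)) := by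
    intro t u
    rw [dens₁, G]
    have e1 : cexp (2 * ((1 / 2 + κ + t * I) / 2 : ℂ) * u) =
        cexp (((u / 2 : ℝ)) : ℂ) * cexp (((u : ℝ)) : ℂ) ^ κ * cexp (t * u * I) := by
      rw [← Complex.exp_nat_mul, ← Complex.exp_add, ← Complex.exp_add]
      congr 1
      push_cast
      ring
    have e2 : Real.exp (-Real.pi * Real.exp u ^ 2) = Real.exp (-(Real.pi * Real.exp (2 * u))) := by
      congr 1
      rw [← Real.exp_nat_mul]
      push_cast
      ring
    rw [e1, e2]
    push_cast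
    ring
  have hre : ∀ t : ℝ, 0 < ((1 / 2 + κ + t * I) / 2 : ℂ).re := by
    intro t
    have : ((1 / 2 + κ + t * I) / 2 : ℂ).re = (1 / 2 + κ) / 2 := by
      simp
    rw [this]
    positivity
  have hconv : ∀ t : ℝ, MellinConvergent (fun x : ℝ => ((Real.exp (-x) : ℝ) : ℂ))
      ((1 / 2 + κ + t * I) / 2 : ℂ) := by
    intro t
    have := Complex.GammaIntegral_convergent (hre t)
    rw [MellinConvergent]
    refine this.congr_fun ?_ measurableSet_Ioi
    intro x _
    simp only [smul_eq_mul]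
    rw [mul_comm]
  have hne : ∀ t : ℝ, ((Real.pi : ℝ) : ℂ) ^ ((1 / 2 + κ + t * I) / 2 : ℂ) ≠ 0 := by
    intro t
    rw [Ne, Complex.cpow_eq_zero_iff]
    rintro ⟨h, -⟩
    exact Real.pi_ne_zero (by exact_mod_cast h)
  constructor
  · have h1 := mellin_sub_conv Real.pi_pos _ _ (hconv 0)
    simp only [key 0] at h1
    have h2 := h1.const_mul ((((Real.pi : ℝ) : ℂ) ^ ((1 / 2 + κ + (0 : ℝ) * I) / 2 : ℂ))⁻¹)
    refine h2.congr (Filter.Eventually.of_forall fun u => ?_)
    simp only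
    rw [inv_mul_cancel_left₀ (hne 0)]
    simp
  · intro t
    have h1 := mellin_sub_eq Real.pi_pos ((1 / 2 + κ + t * I) / 2 : ℂ)
      (fun x : ℝ => ((Real.exp (-x) : ℝ) : ℂ))
    simp only [key t] at h1
    rw [integral_const_mul] at h1
    have h2 : mellin (fun x : ℝ => ((Real.exp (-x) : ℝ) : ℂ)) ((1 / 2 + κ + t * I) / 2 : ℂ) =
        Complex.Gamma ((1 / 2 + κ + t * I) / 2 : ℂ) := by
      rw [Complex.Gamma_eq_integral (hre t), Complex.GammaIntegral, mellin]
      refine setIntegral_congr_fun measurableSet_Ioi fun x _ => ?_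
      simp only [smul_eq_mul]
      rw [mul_comm]
    rw [h2] at h1
    rw [Gammaℝ_def, h1, ← mul_assoc, ← Complex.cpow_add _ _ (by exact_mod_cast Real.pi_ne_zero)]
    have : (-(1 / 2 + κ + t * I) / 2 + (1 / 2 + κ + t * I) / 2 : ℂ) = 0 := by ring
    rw [this, Complex.cpow_zero, one_mul]

end Pool.Agent.GRH
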