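import Pool.Agent.Lib_helper24.GRH.REP

/-! Block PHASE: the functional equation gives a constant phase. -/

namespace Pool.Agent.GRH

open Complex MeasureTheory Filter Topology

theorem ph_T_inv {q : ℕ} (κ m : ℕ) (χ : DirichletCharacter ℂ q) [NeZero q] (δ : ℝ) :
    T κ m χ⁻¹ δ = starRingEnd ℂ (T κ m χ δ) := by
  unfold T
  rw [Complex.conj_tsum]
  refine tsum_congr fun n => ?_
  rw [map_mul]
  congr 1
  · exact (MulChar.star_apply' χ (n : ZMod q)).symm
  · split_ifs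
    · exact (Complex.conj_ofReal _).symm
    · simp

theorem ph_dens_inv {q : ℕ} (κ m : ℕ) (χ : DirichletCharacter ℂ q) [NeZero q] (u : ℝ) :
    dens κ m χ⁻¹ u = starRingEnd ℂ (dens κ m χ u) := by
  unfold dens
  rw [ph_T_inv, map_mul, map_mul, Complex.conj_ofReal, map_ofNat]

theorem ph_conj {q : ℕ} [NeZero q] (χ : DirichletCharacter ℂ q) (hχ : χ ≠ 1) (κ : ℕ)
    (hκ : (κ = 0 ∧ χ.Even) ∨ (κ = 1 ∧ χ.Odd)) (t : ℝ) :
    starRingEnd ℂ (DirichletCharacter.completedLFunction χ (1 / 2 + t * I)) =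
      DirichletCharacter.completedLFunction χ⁻¹ (1 / 2 - t * I) := by
  have hinv : χ⁻¹ ≠ 1 := by
    intro h
    exact hχ (inv_eq_one.1 h)
  have hκ' : (κ = 0 ∧ χ⁻¹.Even) ∨ (κ = 1 ∧ χ⁻¹.Odd) := by
    rcases hκ with ⟨h1, h2⟩ | ⟨h1, h2⟩
    · left
      refine ⟨h1, ?_⟩
      unfold DirichletCharacter.Even at *
      rw [← MulChar.star_apply', h2]; simp
    · right
      refine ⟨h1, ?_⟩
      unfold DirichletCharacter.Odd at *
      rw [← MulChar.star_apply', h2]; simp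
  have h1 := (rep χ hχ κ hκ).2 t
  have h2 := (rep χ⁻¹ hinv κ hκ').2 (-t)
  rw [h1, ← integral_conj]
  have h3 : (1 / 2 - t * I : ℂ) = 1 / 2 + ((-t : ℝ) : ℂ) * I := by push_cast; ring
  rw [h3, h2]
  refine integral_congr_ae (Eventually.of_forall fun u => ?_)
  simp only
  rw [ph_dens_inv, map_mul, ← Complex.exp_conj]
  congr 2
  simp

theorem phase {q : ℕ} [NeZero q] (hq : 2 ≤ q) (χ : DirichletCharacter ℂ q)
    (hχ : χ.IsPrimitive) (a b : ℝ)
    (h : ∀ t ∈ Set.Ioo a b, DirichletCharacter.completedLFunction χ (1 / 2 + t * I) ≠ 0) :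
    ∃ θ : ℂ, ‖θ‖ = 1 ∧ ∀ t ∈ Set.Ioo a b,
      (q : ℂ) ^ ((t : ℂ) * I / 2) * DirichletCharacter.completedLFunction χ (1 / 2 + t * I) =
        θ * ‖DirichletCharacter.completedLFunction χ (1 / 2 + t * I)‖ := by
  rcases le_or_gt b a with hab | hab
  · refine ⟨1, by simp, fun t ht => ?_⟩
    exact absurd (lt_trans ht.1 ht.2) (not_lt.2 hab)
  have hχ1 : χ ≠ 1 := by
    intro h1
    have h2 : χ.conductor = q := hχ
    rw [h1, DirichletCharacter.conductor_one] at h2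
    · omega
  obtain ⟨κ, hκ⟩ : ∃ κ : ℕ, (κ = 0 ∧ χ.Even) ∨ (κ = 1 ∧ χ.Odd) := by
    rcases χ.even_or_odd with he | ho
    · exact ⟨0, Or.inl ⟨rfl, he⟩⟩
    · exact ⟨1, Or.inr ⟨rfl, ho⟩⟩
  have hq0 : (q : ℂ) ≠ 0 := by exact_mod_cast NeZero.ne q
  have hqpos : (0 : ℝ) < q := by exact_mod_cast Nat.pos_of_ne_zero (NeZero.ne q)
  set Λ : ℝ → ℂ := fun t => DirichletCharacter.completedLFunction χ (1 / 2 + t * I) with hΛ
  set y : ℝ → ℂ := fun t => (q : ℂ) ^ ((t : ℂ) * I / 2) * Λ t with hy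
  set W : ℂ := DirichletCharacter.rootNumber χ with hW
  have hnorm : ∀ t : ℝ, ‖(q : ℂ) ^ ((t : ℂ) * I / 2)‖ = 1 := by
    intro t
    have h1 : (q : ℂ) = ((q : ℝ) : ℂ) := by simp
    rw [h1, Complex.norm_cpow_eq_rpow_re_of_pos hqpos]
    simp
  have hcpow : ∀ t : ℝ, starRingEnd ℂ ((q : ℂ) ^ ((t : ℂ) * I / 2)) =
      (q : ℂ) ^ (-((t : ℂ) * I / 2)) := by
    intro t
    have h2 := hnorm t
    rw [Complex.cpow_neg]
    rw [Complex.inv_def]
    rw [Complex.normSq_eq_norm_sq, h2]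
    simp
  have hfe : ∀ t : ℝ, y t = W * starRingEnd ℂ (y t) := by
    intro t
    have h1 := hχ.completedLFunction_one_sub (1 / 2 - t * I)
    have h2 : (1 - (1 / 2 - t * I) : ℂ) = 1 / 2 + t * I := by ring
    rw [h2, ← ph_conj χ hχ1 κ hκ] at h1
    simp only [hy, map_mul, hcpow]
    have h3 : Λ t = (q : ℂ) ^ ((1 / 2 - t * I : ℂ) - 1 / 2) * W * starRingEnd ℂ (Λ t) := h1
    have h4 : (q : ℂ) ^ ((t : ℂ) * I / 2) * (q : ℂ) ^ ((1 / 2 - t * I : ℂ) - 1 / 2) =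
        (q : ℂ) ^ (-((t : ℂ) * I / 2)) := by
      rw [← Complex.cpow_add _ _ hq0]
      congr 1
      ring
    calc (q : ℂ) ^ ((t : ℂ) * I / 2) * Λ t
        = (q : ℂ) ^ ((t : ℂ) * I / 2) *
          ((q : ℂ) ^ ((1 / 2 - t * I : ℂ) - 1 / 2) * W * starRingEnd ℂ (Λ t)) := by
          rw [← h3]
      _ = ((q : ℂ) ^ ((t : ℂ) * I / 2) * (q : ℂ) ^ ((1 / 2 - t * I : ℂ) - 1 / 2)) * W *
          starRingEnd ℂ (Λ t) := by ring
      _ = W * ((q : ℂ) ^ (-((t : ℂ) * I / 2)) * starRingEnd ℂ (Λ t)) := by rw [h4]; ring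
  have hyne : ∀ t ∈ Set.Ioo a b, y t ≠ 0 := by
    intro t ht
    have h1 : (q : ℂ) ^ ((t : ℂ) * I / 2) ≠ 0 := by
      intro h0
      have := hnorm t
      rw [h0] at this
      simp at this
    exact mul_ne_zero h1 (h t ht)
  have hynorm : ∀ t, ‖y t‖ = ‖Λ t‖ := by
    intro t
    simp only [hy, norm_mul, hnorm, one_mul]
  have hycont : Continuous y := by
    have hd := DirichletCharacter.differentiable_completedLFunction hχ1
    have h1 : Continuous Λ := by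
      refine hd.continuous.comp ?_
      fun_prop
    have h2 : Continuous (fun t : ℝ => (q : ℂ) ^ ((t : ℂ) * I / 2)) := by
      refine Continuous.const_cpow ?_ (Or.inl hq0)
      fun_prop
    exact h2.mul h1
  set t₀ : ℝ := (a + b) / 2 with ht₀
  have ht₀m : t₀ ∈ Set.Ioo a b := ⟨by simp only [ht₀]; linarith, by simp only [ht₀]; linarith⟩
  have hy0 := hyne t₀ ht₀m
  have hy0n : ‖y t₀‖ ≠ 0 := norm_ne_zero_iff.2 hy0
  -- the real function
  set r : ℝ → ℂ := fun t => y t * starRingEnd ℂ (y t₀) with hr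
  have hrreal : ∀ t, starRingEnd ℂ (r t) = r t := by
    intro t
    simp only [hr, map_mul, Complex.conj_conj]
    have h1 := hfe t
    have h2 := hfe t₀
    calc starRingEnd ℂ (y t) * y t₀
        = starRingEnd ℂ (y t) * (W * starRingEnd ℂ (y t₀)) := by rw [← h2]
      _ = (W * starRingEnd ℂ (y t)) * starRingEnd ℂ (y t₀) := by ring
      _ = y t * starRingEnd ℂ (y t₀) := by rw [← h1]
  have hre : ∀ t, ((r t).re : ℂ) = r t := fun t => Complex.conj_eq_iff_re.1 (hrreal t)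
  have hrcont : Continuous (fun t => (r t).re) :=
    Complex.continuous_re.comp (hycont.mul continuous_const)
  have hrne : ∀ t ∈ Set.Ioo a b, (r t).re ≠ 0 := by
    intro t ht h0
    have h1 := hre t
    rw [h0] at h1
    have h2 : r t ≠ 0 := mul_ne_zero (hyne t ht) ((map_ne_zero _).2 hy0)
    exact h2 (by rw [← h1]; simp)
  have hr0 : 0 < (r t₀).re := by
    have h1 : r t₀ = ((‖y t₀‖ ^ 2 : ℝ) : ℂ) := by
      simp only [hr]
      rw [Complex.mul_conj, Complex.normSq_eq_norm_sq]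
    rw [h1, Complex.ofReal_re]
    positivity
  have hrpos : ∀ t ∈ Set.Ioo a b, 0 < (r t).re := by
    intro t ht
    by_contra hcon
    push Not at hcon
    have hconv : IsPreconnected (Set.Ioo a b) := isPreconnected_Ioo
    have himg := hconv.image (fun t => (r t).re) hrcont.continuousOn
    have h1 : (r t).re ∈ (fun t => (r t).re) '' Set.Ioo a b := ⟨t, ht, rfl⟩
    have h2 : (r t₀).re ∈ (fun t => (r t).re) '' Set.Ioo a b := ⟨t₀, ht₀m, rfl⟩
    have h3 := himg.Icc_subset h1 h2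
    obtain ⟨s, hs, hs0⟩ := h3 ⟨hcon, hr0.le⟩
    exact hrne s hs hs0
  refine ⟨y t₀ / ‖y t₀‖, ?_, fun t ht => ?_⟩
  · rw [norm_div, Complex.norm_real, norm_norm, div_self hy0n]
  · have h1 : r t = ((‖y t‖ * ‖y t₀‖ : ℝ) : ℂ) := by
      have h2 : ‖r t‖ = ‖y t‖ * ‖y t₀‖ := by
        simp only [hr, norm_mul, RCLike.norm_conj]
      rw [← hre t, ← h2]
      congr 1
      rw [← hre t, Complex.norm_real, Real.norm_eq_abs, abs_of_pos]
      · simp
      · exact hrpos t ht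
    have h3 : y t * (starRingEnd ℂ (y t₀) * y t₀) = ((‖y t‖ * ‖y t₀‖ : ℝ) : ℂ) * y t₀ := by
      rw [← h1]; simp only [hr]; ring
    have h4 : starRingEnd ℂ (y t₀) * y t₀ = ((‖y t₀‖ ^ 2 : ℝ) : ℂ) := by
      rw [mul_comm, Complex.mul_conj, Complex.normSq_eq_norm_sq]
    rw [h4] at h3
    have h5 : ((‖y t₀‖ : ℝ) : ℂ) ≠ 0 := by exact_mod_cast hy0n
    change y t = y t₀ / ‖y t₀‖ * ‖Λ t‖
    rw [← hynorm t]
    field_simp
    push_cast at h3
    have h6 : (y t * (‖y t₀‖ : ℂ) - y t₀ * ‖y t‖) * (‖y t₀‖ : ℂ) = 0 := by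
      linear_combination h3
    rcases mul_eq_zero.1 h6 with h7 | h7
    · linear_combination h7
    · exact absurd h7 h5

end Pool.Agent.GRH
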