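import Pool.Agent.Lib_helper24.GRH.REP

/-!
# Block REPM (MP_77948b_nt)
-/

namespace Pool.Agent.GRH

open Complex MeasureTheory Filter Topology DirichletCharacter

theorem repm_aux_apply {q : ℕ} [NeZero q] (χ : DirichletCharacter ℂ q) {m : ℕ} (n : ℕ) :
    changeLevel (Nat.dvd_mul_right q m) χ (n : ZMod (q * m)) =
      if n.Coprime m then χ n else 0 := by
  by_cases hm : n.Coprime m
  · rw [if_pos hm]
    by_cases hq : n.Coprime q
    · have hc : IsCoprime (n : ℤ) ((q * m : ℕ) : ℤ) := by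
        rw [Nat.isCoprime_iff_coprime]
        exact Nat.Coprime.mul_right hq hm
      have h := changeLevel_eq_cast_of_dvd' χ (Nat.dvd_mul_right q m) hc
      simpa using h
    · have h1 : ¬ IsUnit ((n : ℕ) : ZMod q) := by
        rwa [ZMod.isUnit_iff_coprime]
      have h2 : ¬ IsUnit ((n : ℕ) : ZMod (q * m)) := by
        rw [ZMod.isUnit_iff_coprime]
        exact fun h => hq (Nat.Coprime.coprime_mul_right_right h)
      rw [MulChar.map_nonunit _ h1, MulChar.map_nonunit _ h2]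
  · rw [if_neg hm]
    have h2 : ¬ IsUnit ((n : ℕ) : ZMod (q * m)) := by
      rw [ZMod.isUnit_iff_coprime]
      exact fun h => hm (Nat.Coprime.coprime_mul_left_right h)
    rw [MulChar.map_nonunit _ h2]

theorem repm_aux_neg_one {q : ℕ} [NeZero q] (χ : DirichletCharacter ℂ q) {m : ℕ} :
    changeLevel (Nat.dvd_mul_right q m) χ (-1 : ZMod (q * m)) = χ (-1) := by
  have hc : IsCoprime (-1 : ℤ) ((q * m : ℕ) : ℤ) := by
    rw [IsCoprime.neg_left_iff]
    exact isCoprime_one_left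
  have h := changeLevel_eq_cast_of_dvd' χ (Nat.dvd_mul_right q m) hc
  simpa using h

theorem repm_aux_dens {q : ℕ} [NeZero q] (χ : DirichletCharacter ℂ q) {m : ℕ} (κ : ℕ) :
    dens κ 1 (changeLevel (Nat.dvd_mul_right q m) χ) = dens κ m χ := by
  ext u
  unfold dens T
  congr 1
  refine tsum_congr fun n => ?_
  rw [repm_aux_apply]
  by_cases hm : n.Coprime m
  · rw [if_pos hm, if_pos hm, if_pos (Nat.coprime_one_right n)]
  · rw [if_neg hm, if_neg hm, zero_mul, mul_zero]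

theorem repm_aux_prod {q : ℕ} [NeZero q] (χ : DirichletCharacter ℂ q) {m : ℕ} (hm : 0 < m)
    (s : ℂ) :
    ∏ p ∈ (q * m).primeFactors, (1 - χ p * (p : ℂ) ^ (-s)) =
      ∏ p ∈ m.primeFactors, (1 - χ p * (p : ℂ) ^ (-s)) := by
  rw [Nat.primeFactors_mul (NeZero.ne q) hm.ne']
  symm
  refine Finset.prod_subset Finset.subset_union_right ?_
  intro p hp hpm
  rw [Finset.mem_union] at hp
  have hpq : p ∈ q.primeFactors := hp.resolve_right hpm
  have hnot : ¬ IsUnit ((p : ℕ) : ZMod q) := by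
    rw [ZMod.isUnit_iff_coprime]
    intro h
    have hprime := Nat.prime_of_mem_primeFactors hpq
    exact (hprime.coprime_iff_not_dvd.1 h) (Nat.dvd_of_mem_primeFactors hpq)
  rw [MulChar.map_nonunit _ hnot]
  simp

theorem repm {q : ℕ} [NeZero q] (χ : DirichletCharacter ℂ q) (hχ : χ ≠ 1) (κ : ℕ)
    (hκ : (κ = 0 ∧ χ.Even) ∨ (κ = 1 ∧ χ.Odd)) {m : ℕ} (hm : 0 < m) :
    Integrable (dens κ m χ) ∧ ∀ t : ℝ,
      DirichletCharacter.completedLFunction χ (1 / 2 + t * I) *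
          ∏ p ∈ m.primeFactors, (1 - χ p * (p : ℂ) ^ (-(1 / 2 + t * I) : ℂ)) =
        ∫ u : ℝ, dens κ m χ u * cexp (t * u * I) := by
  have : NeZero m := ⟨hm.ne'⟩
  have : NeZero (q * m) := ⟨mul_ne_zero (NeZero.ne q) hm.ne'⟩
  set χ' := changeLevel (Nat.dvd_mul_right q m) χ with hχ'def
  have hχ' : χ' ≠ 1 := fun h => hχ ((changeLevel_eq_one_iff _).1 h)
  have hpar : (κ = 0 ∧ χ'.Even) ∨ (κ = 1 ∧ χ'.Odd) := by
    rcases hκ with ⟨h0, h1⟩ | ⟨h0, h1⟩
    · refine Or.inl ⟨h0, ?_⟩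
      rw [DirichletCharacter.Even, hχ'def, repm_aux_neg_one]
      exact h1
    · refine Or.inr ⟨h0, ?_⟩
      rw [DirichletCharacter.Odd, hχ'def, repm_aux_neg_one]
      exact h1
  have hγ : ∀ s : ℂ, gammaFactor χ' s = gammaFactor χ s := by
    intro s
    rcases hκ with ⟨h0, h1⟩ | ⟨h0, h1⟩
    · rcases hpar with ⟨h2, h3⟩ | ⟨h2, h3⟩
      · rw [h1.gammaFactor_def, h3.gammaFactor_def]
      · omega
    · rcases hpar with ⟨h2, h3⟩ | ⟨h2, h3⟩
      · omega
      · rw [h1.gammaFactor_def, h3.gammaFactor_def]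
  have hγ0 : ∀ t : ℝ, gammaFactor χ (1 / 2 + t * I) ≠ 0 := by
    intro t
    rcases hκ with ⟨h0, h1⟩ | ⟨h0, h1⟩
    · rw [h1.gammaFactor_def]
      apply Gammaℝ_ne_zero_of_re_pos
      simp
    · rw [h1.gammaFactor_def]
      apply Gammaℝ_ne_zero_of_re_pos
      simp
      norm_num
  have hs0 : ∀ t : ℝ, (1 / 2 + t * I : ℂ) ≠ 0 := by
    intro t h
    have := congrArg Complex.re h
    simp at this
  obtain ⟨hint, hrep⟩ := rep χ' hχ' κ hpar
  rw [repm_aux_dens] at hint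
  refine ⟨hint, fun t => ?_⟩
  have h1 := hrep t
  rw [repm_aux_dens] at h1
  rw [← h1]
  have h2 := LFunction_changeLevel (Nat.dvd_mul_right q m) χ (s := 1 / 2 + t * I) (Or.inl hχ)
  rw [repm_aux_prod χ hm, LFunction_eq_completed_div_gammaFactor _ _ (Or.inl (hs0 t)),
    LFunction_eq_completed_div_gammaFactor _ _ (Or.inl (hs0 t)), ← hχ'def, hγ,
    div_mul_eq_mul_div, div_left_inj' (hγ0 t)] at h2
  exact h2.symm

end Pool.Agent.GRH
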