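import Pool.Agent.Lib_helper24.GRH.Defs

/-! Block TOT: `φ(P!)/P! → 0`. -/

namespace Pool.Agent.GRH

open Complex MeasureTheory Filter Topology

theorem totient_factorial :
    Tendsto (fun P : ℕ => (P.factorial.totient : ℝ) / P.factorial) atTop (𝓝 0) := by
  have h1 := (not_summable_iff_tendsto_nat_atTop_of_nonneg
    (f := Set.indicator {p | p.Prime} (fun n : ℕ ↦ (1 : ℝ) / n))
    (fun n => Set.indicator_nonneg (fun p _ => by positivity) _)).1
    not_summable_one_div_on_primes
  have h2 : Tendsto (fun P : ℕ => Real.exp (-(∑ i ∈ Finset.range (P + 1),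
      Set.indicator {p | p.Prime} (fun n : ℕ ↦ (1 : ℝ) / n) i))) atTop (𝓝 0) := by
    refine Real.tendsto_exp_atBot.comp ?_
    refine tendsto_neg_atTop_atBot.comp ?_
    exact h1.comp (tendsto_add_atTop_nat 1)
  refine squeeze_zero (fun P => by positivity) (fun P => ?_) h2
  have hpos : (0 : ℝ) < P.factorial := by exact_mod_cast P.factorial_pos
  have h3 : (P.factorial.totient : ℝ) =
      P.factorial * ∏ p ∈ P.factorial.primeFactors, (1 - (p : ℝ)⁻¹) := by
    have := Nat.totient_eq_mul_prod_factors P.factorial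
    have h4 := congrArg (fun x : ℚ => (x : ℝ)) this
    push_cast at h4
    exact h4
  have hpf : P.factorial.primeFactors = (Finset.range (P + 1)).filter Nat.Prime := by
    ext p
    simp only [Nat.mem_primeFactors, Finset.mem_filter, Finset.mem_range]
    constructor
    · rintro ⟨hp, hd, _⟩
      exact ⟨Nat.lt_succ_of_le ((hp.dvd_factorial).1 hd), hp⟩
    · rintro ⟨hlt, hp⟩
      exact ⟨hp, (hp.dvd_factorial).2 (Nat.le_of_lt_succ hlt), P.factorial_ne_zero⟩
  rw [h3, mul_div_cancel_left₀ _ hpos.ne', hpf, ← Finset.sum_neg_distrib, Real.exp_sum]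
  rw [Finset.prod_filter]
  refine Finset.prod_le_prod ?_ ?_
  · intro p _
    split_ifs with hp
    · have : (1 : ℝ) ≤ p := by exact_mod_cast hp.one_lt.le
      have : (p : ℝ)⁻¹ ≤ 1 := inv_le_one_of_one_le₀ this
      linarith
    · norm_num
  · intro p _
    split_ifs with hp
    · rw [Set.indicator_of_mem (show p ∈ {p | Nat.Prime p} from hp)]
      have := Real.add_one_le_exp (-(1 / (p : ℝ)))
      rw [one_div] at this ⊢
      linarith
    · rw [Set.indicator_of_notMem (show p ∉ {p | Nat.Prime p} from hp)]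
      simp

end Pool.Agent.GRH
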