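import Pool.Agent.Lib_helper24.GRH.GB
import Pool.Agent.Lib_helper24.GRH.XB
import Pool.Agent.Lib_helper24.GRH.MS
import Pool.Agent.Lib_helper24.GRH.APPROX1
import Pool.Agent.Lib_helper24.GRH.GAM
import Pool.Agent.Lib_helper24.GRH.FLIP
import Pool.Agent.Lib_helper24.GRH.TOT
import Pool.Agent.Lib_helper24.GRH.BUMP
import Pool.Agent.Lib_helper24.GRH.ROUGH
import Pool.Agent.Lib_helper24.GRH.BC
import Pool.Agent.Lib_helper24.GRH.BB
import Pool.Agent.Lib_helper24.GRH.BA
import Pool.Agent.Lib_helper24.GRH.REP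
import Pool.Agent.Lib_helper24.GRH.REPM
import Pool.Agent.Lib_helper24.GRH.PHASE
import Pool.Agent.Lib_helper24.GRH.APPROX
import Pool.Agent.Lib_helper24.GRH.ELL
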