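import Mathlib

/-!
# Critical zeros of almost all Dirichlet L-functions: definitions (MP_77948b_nt)
-/

namespace Pool.Agent.GRH

open Complex MeasureTheory Filter Topology

/-- `G κ y = y^κ exp(-π y²)` (`κ = 0` for even, `κ = 1` for odd characters). -/
noncomputable def G (κ : ℕ) (y : ℝ) : ℝ := y ^ κ * Real.exp (-Real.pi * y ^ 2)

/-- `X δ = ∑_{n ≥ 1} 1/(1+(nδ)²)`. -/
noncomputable def X (δ : ℝ) : ℝ := ∑' n : ℕ, 1 / (1 + (((n : ℝ) + 1) * δ) ^ 2)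

/-- `T κ m χ δ = ∑_{n coprime to m} χ(n) G κ (n δ)`. -/
noncomputable def T {q : ℕ} (κ m : ℕ) (χ : DirichletCharacter ℂ q) (δ : ℝ) : ℂ :=
  ∑' n : ℕ, χ n * (if n.Coprime m then (G κ (n * δ) : ℂ) else 0)

/-- The Fourier density of `Λ(1/2+it, χ) ∏_{p ∣ m} (1 - χ(p) p^{-1/2-it})`. -/
noncomputable def dens {q : ℕ} (κ m : ℕ) (χ : DirichletCharacter ℂ q) (u : ℝ) : ℂ :=
  2 * (Real.exp (u / 2) : ℂ) * T κ m χ (Real.exp u)

/-- The `n = 1` term of `dens`, the Fourier density of `Γ_ℝ(1/2 + κ + it)`. -/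
noncomputable def dens₁ (κ : ℕ) (u : ℝ) : ℂ :=
  2 * (Real.exp (u / 2) : ℂ) * (G κ (Real.exp u) : ℂ)

/-- `ell κ P u = 4 e^u ∑_{n > P} G κ (n e^u)²`. -/
noncomputable def ell (κ P : ℕ) (u : ℝ) : ℝ :=
  4 * Real.exp u * ∑' n : ℕ, if P < n then (G κ (n * Real.exp u)) ^ 2 else 0

/-- Fourier transform of the weight. -/
noncomputable def hatw (w : ℝ → ℝ) (u : ℝ) : ℂ := ∫ t : ℝ, (w t : ℂ) * cexp (t * u * I)

end Pool.Agent.GRH
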