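import Pool.Agent.Lib_helper24.GRH.Limit2
import Pool.Agent.Lib_helper24.GRH.Odd

namespace Pool.Agent.GRH

open Complex MeasureTheory Filter Topology
open scoped ENNReal

theorem exists_Wt (κ : ℕ) {a b : ℝ} (hab : a < b) : Nonempty (Wt κ a b) := by
  obtain ⟨w, h1, h2, h3, h4, h5, h6⟩ := bump κ hab
  exact ⟨⟨w, h1, h2, h3, h4, h5, h6⟩⟩

theorem tendsto_P {κ : ℕ} (hκ : κ ≤ 1) {a b : ℝ} (W : Wt κ a b) :
    Tendsto (fun P : ℕ => ∫ u, (2 * ell κ P u +
      36 * Real.pi * ((P.factorial.totient : ℝ) / P.factorial)) * ‖hatw W.w u‖) atTop (𝓝 0) := by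
  have hWn : Integrable (fun u => ‖hatw W.w u‖) := W.hint.norm
  have hcm : Measurable (fun u => ‖hatw W.w u‖) :=
    (continuous_hatw W.w W.hwc W.hcs).measurable.norm
  have hell : ∀ P, Integrable (fun u => 2 * ell κ P u * ‖hatw W.w u‖) := by
    intro P
    refine hWn.bdd_mul (c := 2 * (2 * Real.pi))
      ((ell_measurable hκ P).const_mul 2).aestronglyMeasurable (Eventually.of_forall fun u => ?_)
    have h0 := ell_nonneg κ P u
    rw [Real.norm_of_nonneg (by positivity)]
    have := ell_le hκ P u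
    gcongr
  have hsplit : (fun P : ℕ => ∫ u, (2 * ell κ P u +
      36 * Real.pi * ((P.factorial.totient : ℝ) / P.factorial)) * ‖hatw W.w u‖) =
      fun P : ℕ => (∫ u, 2 * ell κ P u * ‖hatw W.w u‖) +
        36 * Real.pi * ((P.factorial.totient : ℝ) / P.factorial) * ∫ u, ‖hatw W.w u‖ := by
    funext P
    rw [← integral_const_mul, ← integral_add (hell P) (hWn.const_mul _)]
    congr 1
    funext u
    ring
  rw [hsplit]
  have t1 : Tendsto (fun P : ℕ => ∫ u, 2 * ell κ P u * ‖hatw W.w u‖) atTop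
      (𝓝 (∫ u : ℝ, 2 * 0 * ‖hatw W.w u‖)) := by
    refine tendsto_integral_of_dominated_convergence
      (fun u => 2 * (2 * Real.pi) * ‖hatw W.w u‖) ?_ (hWn.const_mul _) ?_ ?_
    · intro P
      exact (hell P).aestronglyMeasurable
    · intro P
      refine Eventually.of_forall fun u => ?_
      have h0 := ell_nonneg κ P u
      rw [Real.norm_of_nonneg (by positivity)]
      have := ell_le hκ P u
      gcongr
    · refine Eventually.of_forall fun u => ?_
      exact ((ell_tendsto hκ u).const_mul 2).mul_const _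
  have t2 : Tendsto (fun P : ℕ => 36 * Real.pi * ((P.factorial.totient : ℝ) / P.factorial) *
      ∫ u, ‖hatw W.w u‖) atTop (𝓝 (36 * Real.pi * 0 * ∫ u, ‖hatw W.w u‖)) :=
    (totient_factorial.const_mul _).mul_const _
  have := t1.add t2
  simpa using this

open Classical in
theorem bad_small {κ : ℕ} (hκ : κ ≤ 1) {a b : ℝ} (hab : a < b) {ε : ℝ} (hε : 0 < ε) :
    ∃ Q : ℕ, ∀ (q : ℕ) [NeZero q], 2 ≤ q → Q ≤ q →
      ((Finset.univ.filter (fun χ : DirichletCharacter ℂ q => IsBad κ a b χ)).card : ℝ) ≤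
        ε * q.totient := by
  obtain ⟨W⟩ := exists_Wt κ hab
  set J2 : ℝ := ‖∫ t : ℝ, (W.w t : ℂ) * Gammaℝ (1 / 2 + κ + t * I)‖ ^ 2 with hJ2
  have hJpos : 0 < J2 := by
    have := norm_pos_iff.mpr W.hJ
    positivity
  have h1 := (tendsto_P hκ W).const_mul (∫ u, ‖hatw W.w u‖)
  rw [mul_zero] at h1
  obtain ⟨P, hP⟩ := (h1.eventually (gt_mem_nhds (show (0 : ℝ) < ε * J2 / 2 by positivity))).exists
  obtain ⟨Q, hQ⟩ := limit_m hκ W (m := P.factorial) (P := P) P.factorial_pos
    (fun p hp hpP => (Nat.Prime.dvd_factorial hp).mpr hpP) (δ := ε * J2 / 2) (by positivity)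
  refine ⟨Q, fun q _ hq hQq => ?_⟩
  have h2 := hQ q hq hQq
  rw [← hJ2] at h2
  have h3 : (0 : ℝ) ≤ q.totient := by positivity
  have h4 : ((Finset.univ.filter (fun χ : DirichletCharacter ℂ q => IsBad κ a b χ)).card : ℝ) * J2
      ≤ (ε * q.totient) * J2 := by
    refine h2.trans ?_
    calc (q.totient : ℝ) * ((∫ u, ‖hatw W.w u‖) * (∫ u, (2 * ell κ P u +
          36 * Real.pi * ((P.factorial.totient : ℝ) / P.factorial)) * ‖hatw W.w u‖) + ε * J2 / 2)
        ≤ (q.totient : ℝ) * (ε * J2 / 2 + ε * J2 / 2) := by gcongr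
      _ = _ := by ring
  exact le_of_mul_le_mul_right h4 hJpos

/-- The ordinates `t` of the zeros `1/2 + it` of odd order of `Λ(s, χ)` on the critical line. -/
def oddZeros {q : ℕ} [NeZero q] (χ : DirichletCharacter ℂ q) : Set ℝ :=
  {t : ℝ | Odd (analyticOrderNatAt (DirichletCharacter.completedLFunction χ) (1 / 2 + t * I))}

open Classical in
/-- Almost all primitive Dirichlet characters have at least `k` critical zeros of odd order
in `(a, b)`. -/
theorem main {a b : ℝ} (hab : a < b) (k : ℕ) {ε : ℝ} (hε : 0 < ε) :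
    ∃ Q : ℕ, ∀ (q : ℕ) [NeZero q], Q ≤ q →
      ((Finset.univ.filter (fun χ : DirichletCharacter ℂ q => χ.IsPrimitive ∧
        (oddZeros χ ∩ Set.Ioo a b).encard < k)).card : ℝ) ≤ ε * q.totient := by
  rcases Nat.eq_zero_or_pos k with rfl | hk
  · refine ⟨0, fun q _ _ => ?_⟩
    have : (Finset.univ.filter (fun χ : DirichletCharacter ℂ q => χ.IsPrimitive ∧
        (oddZeros χ ∩ Set.Ioo a b).encard < (0 : ℕ))) = ∅ := by
      refine Finset.filter_eq_empty_iff.mpr fun χ _ h => ?_
      simpa using h.2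
    rw [this]
    simp only [Finset.card_empty, Nat.cast_zero]
    positivity
  have hk' : (0 : ℝ) < k := by exact_mod_cast hk
  set h : ℝ := (b - a) / k with hh
  have hh0 : 0 < h := div_pos (by linarith) hk'
  have hkh : k * h = b - a := by rw [hh]; field_simp
  have hsub : ∀ j : ℕ, a + j * h < a + (j + 1) * h := fun j => by linarith
  have hε' : 0 < ε / (2 * k) := by positivity
  have H : ∀ (κ j : ℕ), ∃ Q : ℕ, κ ≤ 1 → ∀ (q : ℕ) [NeZero q], 2 ≤ q → Q ≤ q →
      ((Finset.univ.filter (fun χ : DirichletCharacter ℂ q =>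
        IsBad κ (a + j * h) (a + (j + 1) * h) χ)).card : ℝ) ≤ ε / (2 * k) * q.totient := by
    intro κ j
    by_cases hκ : κ ≤ 1
    · obtain ⟨Q, hQ⟩ := bad_small hκ (hsub j) hε'
      exact ⟨Q, fun _ => hQ⟩
    · exact ⟨0, fun h => absurd h hκ⟩
  choose Q hQ using H
  refine ⟨2 + ∑ κ ∈ Finset.range 2, ∑ j ∈ Finset.range k, Q κ j, fun q _ hq => ?_⟩
  have hq2 : 2 ≤ q := by omega
  have hQle : ∀ κ ∈ Finset.range 2, ∀ j ∈ Finset.range k, Q κ j ≤ q := by
    intro κ hκ j hj
    have h1 : Q κ j ≤ ∑ j ∈ Finset.range k, Q κ j :=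
      Finset.single_le_sum (f := fun j => Q κ j) (fun _ _ => Nat.zero_le _) hj
    have h2 : ∑ j ∈ Finset.range k, Q κ j ≤ ∑ κ ∈ Finset.range 2, ∑ j ∈ Finset.range k, Q κ j :=
      Finset.single_le_sum (f := fun κ => ∑ j ∈ Finset.range k, Q κ j)
        (fun _ _ => Nat.zero_le _) hκ
    omega
  have hcover : (Finset.univ.filter (fun χ : DirichletCharacter ℂ q => χ.IsPrimitive ∧
        (oddZeros χ ∩ Set.Ioo a b).encard < k)) ⊆
      (Finset.range 2).biUnion fun κ => (Finset.range k).biUnion fun j =>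
        Finset.univ.filter (fun χ : DirichletCharacter ℂ q =>
        IsBad κ (a + j * h) (a + (j + 1) * h) χ) := by
    intro χ hχ
    obtain ⟨_, hprim, hlt⟩ := Finset.mem_filter.mp hχ
    -- some subinterval has no zero
    have hex : ∃ j ∈ Finset.range k, ∀ t ∈ Set.Ioo (a + j * h) (a + (j + 1) * h),
        ¬ Odd (analyticOrderNatAt
          (DirichletCharacter.completedLFunction χ) (1 / 2 + t * I)) := by
      by_contra hcon
      push Not at hcon
      choose! t ht hz using hcon
      have hmono : ∀ i ∈ Finset.range k, ∀ j ∈ Finset.range k, i < j → t i < t j := by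
        intro i hi j hj hij
        have h1 := (ht i hi).2
        have h2 := (ht j hj).1
        have h3 : ((i : ℝ) + 1) * h ≤ j * h := by
          have : (i : ℝ) + 1 ≤ j := by exact_mod_cast hij
          gcongr
        linarith
      have hinj : Set.InjOn t (Finset.range k : Set ℕ) := by
        intro i hi j hj hij
        rcases lt_trichotomy i j with h1 | h1 | h1
        · exact absurd hij (hmono i hi j hj h1).ne
        · exact h1
        · exact absurd hij (hmono j hj i hi h1).ne'
      have hsubset : t '' (Finset.range k : Set ℕ) ⊆ oddZeros χ ∩ Set.Ioo a b := by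
        rintro _ ⟨j, hj, rfl⟩
        refine ⟨hz j hj, ⟨?_, ?_⟩⟩
        · have := (ht j hj).1
          have h1 : (0 : ℝ) ≤ j * h := by positivity
          linarith
        · have := (ht j hj).2
          have h1 : ((j : ℝ) + 1) * h ≤ k * h := by
            have : (j : ℝ) + 1 ≤ k := by
              have := Finset.mem_range.mp (Finset.mem_coe.mp hj)
              exact_mod_cast this
            gcongr
          linarith
      have hcard : (k : ℕ∞) ≤ (oddZeros χ ∩ Set.Ioo a b).encard := by
        have h1 := Set.encard_le_encard hsubset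
        rw [hinj.encard_image, Set.encard_coe_eq_coe_finsetCard, Finset.card_range] at h1
        exact h1
      exact absurd hlt (not_lt.mpr hcard)
    obtain ⟨j, hj, hjz⟩ := hex
    have hph := phase_odd hq2 χ hprim _ _ hjz
    rcases χ.even_or_odd with he | ho
    · refine Finset.mem_biUnion.mpr ⟨0, by simp, Finset.mem_biUnion.mpr ⟨j, hj, ?_⟩⟩
      exact Finset.mem_filter.mpr ⟨Finset.mem_univ _, hprim, Or.inl ⟨rfl, he⟩, hph⟩
    · refine Finset.mem_biUnion.mpr ⟨1, by simp, Finset.mem_biUnion.mpr ⟨j, hj, ?_⟩⟩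
      exact Finset.mem_filter.mpr ⟨Finset.mem_univ _, hprim, Or.inr ⟨rfl, ho⟩, hph⟩
  calc ((Finset.univ.filter (fun χ : DirichletCharacter ℂ q => χ.IsPrimitive ∧
        (oddZeros χ ∩ Set.Ioo a b).encard < k)).card : ℝ)
      ≤ (((Finset.range 2).biUnion fun κ => (Finset.range k).biUnion fun j =>
        Finset.univ.filter (fun χ : DirichletCharacter ℂ q =>
        IsBad κ (a + j * h) (a + (j + 1) * h) χ)).card : ℝ) := by
        exact_mod_cast Finset.card_le_card hcover
    _ ≤ ∑ κ ∈ Finset.range 2, ∑ j ∈ Finset.range k, ((Finset.univ.filter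
        (fun χ : DirichletCharacter ℂ q =>
          IsBad κ (a + j * h) (a + (j + 1) * h) χ)).card : ℝ) := by
        have := (Finset.card_biUnion_le (s := Finset.range 2) (t := fun κ =>
          (Finset.range k).biUnion fun j => Finset.univ.filter
            (fun χ : DirichletCharacter ℂ q => IsBad κ (a + j * h) (a + (j + 1) * h) χ))).trans
          (Finset.sum_le_sum fun κ _ => Finset.card_biUnion_le)
        exact_mod_cast this
    _ ≤ ∑ κ ∈ Finset.range 2, ∑ j ∈ Finset.range k, ε / (2 * k) * q.totient := by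
        refine Finset.sum_le_sum fun κ hκ => Finset.sum_le_sum fun j hj => ?_
        exact hQ κ j (by have := Finset.mem_range.mp hκ; omega) q hq2 (hQle κ hκ j hj)
    _ = ε * q.totient := by
        rw [Finset.sum_const, Finset.sum_const, Finset.card_range, Finset.card_range]
        simp only [nsmul_eq_mul]
        push_cast
        field_simp

open Classical in
/-- Uniform version: for almost all primitive characters, every interval of length `h` inside
`[-T, T]` contains the ordinates of at least `k` zeros of odd order on the critical line. -/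
theorem main_all (T : ℝ) {h : ℝ} (hh : 0 < h) (k : ℕ) {ε : ℝ} (hε : 0 < ε) :
    ∃ Q : ℕ, ∀ (q : ℕ) [NeZero q], Q ≤ q →
      ((Finset.univ.filter (fun χ : DirichletCharacter ℂ q => χ.IsPrimitive ∧
        ∃ x : ℝ, -T ≤ x ∧ x + h ≤ T ∧
          (oddZeros χ ∩ Set.Ioo x (x + h)).encard < k)).card : ℝ) ≤ ε * q.totient := by
  set g : ℝ := h / 2 with hg
  have hg0 : 0 < g := by positivity
  set J : ℕ := ⌈2 * T / g⌉₊ + 1 with hJ
  have hJ0 : (0 : ℝ) < J := by rw [hJ]; positivity
  have hε' : 0 < ε / J := by positivity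
  have H : ∀ j : ℕ, ∃ Q : ℕ, ∀ (q : ℕ) [NeZero q], Q ≤ q →
      ((Finset.univ.filter (fun χ : DirichletCharacter ℂ q => χ.IsPrimitive ∧
        (oddZeros χ ∩ Set.Ioo (-T + j * g) (-T + j * g + g)).encard < k)).card : ℝ) ≤
        ε / J * q.totient := fun j => main (by linarith) k hε'
  choose Q hQ using H
  refine ⟨∑ j ∈ Finset.range J, Q j, fun q _ hq => ?_⟩
  have hQle : ∀ j ∈ Finset.range J, Q j ≤ q := fun j hj =>
    (Finset.single_le_sum (f := Q) (fun _ _ => Nat.zero_le _) hj).trans hq
  have hcover : (Finset.univ.filter (fun χ : DirichletCharacter ℂ q => χ.IsPrimitive ∧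
        ∃ x : ℝ, -T ≤ x ∧ x + h ≤ T ∧ (oddZeros χ ∩ Set.Ioo x (x + h)).encard < k)) ⊆
      (Finset.range J).biUnion fun j =>
        Finset.univ.filter (fun χ : DirichletCharacter ℂ q => χ.IsPrimitive ∧
        (oddZeros χ ∩ Set.Ioo (-T + j * g) (-T + j * g + g)).encard < k) := by
    intro χ hχ
    obtain ⟨_, hprim, x, hx1, hx2, hlt⟩ := Finset.mem_filter.mp hχ
    refine Finset.mem_biUnion.mpr ⟨⌈(x + T) / g⌉₊, ?_, ?_⟩
    · rw [Finset.mem_range, hJ, Nat.lt_succ_iff]
      apply Nat.ceil_mono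
      gcongr
      linarith
    · refine Finset.mem_filter.mpr ⟨Finset.mem_univ _, hprim, lt_of_le_of_lt ?_ hlt⟩
      refine Set.encard_le_encard (Set.inter_subset_inter_right _ ?_)
      have h1 : (x + T) / g ≤ ⌈(x + T) / g⌉₊ := Nat.le_ceil _
      have h2 : (⌈(x + T) / g⌉₊ : ℝ) < (x + T) / g + 1 :=
        Nat.ceil_lt_add_one (div_nonneg (by linarith) hg0.le)
      rw [div_le_iff₀ hg0] at h1
      have h3 : (⌈(x + T) / g⌉₊ : ℝ) * g < x + T + g := by
        have := mul_lt_mul_of_pos_right h2 hg0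
        have h4 : ((x + T) / g + 1) * g = x + T + g := by field_simp
        linarith
      intro t ht
      constructor
      · linarith [ht.1]
      · have := ht.2
        have h5 : g + g = h := by rw [hg]; ring
        linarith
  calc ((Finset.univ.filter (fun χ : DirichletCharacter ℂ q => χ.IsPrimitive ∧
        ∃ x : ℝ, -T ≤ x ∧ x + h ≤ T ∧
          (oddZeros χ ∩ Set.Ioo x (x + h)).encard < k)).card : ℝ)
      ≤ (((Finset.range J).biUnion fun j =>
        Finset.univ.filter (fun χ : DirichletCharacter ℂ q => χ.IsPrimitive ∧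
        (oddZeros χ ∩ Set.Ioo (-T + j * g) (-T + j * g + g)).encard < k)).card : ℝ) := by
        exact_mod_cast Finset.card_le_card hcover
    _ ≤ ∑ j ∈ Finset.range J,
        ((Finset.univ.filter (fun χ : DirichletCharacter ℂ q => χ.IsPrimitive ∧
        (oddZeros χ ∩ Set.Ioo (-T + j * g) (-T + j * g + g)).encard < k)).card : ℝ) := by
        exact_mod_cast Finset.card_biUnion_le
    _ ≤ ∑ j ∈ Finset.range J, ε / J * q.totient :=
        Finset.sum_le_sum fun j hj => hQ j q (hQle j hj)
    _ = ε * q.totient := by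
        rw [Finset.sum_const, Finset.card_range, nsmul_eq_mul]
        field_simp

end Pool.Agent.GRH
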