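import Pool.Agent.Lib_helper24.GRH.Defs

namespace Pool.Agent.GRH

open Complex MeasureTheory Filter Topology

theorem exp_pi_sq_ge (y : ℝ) : 1 + Real.pi * y ^ 2 + (Real.pi * y ^ 2) ^ 2 / 2 ≤
    Real.exp (Real.pi * y ^ 2) :=
  Real.quadratic_le_exp_of_nonneg (by positivity)

theorem exp_neg_pi_sq (y : ℝ) : Real.exp (-Real.pi * y ^ 2) = 1 / Real.exp (Real.pi * y ^ 2) := by
  rw [neg_mul, Real.exp_neg, one_div]

theorem G_le {κ : ℕ} (hκ : κ ≤ 1) {y : ℝ} (hy : 0 ≤ y) : |G κ y| ≤ 1 / (1 + y ^ 2) := by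
  have hpi := Real.pi_gt_three
  have h1 := exp_pi_sq_ge y
  have hE : 0 < Real.exp (Real.pi * y ^ 2) := Real.exp_pos _
  have hy2 : 0 ≤ y ^ 2 := sq_nonneg y
  have hnn : 0 ≤ G κ y := by unfold G; positivity
  rw [abs_of_nonneg hnn]
  unfold G
  rw [exp_neg_pi_sq]
  rw [mul_one_div, div_le_div_iff₀ hE (by positivity)]
  have h2 : 1 + y ^ 2 ≤ Real.exp (Real.pi * y ^ 2) := by nlinarith [sq_nonneg (Real.pi * y ^ 2)]
  interval_cases κ
  · simpa using h2
  · simp only [pow_one, one_mul]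
    have h3 : y ≤ (1 + y ^ 2) / 2 := by nlinarith [sq_nonneg (y - 1)]
    have h4 : y * (1 + y ^ 2) ≤ (1 + y ^ 2) ^ 2 / 2 := by nlinarith
    have h5 : (1 + y ^ 2) ^ 2 / 2 ≤ 1 + Real.pi * y ^ 2 + (Real.pi * y ^ 2) ^ 2 / 2 := by
      have : y ^ 4 ≤ (Real.pi * y ^ 2) ^ 2 := by
        have h6 : (1:ℝ) ≤ Real.pi ^ 2 := by nlinarith
        have h7 : (Real.pi * y ^ 2) ^ 2 = Real.pi ^ 2 * y ^ 4 := by ring
        rw [h7]
        nlinarith [pow_nonneg hy 4]
      nlinarith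
    linarith

theorem G_lip {κ : ℕ} (hκ : κ ≤ 1) : ∃ C : ℝ, 0 ≤ C ∧ ∀ x y : ℝ, 0 ≤ x → x ≤ y →
    |G κ x - G κ y| ≤ C * (y - x) / (1 + x ^ 2) := by
  have hpi := Real.pi_gt_three
  refine ⟨1 + 2 * Real.pi, by positivity, fun x y hx hxy => ?_⟩
  have hder : ∀ z : ℝ, HasDerivAt (G κ)
      (κ * z ^ (κ - 1) * Real.exp (-Real.pi * z ^ 2) +
        z ^ κ * (Real.exp (-Real.pi * z ^ 2) * (-Real.pi * (2 * z)))) z := by
    intro z
    have h1 : HasDerivAt (fun z : ℝ => z ^ κ) (κ * z ^ (κ - 1)) z := hasDerivAt_pow κ z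
    have h2 : HasDerivAt (fun z : ℝ => Real.exp (-Real.pi * z ^ 2))
        (Real.exp (-Real.pi * z ^ 2) * (-Real.pi * (2 * z))) z := by
      have h3 : HasDerivAt (fun z : ℝ => -Real.pi * z ^ 2) (-Real.pi * (2 * z)) z := by
        have := (hasDerivAt_pow 2 z).const_mul (-Real.pi)
        simpa using this
      exact h3.exp
    exact h1.mul h2
  have hbound : ∀ z ∈ Set.Ico x y,
      ‖κ * z ^ (κ - 1) * Real.exp (-Real.pi * z ^ 2) +
        z ^ κ * (Real.exp (-Real.pi * z ^ 2) * (-Real.pi * (2 * z)))‖ ≤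
        (1 + 2 * Real.pi) / (1 + x ^ 2) := by
    intro z hz
    have hz0 : 0 ≤ z := hx.trans hz.1
    have hzx : 1 + x ^ 2 ≤ 1 + z ^ 2 := by nlinarith [hz.1]
    have hG0 := G_le (κ := 0) (by norm_num) hz0
    have hG1 := G_le (κ := 1) (by norm_num) hz0
    unfold G at hG0 hG1
    simp only [pow_zero, one_mul, pow_one] at hG0 hG1
    rw [abs_of_nonneg (by positivity)] at hG0 hG1
    have hle : (1 + 2 * Real.pi) / (1 + z ^ 2) ≤ (1 + 2 * Real.pi) / (1 + x ^ 2) := by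
      apply div_le_div_of_nonneg_left (by positivity) (by positivity) hzx
    refine le_trans ?_ hle
    have hz2 : z ^ 2 * Real.exp (-Real.pi * z ^ 2) ≤ 1 / (1 + z ^ 2) := by
      rw [exp_neg_pi_sq, mul_one_div, div_le_div_iff₀ (Real.exp_pos _) (by positivity)]
      have h1 := exp_pi_sq_ge z
      have h6 : (1:ℝ) ≤ Real.pi ^ 2 / 2 := by nlinarith
      have h7 : (Real.pi * z ^ 2) ^ 2 / 2 = Real.pi ^ 2 / 2 * z ^ 4 := by ring
      rw [h7] at h1
      nlinarith [pow_nonneg hz0 4, sq_nonneg z]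
    have hE : 0 < Real.exp (-Real.pi * z ^ 2) := Real.exp_pos _
    interval_cases κ
    · simp only [Nat.cast_zero, zero_mul, pow_zero, one_mul, zero_add, norm_mul, norm_neg,
        Real.norm_eq_abs, abs_of_pos hE, abs_of_pos Real.pi_pos, abs_of_nonneg hz0, Nat.abs_ofNat]
      have : Real.exp (-Real.pi * z ^ 2) * (Real.pi * (2 * z)) =
          2 * Real.pi * (z * Real.exp (-Real.pi * z ^ 2)) := by ring
      rw [this]
      have h8 : 2 * Real.pi * (z * Real.exp (-Real.pi * z ^ 2)) ≤ 2 * Real.pi * (1 / (1 + z ^ 2)) :=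
        mul_le_mul_of_nonneg_left hG1 (by positivity)
      have h9 : (1 + 2 * Real.pi) / (1 + z ^ 2) = 1 / (1 + z ^ 2) + 2 * Real.pi * (1 / (1 + z ^ 2)) := by
        ring
      rw [h9]
      have : 0 ≤ 1 / (1 + z ^ 2) := by positivity
      linarith
    · simp only [Nat.cast_one, one_mul, Nat.sub_self, pow_zero, pow_one]
      refine (norm_add_le _ _).trans ?_
      simp only [norm_mul, norm_neg, Real.norm_eq_abs, abs_of_pos hE, abs_of_pos Real.pi_pos,
        abs_of_nonneg hz0, Nat.abs_ofNat]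
      have h9 : (1 + 2 * Real.pi) / (1 + z ^ 2) = 1 / (1 + z ^ 2) + 2 * Real.pi * (1 / (1 + z ^ 2)) := by
        ring
      have h10 : z * (Real.exp (-Real.pi * z ^ 2) * (Real.pi * (2 * z))) =
          2 * Real.pi * (z ^ 2 * Real.exp (-Real.pi * z ^ 2)) := by ring
      rw [h9, h10]
      have h8 : 2 * Real.pi * (z ^ 2 * Real.exp (-Real.pi * z ^ 2)) ≤ 2 * Real.pi * (1 / (1 + z ^ 2)) :=
        mul_le_mul_of_nonneg_left hz2 (by positivity)
      linarith
  have hmv := norm_image_sub_le_of_norm_deriv_right_le_segment (f := G κ) (a := x) (b := y)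
    (C := (1 + 2 * Real.pi) / (1 + x ^ 2))
    (f' := fun z => κ * z ^ (κ - 1) * Real.exp (-Real.pi * z ^ 2) +
        z ^ κ * (Real.exp (-Real.pi * z ^ 2) * (-Real.pi * (2 * z))))
    (fun z _ => (hder z).continuousAt.continuousWithinAt)
    (fun z _ => (hder z).hasDerivWithinAt) hbound y (Set.right_mem_Icc.mpr hxy)
  rw [← abs_neg, neg_sub]
  rw [Real.norm_eq_abs] at hmv
  refine hmv.trans (le_of_eq ?_)
  ring

end Pool.Agent.GRH
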