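import Pool.Agent.Lib_helper24.GRH.All

namespace Pool.Agent.GRH

open Complex MeasureTheory Filter Topology

/-- the completely multiplicative function `n ↦ χ(n) n^{-it}` -/
noncomputable def xt {q : ℕ} (χ : DirichletCharacter ℂ q) (t : ℝ) : ℕ →* ℂ where
  toFun n := χ n * (n : ℂ) ^ (-(t * I) : ℂ)
  map_one' := by simp
  map_mul' m n := by
    rw [Nat.cast_mul, map_mul, Nat.cast_mul, Complex.natCast_mul_natCast_cpow]
    ring

theorem xt_apply {q : ℕ} (χ : DirichletCharacter ℂ q) (t : ℝ) (n : ℕ) :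
    xt χ t n = χ n * (n : ℂ) ^ (-(t * I) : ℂ) := rfl

/-- `L_m(t)` -/
noncomputable def Lm {q : ℕ} [NeZero q] (m : ℕ) (χ : DirichletCharacter ℂ q) (t : ℝ) : ℂ :=
  DirichletCharacter.completedLFunction χ (1 / 2 + t * I) *
    ∏ p ∈ m.primeFactors, (1 - χ p * (p : ℂ) ^ (-(1 / 2 + t * I) : ℂ))

theorem continuous_line {q : ℕ} [NeZero q] {χ : DirichletCharacter ℂ q} (hχ : χ ≠ 1) :
    Continuous (fun t : ℝ => DirichletCharacter.completedLFunction χ (1 / 2 + t * I)) :=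
  (DirichletCharacter.differentiable_completedLFunction hχ).continuous.comp (by fun_prop)

theorem continuous_natpow (n : ℕ) (hn : 0 < n) (f : ℝ → ℂ) (hf : Continuous f) :
    Continuous (fun t : ℝ => (n : ℂ) ^ (f t)) := by
  have : (n : ℂ) ≠ 0 := by exact_mod_cast hn.ne'
  refine Continuous.const_cpow hf (Or.inl this)

theorem continuous_Lm {q : ℕ} [NeZero q] (m : ℕ) {χ : DirichletCharacter ℂ q} (hχ : χ ≠ 1) :
    Continuous (Lm m χ) := by
  refine (continuous_line hχ).mul (continuous_finsetProd _ fun p hp => ?_)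
  refine continuous_const.sub (continuous_const.mul ?_)
  exact continuous_natpow p (Nat.pos_of_mem_primeFactors hp) _ (by fun_prop)

theorem norm_natpow (n : ℕ) (hn : 0 < n) (t : ℝ) : ‖(n : ℂ) ^ (-(t * I) : ℂ)‖ = 1 := by
  rw [Complex.norm_natCast_cpow_of_pos hn]
  simp

theorem xt_norm {q : ℕ} [NeZero q] (χ : DirichletCharacter ℂ q) (t : ℝ) {n : ℕ} (hn : 0 < n)
    (h : n.Coprime q) : ‖xt χ t n‖ = 1 := by
  rw [xt_apply, norm_mul, norm_natpow n hn, mul_one]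
  exact χ.unit_norm_eq_one (ZMod.unitOfCoprime n h)

theorem pow_half {p : ℕ} (hp : 0 < p) (t : ℝ) :
    (p : ℂ) ^ (-(1 / 2 + t * I) : ℂ) = (((√p)⁻¹ : ℝ) : ℂ) * (p : ℂ) ^ (-(t * I) : ℂ) := by
  have h : (p : ℂ) ≠ 0 := by exact_mod_cast hp.ne'
  rw [neg_add, Complex.cpow_add _ _ h]
  congr 1
  rw [Complex.cpow_neg, ofReal_inv]
  congr 1
  rw [Real.sqrt_eq_rpow, Complex.ofReal_cpow (by positivity)]
  norm_num

theorem Lm_eq {q : ℕ} [NeZero q] (m : ℕ) (χ : DirichletCharacter ℂ q) (t : ℝ) :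
    Lm m χ t = DirichletCharacter.completedLFunction χ (1 / 2 + t * I) *
      ∏ p ∈ m.primeFactors.filter (fun p => ¬ p ∣ q), (1 - (((√p)⁻¹ : ℝ) : ℂ) * xt χ t p) := by
  rw [Lm]
  congr 1
  rw [Finset.prod_filter]
  refine Finset.prod_congr rfl fun p hp => ?_
  have hp' := Nat.prime_of_mem_primeFactors hp
  by_cases h : p ∣ q
  · have : χ p = 0 := by
      apply χ.map_nonunit
      rw [ZMod.isUnit_iff_coprime, hp'.coprime_iff_not_dvd]
      simpa using h
    rw [if_neg (by simpa using h), this]; ring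
  · rw [if_pos h, pow_half hp'.pos, xt_apply]
    ring

theorem shift_integral {q : ℕ} (κ m : ℕ) (χ : DirichletCharacter ℂ q)
    (t : ℝ) (L : ℝ) :
    ∫ u : ℝ, dens κ m χ (u + L) * cexp (t * u * I) =
      cexp (-(t * L * I)) * ∫ u : ℝ, dens κ m χ u * cexp (t * u * I) := by
  have h := integral_add_right_eq_self (μ := volume)
    (fun u : ℝ => dens κ m χ u * cexp (t * (u - L) * I)) L
  have h1 : (fun u : ℝ => dens κ m χ (u + L) * cexp (t * u * I)) =
      fun u : ℝ => dens κ m χ (u + L) * cexp (t * (((u + L : ℝ) : ℂ) - L) * I) := by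
    funext u
    congr 2
    push_cast
    ring
  rw [h1, h, ← integral_const_mul]
  congr 1
  funext u
  rw [mul_left_comm, ← Complex.exp_add]
  congr 2
  ring

/-- key inequality -/
theorem key {q : ℕ} [NeZero q] (hq : 2 ≤ q) (χ : DirichletCharacter ℂ q) (hχ : χ.IsPrimitive)
    (κ : ℕ) (hκ : (κ = 0 ∧ χ.Even) ∨ (κ = 1 ∧ χ.Odd)) {m : ℕ} (hm : 0 < m) {a b : ℝ}
    (hz : ∃ θ : ℂ, ‖θ‖ = 1 ∧ ∀ t ∈ Set.Ioo a b,
      (q : ℂ) ^ ((t : ℂ) * I / 2) * DirichletCharacter.completedLFunction χ (1 / 2 + t * I) =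
        θ * ‖DirichletCharacter.completedLFunction χ (1 / 2 + t * I)‖)
    (w : ℝ → ℝ) (hwc : Continuous w) (hcs : HasCompactSupport w) (hw0 : ∀ t, 0 ≤ w t)
    (hws : ∀ t, t ∉ Set.Ioo a b → w t = 0) {B : ℕ} (hB : 0 < B) (ι : Finset ℕ) (c : ℕ → ℂ)
    (hι : ∀ n ∈ ι, 0 < n)
    (happ : ∀ x : ℕ →* ℂ, (∀ p ∈ m.primeFactors.filter (fun p => ¬ p ∣ q), ‖x p‖ = 1) →
        ‖starRingEnd ℂ (x B) * ∑ n ∈ ι, c n * x n -
          ∏ p ∈ m.primeFactors.filter (fun p => ¬ p ∣ q),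
            (starRingEnd ℂ (1 - (((√p)⁻¹ : ℝ) : ℂ) * x p) /
              ‖1 - (((√p)⁻¹ : ℝ) : ℂ) * x p‖)‖ ≤ 1 / 2) :
    ‖∫ u : ℝ, dens κ m χ u * hatw w u‖ ≤
      2 * ‖∫ u : ℝ, (∑ n ∈ ι, c n * χ n * dens κ m χ (u + Real.log n - Real.log (B * √q))) *
        hatw w u‖ := by
  have hχ1 : χ ≠ 1 := by
    rintro rfl
    have h1 := hχ
    rw [DirichletCharacter.isPrimitive_def, DirichletCharacter.conductor_one] at h1
    omega
  obtain ⟨hint, hrep⟩ := repm χ hχ1 κ hκ hm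
  have hrep' : ∀ t : ℝ, Lm m χ t = ∫ u : ℝ, dens κ m χ u * cexp (t * u * I) := hrep
  obtain ⟨θ, hθ, hph⟩ := hz
  have hcont := continuous_Lm m hχ1
  set S := m.primeFactors.filter (fun p => ¬ p ∣ q) with hS
  have hSprime : ∀ p ∈ S, p.Prime := fun p hp =>
    Nat.prime_of_mem_primeFactors (Finset.mem_filter.mp hp).1
  have hx : ∀ t : ℝ, ∀ p ∈ S, ‖xt χ t p‖ = 1 := by
    intro t p hp
    refine xt_norm χ t (hSprime p hp).pos ?_
    exact (hSprime p hp).coprime_iff_not_dvd.mpr (Finset.mem_filter.mp hp).2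
  -- `V`
  set V : ℝ → ℂ := fun t => starRingEnd ℂ (xt χ t B) * ∑ n ∈ ι, c n * xt χ t n with hV
  have hVc : Continuous V := by
    refine Continuous.mul ?_ (continuous_finsetSum _ fun n hn => ?_)
    · refine Complex.continuous_conj.comp ?_
      simp only [xt_apply]
      exact continuous_const.mul (continuous_natpow B hB _ (by fun_prop))
    · simp only [xt_apply]
      exact continuous_const.mul (continuous_const.mul
        (continuous_natpow n (hι n hn) _ (by fun_prop)))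
  have hqpos : 0 < q := by omega
  have hqc : Continuous (fun t : ℝ => (q : ℂ) ^ ((t : ℂ) * I / 2)) :=
    continuous_natpow q hqpos _ (by fun_prop)
  set F : ℝ → ℂ := fun t => (w t : ℂ) * ((q : ℂ) ^ ((t : ℂ) * I / 2) * Lm m χ t * V t) with hF
  have hFc : Continuous F := by
    refine (continuous_ofReal.comp hwc).mul ((hqc.mul hcont).mul hVc)
  have hwc' : HasCompactSupport (fun t => (w t : ℂ)) := hcs.comp_left (g := fun x : ℝ => (x : ℂ)) (by simp)
  have hFi : Integrable F := hFc.integrable_of_hasCompactSupport (hwc'.mul_right)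
  have hYi : Integrable (fun t => w t * ‖Lm m χ t‖) :=
    (hwc.mul hcont.norm).integrable_of_hasCompactSupport hcs.mul_right
  set Y : ℝ := ∫ t, w t * ‖Lm m χ t‖ with hY
  have hwLi : Integrable (fun t => (w t : ℂ) * Lm m χ t) :=
    ((continuous_ofReal.comp hwc).mul hcont).integrable_of_hasCompactSupport hwc'.mul_right
  -- claim 2
  have c2 : ‖∫ t : ℝ, (w t : ℂ) * Lm m χ t‖ ≤ Y := by
    refine (norm_integral_le_integral_norm _).trans (le_of_eq ?_)
    refine integral_congr_ae (Eventually.of_forall fun t => ?_)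
    simp [abs_of_nonneg (hw0 t)]
  -- claim 4
  have c4 : ∀ t, ‖F t - θ * ((w t * ‖Lm m χ t‖ : ℝ) : ℂ)‖ ≤ 1 / 2 * (w t * ‖Lm m χ t‖) := by
    intro t
    by_cases ht : t ∈ Set.Ioo a b
    · have e1 : θ * ((w t * ‖Lm m χ t‖ : ℝ) : ℂ) = (w t : ℂ) * ((q : ℂ) ^ ((t : ℂ) * I / 2) *
          Lm m χ t * ∏ p ∈ S, (starRingEnd ℂ (1 - (((√p)⁻¹ : ℝ) : ℂ) * xt χ t p) /
              ‖1 - (((√p)⁻¹ : ℝ) : ℂ) * xt χ t p‖)) := by
        rw [Lm_eq, ← hS, norm_mul, norm_prod]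
        have e2 : (∏ p ∈ S, (1 - (((√p)⁻¹ : ℝ) : ℂ) * xt χ t p)) *
            ∏ p ∈ S, (starRingEnd ℂ (1 - (((√p)⁻¹ : ℝ) : ℂ) * xt χ t p) /
              ‖1 - (((√p)⁻¹ : ℝ) : ℂ) * xt χ t p‖) =
            ((∏ p ∈ S, ‖1 - (((√p)⁻¹ : ℝ) : ℂ) * xt χ t p‖ : ℝ) : ℂ) := by
          rw [← Finset.prod_mul_distrib, ofReal_prod]
          refine Finset.prod_congr rfl fun p hp => ?_
          rw [← mul_div_assoc, Complex.mul_conj, Complex.normSq_eq_norm_sq]
          push_cast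
          rcases eq_or_ne (‖1 - (((√p)⁻¹ : ℝ) : ℂ) * xt χ t p‖) 0 with h0 | h0
          · push_cast at h0
            simp [h0]
          · have h0' : ((‖1 - (((√p)⁻¹ : ℝ) : ℂ) * xt χ t p‖ : ℝ) : ℂ) ≠ 0 := by
              exact_mod_cast h0
            push_cast at h0'
            field_simp
        have e3 := hph t ht
        calc θ * ((w t * (‖DirichletCharacter.completedLFunction χ (1 / 2 + t * I)‖ *
              ∏ p ∈ S, ‖1 - (((√p)⁻¹ : ℝ) : ℂ) * xt χ t p‖) : ℝ) : ℂ)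
            = (w t : ℂ) * ((θ * ‖DirichletCharacter.completedLFunction χ (1 / 2 + t * I)‖) *
              ((∏ p ∈ S, ‖1 - (((√p)⁻¹ : ℝ) : ℂ) * xt χ t p‖ : ℝ) : ℂ)) := by
              push_cast; ring
          _ = _ := by
              rw [← e3, ← e2]; ring
      rw [e1, hF]
      have e4 : (w t : ℂ) * ((q : ℂ) ^ ((t : ℂ) * I / 2) * Lm m χ t * V t) -
          (w t : ℂ) * ((q : ℂ) ^ ((t : ℂ) * I / 2) *
          Lm m χ t * ∏ p ∈ S, (starRingEnd ℂ (1 - (((√p)⁻¹ : ℝ) : ℂ) * xt χ t p) /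
              ‖1 - (((√p)⁻¹ : ℝ) : ℂ) * xt χ t p‖)) =
          (w t : ℂ) * ((q : ℂ) ^ ((t : ℂ) * I / 2) * Lm m χ t *
            (V t - ∏ p ∈ S, (starRingEnd ℂ (1 - (((√p)⁻¹ : ℝ) : ℂ) * xt χ t p) /
              ‖1 - (((√p)⁻¹ : ℝ) : ℂ) * xt χ t p‖))) := by ring
      show ‖(w t : ℂ) * ((q : ℂ) ^ ((t : ℂ) * I / 2) * Lm m χ t * V t) - _‖ ≤ _
      rw [e4, norm_mul, norm_mul, norm_mul]
      have hq1 : ‖(q : ℂ) ^ ((t : ℂ) * I / 2)‖ = 1 := by
        rw [Complex.norm_natCast_cpow_of_pos hqpos]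
        simp
      rw [hq1, one_mul]
      have h5 := happ (xt χ t) (hx t)
      have h6 : ‖((w t : ℝ) : ℂ)‖ = w t := by simp [abs_of_nonneg (hw0 t)]
      rw [h6]
      have h7 : 0 ≤ w t * ‖Lm m χ t‖ := mul_nonneg (hw0 t) (norm_nonneg _)
      calc w t * (‖Lm m χ t‖ * ‖V t - ∏ p ∈ S, (starRingEnd ℂ (1 - (((√p)⁻¹ : ℝ) : ℂ) * xt χ t p) /
              ‖1 - (((√p)⁻¹ : ℝ) : ℂ) * xt χ t p‖)‖)
          = (w t * ‖Lm m χ t‖) * ‖V t - ∏ p ∈ S, (starRingEnd ℂ (1 - (((√p)⁻¹ : ℝ) : ℂ) * xt χ t p) /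
              ‖1 - (((√p)⁻¹ : ℝ) : ℂ) * xt χ t p‖)‖ := by ring
        _ ≤ (w t * ‖Lm m χ t‖) * (1 / 2) := mul_le_mul_of_nonneg_left h5 h7
        _ = _ := by ring
    · simp [hF, hws t ht]
  have c5 : ‖∫ t, F t‖ ≥ 1 / 2 * Y := by
    have h1 : ∫ t, (F t - θ * ((w t * ‖Lm m χ t‖ : ℝ) : ℂ)) = (∫ t, F t) - θ * Y := by
      have hθi : Integrable (fun t => θ * ((w t * ‖Lm m χ t‖ : ℝ) : ℂ)) :=
        (hYi.ofReal (𝕜 := ℂ)).const_mul θ
      rw [integral_sub hFi hθi, integral_const_mul, integral_complex_ofReal]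
    have h2 : ‖∫ t, (F t - θ * ((w t * ‖Lm m χ t‖ : ℝ) : ℂ))‖ ≤ 1 / 2 * Y := by
      rw [hY, ← integral_const_mul]
      exact norm_integral_le_of_norm_le (hYi.const_mul _) (Eventually.of_forall c4)
    rw [h1] at h2
    have hYnn : 0 ≤ Y := integral_nonneg fun t => mul_nonneg (hw0 t) (norm_nonneg _)
    have h3 : ‖θ * (Y : ℂ)‖ = Y := by
      rw [norm_mul, hθ, one_mul]; simp [abs_of_nonneg hYnn]
    have h4 : ‖θ * (Y : ℂ)‖ ≤ ‖∫ t, F t‖ + ‖(∫ t, F t) - θ * Y‖ := by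
      have := norm_sub_norm_le (θ * (Y : ℂ)) (θ * (Y : ℂ) - ∫ t, F t)
      have h5 : ‖(∫ t, F t) - θ * Y‖ = ‖θ * (Y : ℂ) - ∫ t, F t‖ := norm_sub_rev _ _
      have h6 : θ * (Y : ℂ) - (θ * (Y : ℂ) - ∫ t, F t) = ∫ t, F t := by ring
      rw [h6] at this
      linarith
    linarith
  -- claim 5
  have c6 : ∫ t, F t = starRingEnd ℂ (χ B) *
      ∫ u : ℝ, (∑ n ∈ ι, c n * χ n * dens κ m χ (u + Real.log n - Real.log (B * √q))) *
        hatw w u := by
    have hfi : Integrable (fun u : ℝ =>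
        ∑ n ∈ ι, c n * χ n * dens κ m χ (u + Real.log n - Real.log (B * √q))) := by
      refine integrable_finsetSum _ fun n hn => ?_
      refine Integrable.const_mul ?_ _
      simp only [add_sub_assoc]
      exact hint.comp_add_right _
    rw [← flip w hwc hcs _ hfi, ← integral_const_mul]
    congr 1
    funext t
    rw [hF]
    simp only
    rw [mul_left_comm (starRingEnd ℂ (χ B)) ((w t : ℝ) : ℂ)]
    congr 1
    have e1 : ∀ n ∈ ι, Integrable (fun u : ℝ => c n * χ n *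
        dens κ m χ (u + Real.log n - Real.log (B * √q)) * cexp (t * u * I)) := by
      intro n hn
      have : Integrable (fun u : ℝ => c n * χ n *
          dens κ m χ (u + Real.log n - Real.log (B * √q))) := by
        refine Integrable.const_mul ?_ _
        simp only [add_sub_assoc]
        exact hint.comp_add_right _
      refine this.mul_bdd (c := 1) ?_ (Eventually.of_forall fun u => ?_)
      · exact (Continuous.aestronglyMeasurable (by fun_prop))
      · rw [show (t : ℂ) * u * I = ((t * u : ℝ) : ℂ) * I by push_cast; ring,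
          Complex.norm_exp_ofReal_mul_I]
    have e2 : ∫ u : ℝ, (∑ n ∈ ι, c n * χ n *
        dens κ m χ (u + Real.log n - Real.log (B * √q))) * cexp (t * u * I) =
        ∑ n ∈ ι, c n * χ n * (cexp (-(t * ((Real.log n - Real.log (B * √q) : ℝ) : ℂ) * I)) * Lm m χ t) := by
      simp_rw [Finset.sum_mul]
      rw [integral_finsetSum _ e1]
      refine Finset.sum_congr rfl fun n hn => ?_
      rw [hrep' t, ← shift_integral κ m χ, ← integral_const_mul]
      congr 1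
      funext u
      rw [add_sub_assoc]
      ring
    rw [e2, hV]
    simp only [xt_apply, map_mul]
    rw [Finset.mul_sum, Finset.mul_sum, Finset.mul_sum]
    refine Finset.sum_congr rfl fun n hn => ?_
    have hn0 : 0 < n := hι n hn
    have e3 : (q : ℂ) ^ ((t : ℂ) * I / 2) * (starRingEnd ℂ ((B : ℂ) ^ (-(t * I) : ℂ)) *
        (n : ℂ) ^ (-(t * I) : ℂ)) =
        cexp (-(t * ((Real.log n - Real.log (B * √q) : ℝ) : ℂ) * I)) := by
      have hB0 : (B : ℂ) ≠ 0 := by exact_mod_cast hB.ne'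
      have hn0' : (n : ℂ) ≠ 0 := by exact_mod_cast hn0.ne'
      have hq0' : (q : ℂ) ≠ 0 := by exact_mod_cast hqpos.ne'
      rw [Complex.cpow_def_of_ne_zero hB0, Complex.cpow_def_of_ne_zero hn0',
        Complex.cpow_def_of_ne_zero hq0', ← Complex.exp_conj, ← Complex.exp_add,
        ← Complex.exp_add]
      congr 1
      rw [← Complex.natCast_log, ← Complex.natCast_log, ← Complex.natCast_log]
      rw [map_mul, Complex.conj_ofReal, map_neg, map_mul, Complex.conj_ofReal, Complex.conj_I]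
      rw [Real.log_mul (by exact_mod_cast hB.ne') (by positivity), Real.log_sqrt (by positivity)]
      push_cast
      ring
    rw [← e3]
    ring
  have c7 : ‖∫ u : ℝ, dens κ m χ u * hatw w u‖ = ‖∫ t : ℝ, (w t : ℂ) * Lm m χ t‖ := by
    rw [← flip w hwc hcs _ hint]
    simp_rw [← hrep']
  rw [c7]
  refine c2.trans ?_
  have c8 : ‖∫ t, F t‖ ≤ ‖∫ u : ℝ, (∑ n ∈ ι, c n * χ n *
      dens κ m χ (u + Real.log n - Real.log (B * √q))) * hatw w u‖ := by
    rw [c6, norm_mul]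
    refine mul_le_of_le_one_left (norm_nonneg _) ?_
    rw [RCLike.norm_conj]
    exact χ.norm_le_one _
  linarith

end Pool.Agent.GRH
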