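import Pool.Agent.Lib_helper24.GRH.Key

namespace Pool.Agent.GRH

open Complex MeasureTheory Filter Topology
open scoped ENNReal

theorem cs {F W : ℝ → ℝ} (hW0 : ∀ u, 0 ≤ W u) (hF0 : ∀ u, 0 ≤ F u) (hW : Integrable W)
    (hFW : Integrable (fun u => F u * W u)) (hF2W : Integrable (fun u => F u ^ 2 * W u)) :
    (∫ u, F u * W u) ^ 2 ≤ (∫ u, W u) * ∫ u, F u ^ 2 * W u := by
  set A := ∫ u, W u with hAdef
  set Bf := ∫ u, F u * W u with hBdef
  set D := ∫ u, F u ^ 2 * W u with hDdef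
  have hA : 0 ≤ A := integral_nonneg hW0
  have hBf : 0 ≤ Bf := integral_nonneg fun u => mul_nonneg (hF0 u) (hW0 u)
  have hD : 0 ≤ D := integral_nonneg fun u => mul_nonneg (sq_nonneg _) (hW0 u)
  have key : ∀ c : ℝ, 2 * c * Bf ≤ D + c ^ 2 * A := by
    intro c
    have : ∫ u, 2 * c * (F u * W u) ≤ ∫ u, (F u ^ 2 * W u + c ^ 2 * W u) := by
      refine integral_mono (hFW.const_mul _) (hF2W.add (hW.const_mul _)) fun u => ?_
      have := mul_nonneg (sq_nonneg (F u - c)) (hW0 u)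
      simp only
      nlinarith
    rw [integral_const_mul, integral_add hF2W (hW.const_mul _), integral_const_mul] at this
    exact this
  rcases hA.eq_or_lt with h0 | h0
  · have : Bf = 0 := by
      by_contra hne
      have hpos : 0 < Bf := lt_of_le_of_ne hBf (Ne.symm hne)
      have h1 := key ((D + 1) / Bf)
      rw [← h0] at h1
      have h2 : 2 * ((D + 1) / Bf) * Bf = 2 * (D + 1) := by field_simp
      rw [h2] at h1
      linarith
    rw [this, ← h0]; simp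
  · have h1 := key (Bf / A)
    have h2 : 2 * (Bf / A) * Bf = 2 * (Bf ^ 2 / A) := by ring
    have h3 : (Bf / A) ^ 2 * A = Bf ^ 2 / A := by field_simp
    rw [h2, h3] at h1
    have h4 : Bf ^ 2 / A ≤ D := by linarith
    rw [div_le_iff₀ h0] at h4
    linarith

theorem cs' {g h : ℝ → ℂ} (hg : Measurable g) {C : ℝ} (hgb : ∀ u, ‖g u‖ ≤ C)
    (hh : Integrable h) :
    ‖∫ u, g u * h u‖ ^ 2 ≤ (∫ u, ‖h u‖) * ∫ u, ‖g u‖ ^ 2 * ‖h u‖ := by
  have h1 : Integrable (fun u => ‖g u‖ * ‖h u‖) := by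
    refine hh.norm.bdd_mul (c := C) hg.norm.aestronglyMeasurable (Eventually.of_forall fun u => ?_)
    simpa using hgb u
  have h2 : Integrable (fun u => ‖g u‖ ^ 2 * ‖h u‖) := by
    refine hh.norm.bdd_mul (c := C ^ 2) (hg.norm.pow_const 2).aestronglyMeasurable
      (Eventually.of_forall fun u => ?_)
    have := hgb u
    simp only [norm_pow, norm_norm]
    gcongr
  have h3 := cs (fun u => norm_nonneg (h u)) (fun u => norm_nonneg (g u)) hh.norm h1 h2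
  refine le_trans ?_ h3
  have h4 : ‖∫ u, g u * h u‖ ≤ ∫ u, ‖g u‖ * ‖h u‖ := by
    refine (norm_integral_le_integral_norm _).trans (le_of_eq ?_)
    simp
  gcongr

theorem continuous_hatw (w : ℝ → ℝ) (hw : Continuous w) (hc : HasCompactSupport w) :
    Continuous (hatw w) := by
  have hi : Integrable w := hw.integrable_of_hasCompactSupport hc
  refine continuous_of_dominated (bound := fun t => ‖w t‖) ?_ ?_ hi.norm ?_
  · intro u
    exact Continuous.aestronglyMeasurable (by fun_prop)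
  · intro u
    refine Eventually.of_forall fun t => ?_
    rw [norm_mul, show (t : ℂ) * u * I = ((t * u : ℝ) : ℂ) * I by push_cast; ring,
      Complex.norm_exp_ofReal_mul_I, mul_one, Complex.norm_real]
  · exact Eventually.of_forall fun t => by fun_prop

/-- the mollified density -/
noncomputable def fd {q : ℕ} (κ m B : ℕ) (ι : Finset ℕ) (c : ℕ → ℂ) (χ : DirichletCharacter ℂ q)
    (u : ℝ) : ℂ :=
  ∑ n ∈ ι, c n * χ n * dens κ m χ (u + Real.log n - Real.log (B * √q))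

theorem fd_measurable {q κ : ℕ} (hκ : κ ≤ 1) (m B : ℕ) (ι : Finset ℕ) (c : ℕ → ℂ)
    (χ : DirichletCharacter ℂ q) : Measurable (fd κ m B ι c χ) := by
  refine Finset.measurable_sum _ fun n _ => ?_
  exact ((dens_measurable hκ m χ).comp (by fun_prop)).const_mul _

noncomputable def Phi {q : ℕ} (κ m B : ℕ) (ι : Finset ℕ) (c : ℕ → ℂ) (χ : DirichletCharacter ℂ q)
    (u : ℝ) : ℝ :=
  2 * ‖dens κ m χ u - dens₁ κ u‖ ^ 2 + 8 * ‖fd κ m B ι c χ u‖ ^ 2

theorem Phi_nonneg {q : ℕ} (κ m B : ℕ) (ι : Finset ℕ) (c : ℕ → ℂ) (χ : DirichletCharacter ℂ q)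
    (u : ℝ) : 0 ≤ Phi κ m B ι c χ u := by
  unfold Phi; positivity

theorem Phi_measurable {q κ : ℕ} (hκ : κ ≤ 1) (m B : ℕ) (ι : Finset ℕ) (c : ℕ → ℂ)
    (χ : DirichletCharacter ℂ q) : Measurable (Phi κ m B ι c χ) := by
  unfold Phi
  refine ((((dens_measurable hκ m χ).sub (dens₁_measurable κ)).norm.pow_const 2).const_mul 2).add
    (((fd_measurable hκ m B ι c χ).norm.pow_const 2).const_mul 8)

/-- bounds for all `u` -/
theorem Phi_sum_le {κ m : ℕ} (hκ : κ ≤ 1) (hm : 0 < m) (ι : Finset ℕ) (c : ℕ → ℂ) :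
    ∃ C : ℝ, 0 ≤ C ∧ ∀ (q : ℕ) [NeZero q], 2 ≤ q → ∀ (B : ℕ) (u : ℝ),
      ∑ χ ∈ (Finset.univ.erase (1 : DirichletCharacter ℂ q)), Phi κ m B ι c χ u ≤
        C * q.totient := by
  obtain ⟨C, hC, h⟩ := meanA hκ hm
  obtain ⟨C₁, h₁⟩ := dens₁_bdd hκ
  refine ⟨4 * C + 4 * C₁ ^ 2 + 8 * ((∑ n ∈ ι, ‖c n‖ ^ 2) * (ι.card * C)), by positivity, ?_⟩
  intro q _ hq B u
  have hcard : ((Finset.univ.erase (1 : DirichletCharacter ℂ q)).card : ℝ) ≤ q.totient := by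
    have h2 : Fintype.card (DirichletCharacter ℂ q) = q.totient := by
      rw [← Nat.card_eq_fintype_card]
      exact DirichletCharacter.card_eq_totient_of_hasEnoughRootsOfUnity ℂ q
    rw [← h2]
    exact_mod_cast (Finset.card_le_univ _)
  have e1 : ∑ χ ∈ (Finset.univ.erase (1 : DirichletCharacter ℂ q)),
      ‖dens κ m χ u - dens₁ κ u‖ ^ 2 ≤ (2 * C + 2 * C₁ ^ 2) * q.totient := by
    calc ∑ χ ∈ (Finset.univ.erase (1 : DirichletCharacter ℂ q)), ‖dens κ m χ u - dens₁ κ u‖ ^ 2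
        ≤ ∑ χ ∈ (Finset.univ.erase (1 : DirichletCharacter ℂ q)),
          (2 * ‖dens κ m χ u‖ ^ 2 + 2 * C₁ ^ 2) := by
          refine Finset.sum_le_sum fun χ _ => ?_
          have a1 := norm_sub_le (dens κ m χ u) (dens₁ κ u)
          have a2 := h₁ u
          have a3 := norm_nonneg (dens₁ κ u)
          have a4 := norm_nonneg (dens κ m χ u - dens₁ κ u)
          have a5 : ‖dens κ m χ u - dens₁ κ u‖ ^ 2 ≤ (‖dens κ m χ u‖ + ‖dens₁ κ u‖) ^ 2 := by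
            gcongr
          have a6 : ‖dens₁ κ u‖ ^ 2 ≤ C₁ ^ 2 := by gcongr
          nlinarith [sq_nonneg (‖dens κ m χ u‖ - ‖dens₁ κ u‖)]
      _ = 2 * ∑ χ ∈ (Finset.univ.erase (1 : DirichletCharacter ℂ q)), ‖dens κ m χ u‖ ^ 2 +
          ((Finset.univ.erase (1 : DirichletCharacter ℂ q)).card : ℝ) * (2 * C₁ ^ 2) := by
          rw [Finset.sum_add_distrib, ← Finset.mul_sum, Finset.sum_const, nsmul_eq_mul]
      _ ≤ 2 * (C * q.totient) + (q.totient : ℝ) * (2 * C₁ ^ 2) := by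
          gcongr
          exact h q hq u
      _ = _ := by ring
  have e2 : ∑ χ ∈ (Finset.univ.erase (1 : DirichletCharacter ℂ q)),
      ‖fd κ m B ι c χ u‖ ^ 2 ≤ ((∑ n ∈ ι, ‖c n‖ ^ 2) * (ι.card * C)) * q.totient := by
    calc ∑ χ ∈ (Finset.univ.erase (1 : DirichletCharacter ℂ q)), ‖fd κ m B ι c χ u‖ ^ 2
        ≤ ∑ χ ∈ (Finset.univ.erase (1 : DirichletCharacter ℂ q)), (∑ n ∈ ι, ‖c n‖ ^ 2) *
          ∑ n ∈ ι, ‖dens κ m χ (u + Real.log n - Real.log (B * √q))‖ ^ 2 := by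
          refine Finset.sum_le_sum fun χ _ => ?_
          have b1 : ‖fd κ m B ι c χ u‖ ≤
              ∑ n ∈ ι, ‖c n‖ * ‖dens κ m χ (u + Real.log n - Real.log (B * √q))‖ := by
            refine (norm_sum_le _ _).trans (Finset.sum_le_sum fun n _ => ?_)
            rw [norm_mul, norm_mul]
            have := χ.norm_le_one (n : ZMod q)
            have b2 := norm_nonneg (c n)
            have b3 : ‖c n‖ * ‖χ n‖ ≤ ‖c n‖ := mul_le_of_le_one_right b2 this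
            gcongr
          calc ‖fd κ m B ι c χ u‖ ^ 2
              ≤ (∑ n ∈ ι, ‖c n‖ * ‖dens κ m χ (u + Real.log n - Real.log (B * √q))‖) ^ 2 := by
                gcongr
            _ ≤ _ := Finset.sum_mul_sq_le_sq_mul_sq _ _ _
      _ = (∑ n ∈ ι, ‖c n‖ ^ 2) * ∑ n ∈ ι,
          ∑ χ ∈ (Finset.univ.erase (1 : DirichletCharacter ℂ q)),
            ‖dens κ m χ (u + Real.log n - Real.log (B * √q))‖ ^ 2 := by
          rw [← Finset.mul_sum, Finset.sum_comm]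
      _ ≤ (∑ n ∈ ι, ‖c n‖ ^ 2) * ∑ n ∈ ι, C * q.totient := by
          refine mul_le_mul_of_nonneg_left (Finset.sum_le_sum fun n _ => h q hq _)
            (by positivity)
      _ = _ := by
          rw [Finset.sum_const, nsmul_eq_mul]; ring
  unfold Phi
  rw [Finset.sum_add_distrib, ← Finset.mul_sum, ← Finset.mul_sum]
  calc _ ≤ 2 * ((2 * C + 2 * C₁ ^ 2) * q.totient) +
        8 * (((∑ n ∈ ι, ‖c n‖ ^ 2) * (ι.card * C)) * q.totient) := by
        gcongr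
    _ = _ := by ring

/-- the weights -/
structure Wt (κ : ℕ) (a b : ℝ) where
  w : ℝ → ℝ
  hwc : Continuous w
  hcs : HasCompactSupport w
  hw0 : ∀ t, 0 ≤ w t
  hws : ∀ t, t ∉ Set.Ioo a b → w t = 0
  hJ : (∫ t : ℝ, (w t : ℂ) * Gammaℝ (1 / 2 + κ + t * I)) ≠ 0
  hint : Integrable (hatw w)

/-- the bad set for one interval and one parity: the phase of `q^{it/2} Λ(1/2+it, χ)` is constant on
`(a, b)` -/
def IsBad {q : ℕ} [NeZero q] (κ : ℕ) (a b : ℝ) (χ : DirichletCharacter ℂ q) : Prop :=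
  χ.IsPrimitive ∧ ((κ = 0 ∧ χ.Even) ∨ (κ = 1 ∧ χ.Odd)) ∧
    ∃ θ : ℂ, ‖θ‖ = 1 ∧ ∀ t ∈ Set.Ioo a b,
      (q : ℂ) ^ ((t : ℂ) * I / 2) * DirichletCharacter.completedLFunction χ (1 / 2 + t * I) =
        θ * ‖DirichletCharacter.completedLFunction χ (1 / 2 + t * I)‖

theorem IsBad.ne_one {q : ℕ} [NeZero q] (hq : 2 ≤ q) {κ : ℕ} {a b : ℝ}
    {χ : DirichletCharacter ℂ q} (h : IsBad κ a b χ) : χ ≠ 1 := by
  rintro rfl
  have h1 := h.1
  rw [DirichletCharacter.isPrimitive_def, DirichletCharacter.conductor_one] at h1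
  omega

theorem bad_ineq {κ : ℕ} {a b : ℝ} (W : Wt κ a b) {q : ℕ} [NeZero q] (hq : 2 ≤ q)
    (χ : DirichletCharacter ℂ q) (hχ : IsBad κ a b χ) {m : ℕ} (hm : 0 < m) {B : ℕ} (hB : 0 < B)
    (ι : Finset ℕ) (c : ℕ → ℂ) (hι : ∀ n ∈ ι, 0 < n)
    (happ : ∀ x : ℕ →* ℂ, (∀ p ∈ m.primeFactors.filter (fun p => ¬ p ∣ q), ‖x p‖ = 1) →
        ‖starRingEnd ℂ (x B) * ∑ n ∈ ι, c n * x n -
          ∏ p ∈ m.primeFactors.filter (fun p => ¬ p ∣ q),
            (starRingEnd ℂ (1 - (((√p)⁻¹ : ℝ) : ℂ) * x p) /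
              ‖1 - (((√p)⁻¹ : ℝ) : ℂ) * x p‖)‖ ≤ 1 / 2) :
    ‖∫ t : ℝ, (W.w t : ℂ) * Gammaℝ (1 / 2 + κ + t * I)‖ ^ 2 ≤
      (∫ u, ‖hatw W.w u‖) * ∫ u, Phi κ m B ι c χ u * ‖hatw W.w u‖ := by
  have hκ1 : κ ≤ 1 := by
    rcases hχ.2.1 with h | h <;> omega
  have hχ1 := hχ.ne_one hq
  -- boundedness
  obtain ⟨C, hC, hCb⟩ := Phi_sum_le hκ1 hm ι c
  obtain ⟨C₁, h₁⟩ := dens₁_bdd hκ1
  have hPhi : ∀ u, Phi κ m B ι c χ u ≤ C * q.totient := by
    intro u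
    refine le_trans ?_ (hCb q hq B u)
    exact Finset.single_le_sum (f := fun χ => Phi κ m B ι c χ u)
      (fun i _ => Phi_nonneg κ m B ι c i u)
      (Finset.mem_erase.mpr ⟨hχ1, Finset.mem_univ _⟩)
  set K : ℝ := C * q.totient with hK
  have hK0 : 0 ≤ K := by positivity
  have hb1 : ∀ u, ‖dens κ m χ u - dens₁ κ u‖ ≤ √K := by
    intro u
    apply Real.le_sqrt_of_sq_le
    have := hPhi u
    unfold Phi at this
    nlinarith [sq_nonneg ‖dens κ m χ u - dens₁ κ u‖, sq_nonneg ‖fd κ m B ι c χ u‖]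
  have hb2 : ∀ u, ‖fd κ m B ι c χ u‖ ≤ √K := by
    intro u
    apply Real.le_sqrt_of_sq_le
    have := hPhi u
    unfold Phi at this
    nlinarith [sq_nonneg ‖dens κ m χ u - dens₁ κ u‖, sq_nonneg ‖fd κ m B ι c χ u‖]
  have hm1 : Measurable (fun u => dens κ m χ u - dens₁ κ u) :=
    (dens_measurable hκ1 m χ).sub (dens₁_measurable κ)
  have hm2 := fd_measurable hκ1 m B ι c χ
  have i1 := cs' hm1 hb1 W.hint
  have i2 := cs' hm2 hb2 W.hint
  have hkey := key hq χ hχ.1 κ hχ.2.1 hm hχ.2.2 W.w W.hwc W.hcs W.hw0 W.hws hB ι c hι happ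
  obtain ⟨hgi, hgr⟩ := gam κ
  obtain ⟨hdi, _⟩ := repm χ hχ1 κ hχ.2.1 hm
  have hJ : ∫ t : ℝ, (W.w t : ℂ) * Gammaℝ (1 / 2 + κ + t * I) =
      ∫ u : ℝ, dens₁ κ u * hatw W.w u := by
    rw [← flip W.w W.hwc W.hcs _ hgi]
    simp_rw [hgr]
  have hbd : ∃ M, ∀ u, ‖hatw W.w u‖ ≤ M := by
    refine ⟨∫ t, ‖(W.w t : ℂ)‖, fun u => ?_⟩
    refine (norm_integral_le_integral_norm _).trans (le_of_eq ?_)
    refine integral_congr_ae (Eventually.of_forall fun t => ?_)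
    simp only [norm_mul]
    rw [show (t : ℂ) * u * I = ((t * u : ℝ) : ℂ) * I by push_cast; ring,
      Complex.norm_exp_ofReal_mul_I, mul_one]
  obtain ⟨M, hM⟩ := hbd
  have hmeas : AEStronglyMeasurable (hatw W.w) volume :=
    (continuous_hatw W.w W.hwc W.hcs).aestronglyMeasurable
  have j1 : Integrable (fun u => dens₁ κ u * hatw W.w u) :=
    hgi.mul_bdd (c := M) hmeas (Eventually.of_forall hM)
  have j2 : Integrable (fun u => dens κ m χ u * hatw W.w u) :=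
    hdi.mul_bdd (c := M) hmeas (Eventually.of_forall hM)
  have hsplit : ∫ u : ℝ, dens₁ κ u * hatw W.w u =
      (∫ u : ℝ, dens κ m χ u * hatw W.w u) -
        ∫ u : ℝ, (dens κ m χ u - dens₁ κ u) * hatw W.w u := by
    rw [← integral_sub j2]
    · congr 1; funext u; ring
    · have : (fun u => (dens κ m χ u - dens₁ κ u) * hatw W.w u) =
          fun u => dens κ m χ u * hatw W.w u - dens₁ κ u * hatw W.w u := by
        funext u; ring
      rw [this]; exact j2.sub j1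
  rw [hJ, hsplit]
  have n1 : ‖(∫ u : ℝ, dens κ m χ u * hatw W.w u) -
        ∫ u : ℝ, (dens κ m χ u - dens₁ κ u) * hatw W.w u‖ ≤
      2 * ‖∫ u : ℝ, fd κ m B ι c χ u * hatw W.w u‖ +
        ‖∫ u : ℝ, (dens κ m χ u - dens₁ κ u) * hatw W.w u‖ := by
    refine (norm_sub_le _ _).trans ?_
    gcongr
    exact hkey
  have hWn : Integrable (fun u => ‖hatw W.w u‖) := W.hint.norm
  have k1 : Integrable (fun u => ‖dens κ m χ u - dens₁ κ u‖ ^ 2 * ‖hatw W.w u‖) := by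
    refine hWn.bdd_mul (c := K) (hm1.norm.pow_const 2).aestronglyMeasurable
      (Eventually.of_forall fun u => ?_)
    have := hb1 u
    simp only [norm_pow, norm_norm]
    calc ‖dens κ m χ u - dens₁ κ u‖ ^ 2 ≤ (√K) ^ 2 := by gcongr
      _ = K := Real.sq_sqrt hK0
  have k2 : Integrable (fun u => ‖fd κ m B ι c χ u‖ ^ 2 * ‖hatw W.w u‖) := by
    refine hWn.bdd_mul (c := K) (hm2.norm.pow_const 2).aestronglyMeasurable
      (Eventually.of_forall fun u => ?_)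
    have := hb2 u
    simp only [norm_pow, norm_norm]
    calc ‖fd κ m B ι c χ u‖ ^ 2 ≤ (√K) ^ 2 := by gcongr
      _ = K := Real.sq_sqrt hK0
  have hPi : ∫ u, Phi κ m B ι c χ u * ‖hatw W.w u‖ =
      2 * (∫ u, ‖dens κ m χ u - dens₁ κ u‖ ^ 2 * ‖hatw W.w u‖) +
        8 * ∫ u, ‖fd κ m B ι c χ u‖ ^ 2 * ‖hatw W.w u‖ := by
    rw [← integral_const_mul, ← integral_const_mul, ← integral_add (k1.const_mul _)
      (k2.const_mul _)]
    congr 1
    funext u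
    unfold Phi
    ring
  rw [hPi]
  set a1 := ‖∫ u : ℝ, fd κ m B ι c χ u * hatw W.w u‖
  set a2 := ‖∫ u : ℝ, (dens κ m χ u - dens₁ κ u) * hatw W.w u‖
  have n2 : ‖(∫ u : ℝ, dens κ m χ u * hatw W.w u) -
        ∫ u : ℝ, (dens κ m χ u - dens₁ κ u) * hatw W.w u‖ ^ 2 ≤ (2 * a1 + a2) ^ 2 := by
    gcongr
  have n3 : (2 * a1 + a2) ^ 2 ≤ 2 * a2 ^ 2 + 8 * a1 ^ 2 := by nlinarith [sq_nonneg (2 * a1 - a2)]
  have hAn : 0 ≤ ∫ u, ‖hatw W.w u‖ := integral_nonneg fun u => norm_nonneg _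
  calc _ ≤ 2 * a2 ^ 2 + 8 * a1 ^ 2 := n2.trans n3
    _ ≤ 2 * ((∫ u, ‖hatw W.w u‖) * ∫ u, ‖dens κ m χ u - dens₁ κ u‖ ^ 2 * ‖hatw W.w u‖) +
        8 * ((∫ u, ‖hatw W.w u‖) * ∫ u, ‖fd κ m B ι c χ u‖ ^ 2 * ‖hatw W.w u‖) := by
        gcongr
    _ = _ := by ring

end Pool.Agent.GRH
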