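import Pool.Agent.Lib_helper24.GRH.Limit

namespace Pool.Agent.GRH

open Complex MeasureTheory Filter Topology
open scoped ENNReal

theorem exists_moll : ∃ (B : Finset ℕ → ℕ) (ι : Finset ℕ → Finset ℕ) (c : Finset ℕ → ℕ → ℂ),
    ∀ S : Finset ℕ, (∀ p ∈ S, p.Prime) → 0 < B S ∧
      (∀ n ∈ ι S, 0 < n ∧ n.primeFactors ⊆ S) ∧ ∑ n ∈ ι S, ‖c S n‖ ^ 2 ≤ 9 / 4 ∧
      ∀ x : ℕ →* ℂ, (∀ p ∈ S, ‖x p‖ = 1) →
        ‖starRingEnd ℂ (x (B S)) * ∑ n ∈ ι S, c S n * x n -
          ∏ p ∈ S, (starRingEnd ℂ (1 - (((√p)⁻¹ : ℝ) : ℂ) * x p) /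
            ‖1 - (((√p)⁻¹ : ℝ) : ℂ) * x p‖)‖ ≤ 1 / 2 := by
  have h : ∀ S : Finset ℕ, ∃ (B : ℕ) (ι : Finset ℕ) (c : ℕ → ℂ), (∀ p ∈ S, p.Prime) → 0 < B ∧
      (∀ n ∈ ι, 0 < n ∧ n.primeFactors ⊆ S) ∧ ∑ n ∈ ι, ‖c n‖ ^ 2 ≤ 9 / 4 ∧
      ∀ x : ℕ →* ℂ, (∀ p ∈ S, ‖x p‖ = 1) →
        ‖starRingEnd ℂ (x B) * ∑ n ∈ ι, c n * x n -
          ∏ p ∈ S, (starRingEnd ℂ (1 - (((√p)⁻¹ : ℝ) : ℂ) * x p) /
            ‖1 - (((√p)⁻¹ : ℝ) : ℂ) * x p‖)‖ ≤ 1 / 2 := by
    intro S
    by_cases hS : ∀ p ∈ S, p.Prime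
    · obtain ⟨B, ι, c, h1, _, h2, h3, h4⟩ := approx S hS (fun p => (√p)⁻¹) (by
        intro p hp
        refine ⟨by positivity, ?_⟩
        have h2 : (1 : ℝ) < p := by exact_mod_cast (hS p hp).one_lt
        have h3 : 1 < √(p : ℝ) := by
          rw [show (1 : ℝ) = √1 by simp]
          exact Real.sqrt_lt_sqrt (by norm_num) h2
        exact inv_lt_one_of_one_lt₀ h3) (1 / 2) (by norm_num)
      refine ⟨B, ι, c, fun _ => ⟨h1, h2, ?_, h4⟩⟩
      norm_num at h3 ⊢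
      exact h3
    · exact ⟨0, ∅, 0, fun h => absurd h hS⟩
  choose B ι c h using h
  exact ⟨B, ι, c, h⟩

open Classical in
theorem limit_m {κ : ℕ} (hκ : κ ≤ 1) {a b : ℝ} (W : Wt κ a b) {m P : ℕ} (hm : 0 < m)
    (hP : ∀ p : ℕ, p.Prime → p ≤ P → p ∣ m) {δ : ℝ} (hδ : 0 < δ) :
    ∃ Q : ℕ, ∀ (q : ℕ) [NeZero q], 2 ≤ q → Q ≤ q →
      ((Finset.univ.filter (fun χ : DirichletCharacter ℂ q => IsBad κ a b χ)).card : ℝ) *
        ‖∫ t : ℝ, (W.w t : ℂ) * Gammaℝ (1 / 2 + κ + t * I)‖ ^ 2 ≤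
      q.totient * ((∫ u, ‖hatw W.w u‖) *
        (∫ u, (2 * ell κ P u + 36 * Real.pi * ((m.totient : ℝ) / m)) * ‖hatw W.w u‖) + δ) := by
  obtain ⟨B, ι, c, hmoll⟩ := exists_moll
  set A := ∫ u, ‖hatw W.w u‖ with hA
  have hA0 : 0 ≤ A := integral_nonneg fun u => norm_nonneg _
  set D : ℝ := (m.totient : ℝ) / m with hD
  set Sq : ℕ → Finset ℕ := fun q => m.primeFactors.filter (fun p => ¬ p ∣ q) with hSq
  have hSqp : ∀ q, ∀ p ∈ Sq q, p.Prime := fun q p hp =>
    Nat.prime_of_mem_primeFactors (Finset.mem_filter.mp hp).1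
  have hSqs : ∀ q, Sq q ⊆ m.primeFactors := fun q => Finset.filter_subset _ _
  have hWn : Integrable (fun u => ‖hatw W.w u‖) := W.hint.norm
  -- the function Ψ
  set Ψ : ℕ → ℝ → ℝ := fun n u =>
    (∑ χ ∈ (Finset.univ.erase (1 : DirichletCharacter ℂ (n + 2))),
      Phi κ m (B (Sq (n + 2))) (ι (Sq (n + 2))) (c (Sq (n + 2))) χ u) / ((n + 2).totient : ℝ)
    with hΨ
  have htot : ∀ n : ℕ, (0 : ℝ) < (n + 2).totient := fun n => by
    exact_mod_cast Nat.totient_pos.mpr (by omega)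
  have hΨ0 : ∀ n u, 0 ≤ Ψ n u := fun n u =>
    div_nonneg (Finset.sum_nonneg fun χ _ => Phi_nonneg _ _ _ _ _ _ _) (htot n).le
  have hΨm : ∀ n, Measurable (Ψ n) := fun n => by
    refine Measurable.div_const (Finset.measurable_sum _ fun χ _ => ?_) _
    exact Phi_measurable hκ _ _ _ _ _
  -- uniform bound
  have hCS : ∀ S : Finset ℕ, ∃ C : ℝ, 0 ≤ C ∧ ∀ (q : ℕ) [NeZero q], 2 ≤ q → ∀ (B : ℕ) (u : ℝ),
      ∑ χ ∈ (Finset.univ.erase (1 : DirichletCharacter ℂ q)), Phi κ m B (ι S) (c S) χ u ≤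
        C * q.totient := fun S => Phi_sum_le hκ hm (ι S) (c S)
  choose CS hCS0 hCS using hCS
  set C : ℝ := ∑ S ∈ m.primeFactors.powerset, CS S with hC
  have hΨC : ∀ n u, Ψ n u ≤ C := by
    intro n u
    rw [hΨ]
    simp only
    rw [div_le_iff₀ (htot n)]
    refine (hCS (Sq (n + 2)) (n + 2) (by omega) _ u).trans ?_
    refine mul_le_mul_of_nonneg_right ?_ (htot n).le
    exact Finset.single_le_sum (f := CS) (fun S _ => hCS0 S)
      (Finset.mem_powerset.mpr (hSqs _))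
  -- pointwise bound
  have hpt : ∀ u : ℝ, ∃ e : ℕ → ℝ, Tendsto e atTop (𝓝 0) ∧ ∀ n,
      Ψ n u ≤ (2 * ell κ P u + 36 * Real.pi * D) + e n := by
    intro u
    obtain ⟨eC, heC, hCq⟩ := meanC hκ hm hP u
    have hB : ∀ S : Finset ℕ, ∃ err : ℕ → ℝ, Tendsto err atTop (𝓝 0) ∧
        (S ⊆ m.primeFactors → ∀ (q : ℕ) [NeZero q], 2 ≤ q →
        ∑ χ : DirichletCharacter ℂ q, ‖fd κ m (B S) (ι S) (c S) χ u‖ ^ 2 ≤
        q.totient * (2 * Real.pi * D * ∑ n ∈ ι S, ‖c S n‖ ^ 2 + err q)) := by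
      intro S
      by_cases hS : S ⊆ m.primeFactors
      · have hSp : ∀ p ∈ S, p.Prime := fun p hp => Nat.prime_of_mem_primeFactors (hS hp)
        obtain ⟨h1, h2, h3, h4⟩ := hmoll S hSp
        obtain ⟨err, he, hq⟩ := meanB hκ hm h1 (ι S) (c S)
          (fun n hn => ⟨(h2 n hn).1, (h2 n hn).2.trans hS⟩) u
        exact ⟨err, he, fun _ q _ h => hq q h⟩
      · exact ⟨fun _ => 0, tendsto_const_nhds, fun h => absurd h hS⟩
    choose eB heB hBq using hB
    refine ⟨fun n => 2 * eC (n + 2) + 8 * ∑ S ∈ m.primeFactors.powerset, |eB S (n + 2)|, ?_, ?_⟩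
    · have t1 : Tendsto (fun n => 2 * eC (n + 2)) atTop (𝓝 (2 * 0)) :=
        ((tendsto_add_atTop_iff_nat 2).mpr heC).const_mul 2
      have t2 : Tendsto (fun n => 8 * ∑ S ∈ m.primeFactors.powerset, |eB S (n + 2)|) atTop
          (𝓝 (8 * ∑ S ∈ m.primeFactors.powerset, |(0 : ℝ)|)) := by
        refine (tendsto_finsetSum _ fun S _ => ?_).const_mul 8
        exact ((tendsto_add_atTop_iff_nat 2).mpr (heB S)).abs
      simpa using t1.add t2
    · intro n
      rw [hΨ]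
      simp only
      rw [div_le_iff₀ (htot n)]
      unfold Phi
      rw [Finset.sum_add_distrib, ← Finset.mul_sum, ← Finset.mul_sum]
      have s1 : ∑ χ ∈ (Finset.univ.erase (1 : DirichletCharacter ℂ (n + 2))),
          ‖dens κ m χ u - dens₁ κ u‖ ^ 2 ≤ ((n + 2).totient : ℝ) * (ell κ P u + eC (n + 2)) := by
        refine le_trans ?_ (hCq (n + 2) (by omega))
        exact Finset.sum_le_sum_of_subset_of_nonneg (Finset.erase_subset _ _)
          (fun _ _ _ => by positivity)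
      have s2 : ∑ χ ∈ (Finset.univ.erase (1 : DirichletCharacter ℂ (n + 2))),
          ‖fd κ m (B (Sq (n + 2))) (ι (Sq (n + 2))) (c (Sq (n + 2))) χ u‖ ^ 2 ≤
          ((n + 2).totient : ℝ) * (2 * Real.pi * D * (9 / 4) +
            ∑ S ∈ m.primeFactors.powerset, |eB S (n + 2)|) := by
        have r1 : ∑ χ ∈ (Finset.univ.erase (1 : DirichletCharacter ℂ (n + 2))),
          ‖fd κ m (B (Sq (n + 2))) (ι (Sq (n + 2))) (c (Sq (n + 2))) χ u‖ ^ 2 ≤
          ∑ χ : DirichletCharacter ℂ (n + 2),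
          ‖fd κ m (B (Sq (n + 2))) (ι (Sq (n + 2))) (c (Sq (n + 2))) χ u‖ ^ 2 :=
          Finset.sum_le_sum_of_subset_of_nonneg (Finset.erase_subset _ _)
          (fun _ _ _ => by positivity)
        refine (r1.trans (hBq (Sq (n + 2)) (hSqs _) (n + 2) (by omega))).trans ?_
        refine mul_le_mul_of_nonneg_left ?_ (htot n).le
        have r2 := (hmoll (Sq (n + 2)) (hSqp _)).2.2.1
        have r3 : |eB (Sq (n + 2)) (n + 2)| ≤ ∑ S ∈ m.primeFactors.powerset, |eB S (n + 2)| :=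
          Finset.single_le_sum (f := fun S => |eB S (n + 2)|) (fun S _ => abs_nonneg _)
            (Finset.mem_powerset.mpr (hSqs _))
        have r4 := le_abs_self (eB (Sq (n + 2)) (n + 2))
        have hD0 : 0 ≤ D := by positivity
        have r5 : 2 * Real.pi * D * ∑ n_1 ∈ ι (Sq (n + 2)), ‖c (Sq (n + 2)) n_1‖ ^ 2 ≤
            2 * Real.pi * D * (9 / 4) := by
          gcongr
        linarith
      calc _ ≤ 2 * (((n + 2).totient : ℝ) * (ell κ P u + eC (n + 2))) +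
            8 * (((n + 2).totient : ℝ) * (2 * Real.pi * D * (9 / 4) +
            ∑ S ∈ m.primeFactors.powerset, |eB S (n + 2)|)) := by
            gcongr
        _ = _ := by ring
  -- reverse Fatou
  set R : ℝ := ∫ u, (2 * ell κ P u + 36 * Real.pi * D) * ‖hatw W.w u‖ with hR
  have hlim0 : ∀ u, 0 ≤ 2 * ell κ P u + 36 * Real.pi * D := by
    intro u
    have := ell_nonneg κ P u
    positivity
  have hRi : Integrable (fun u => (2 * ell κ P u + 36 * Real.pi * D) * ‖hatw W.w u‖) := by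
    refine hWn.bdd_mul (c := 2 * (2 * Real.pi) + 36 * Real.pi * D) ?_
      (Eventually.of_forall fun u => ?_)
    · exact (((ell_measurable hκ P).const_mul 2).add_const _).aestronglyMeasurable
    · rw [Real.norm_of_nonneg (hlim0 u)]
      have := ell_le hκ P u
      gcongr
  have hR0 : 0 ≤ R := integral_nonneg fun u => mul_nonneg (hlim0 u) (norm_nonneg _)
  have hcm : Measurable (fun u => ‖hatw W.w u‖) :=
    (continuous_hatw W.w W.hwc W.hcs).measurable.norm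
  have hfatou : limsup (fun n => ∫⁻ u, ENNReal.ofReal (Ψ n u * ‖hatw W.w u‖)) atTop ≤
      ENNReal.ofReal R := by
    refine (limsup_lintegral_le (fun u => ENNReal.ofReal (C * ‖hatw W.w u‖)) ?_ ?_ ?_).trans ?_
    · intro n
      exact ((hΨm n).mul hcm).ennreal_ofReal
    · intro n
      refine Eventually.of_forall fun u => ?_
      exact ENNReal.ofReal_le_ofReal (mul_le_mul_of_nonneg_right (hΨC n u) (norm_nonneg _))
    · exact (hWn.const_mul C).lintegral_lt_top.ne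
    · rw [hR, ofReal_integral_eq_lintegral_ofReal hRi (Eventually.of_forall fun u =>
        mul_nonneg (hlim0 u) (norm_nonneg _))]
      refine lintegral_mono fun u => ?_
      obtain ⟨e, he, hle⟩ := hpt u
      have t1 : Tendsto (fun n => ENNReal.ofReal
          (((2 * ell κ P u + 36 * Real.pi * D) + e n) * ‖hatw W.w u‖)) atTop
          (𝓝 (ENNReal.ofReal (((2 * ell κ P u + 36 * Real.pi * D) + 0) * ‖hatw W.w u‖))) :=
        ENNReal.tendsto_ofReal ((tendsto_const_nhds.add he).mul_const _)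
      rw [add_zero] at t1
      rw [← t1.limsup_eq]
      refine limsup_le_limsup (Eventually.of_forall fun n => ?_)
      exact ENNReal.ofReal_le_ofReal (mul_le_mul_of_nonneg_right (hle n) (norm_nonneg _))
  have hδ' : 0 < δ / (A + 1) := by positivity
  have hev : ∀ᶠ n in atTop, ∫⁻ u, ENNReal.ofReal (Ψ n u * ‖hatw W.w u‖) <
      ENNReal.ofReal (R + δ / (A + 1)) := by
    refine eventually_lt_of_limsup_lt (lt_of_le_of_lt hfatou ?_)
    exact (ENNReal.ofReal_lt_ofReal_iff (by positivity)).mpr (by linarith)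
  obtain ⟨N, hN⟩ := eventually_atTop.mp hev
  refine ⟨N + 2, fun q _ hq hQ => ?_⟩
  obtain ⟨n, rfl⟩ : ∃ n, q = n + 2 := ⟨q - 2, by omega⟩
  have hn := hN n (by omega)
  have hΨi : Integrable (fun u => Ψ n u * ‖hatw W.w u‖) := by
    refine hWn.bdd_mul (c := C) (hΨm n).aestronglyMeasurable (Eventually.of_forall fun u => ?_)
    rw [Real.norm_of_nonneg (hΨ0 n u)]
    exact hΨC n u
  rw [← ofReal_integral_eq_lintegral_ofReal hΨi (Eventually.of_forall fun u =>
    mul_nonneg (hΨ0 n u) (norm_nonneg _)), ENNReal.ofReal_lt_ofReal_iff (by positivity)] at hn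
  -- sum the inequality over bad characters
  obtain ⟨m1, m2, m3, m4⟩ := hmoll (Sq (n + 2)) (hSqp _)
  have hPhii : ∀ χ ∈ (Finset.univ.erase (1 : DirichletCharacter ℂ (n + 2))),
      Integrable (fun u => Phi κ m (B (Sq (n + 2))) (ι (Sq (n + 2))) (c (Sq (n + 2))) χ u *
        ‖hatw W.w u‖) := by
    intro χ hχ
    refine hWn.bdd_mul (c := C * (n + 2).totient)
      (Phi_measurable hκ _ _ _ _ _).aestronglyMeasurable (Eventually.of_forall fun u => ?_)
    rw [Real.norm_of_nonneg (Phi_nonneg _ _ _ _ _ _ _)]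
    have h1 := hΨC n u
    rw [hΨ] at h1
    simp only at h1
    rw [div_le_iff₀ (htot n)] at h1
    refine le_trans ?_ h1
    exact Finset.single_le_sum (f := fun χ =>
      Phi κ m (B (Sq (n + 2))) (ι (Sq (n + 2))) (c (Sq (n + 2))) χ u)
      (fun i _ => Phi_nonneg _ _ _ _ _ _ _) hχ
  have hsub : (Finset.univ.filter (fun χ : DirichletCharacter ℂ (n + 2) => IsBad κ a b χ)) ⊆
      Finset.univ.erase 1 := by
    intro χ hχ
    exact Finset.mem_erase.mpr ⟨(Finset.mem_filter.mp hχ).2.ne_one hq, Finset.mem_univ _⟩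
  calc ((Finset.univ.filter (fun χ : DirichletCharacter ℂ (n + 2) => IsBad κ a b χ)).card : ℝ) *
        ‖∫ t : ℝ, (W.w t : ℂ) * Gammaℝ (1 / 2 + κ + t * I)‖ ^ 2
      = ∑ χ ∈ (Finset.univ.filter (fun χ : DirichletCharacter ℂ (n + 2) => IsBad κ a b χ)),
        ‖∫ t : ℝ, (W.w t : ℂ) * Gammaℝ (1 / 2 + κ + t * I)‖ ^ 2 := by
        rw [Finset.sum_const, nsmul_eq_mul]
    _ ≤ ∑ χ ∈ (Finset.univ.filter (fun χ : DirichletCharacter ℂ (n + 2) => IsBad κ a b χ)),
        A * ∫ u, Phi κ m (B (Sq (n + 2))) (ι (Sq (n + 2))) (c (Sq (n + 2))) χ u *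
          ‖hatw W.w u‖ := by
        refine Finset.sum_le_sum fun χ hχ => ?_
        exact bad_ineq W hq χ (Finset.mem_filter.mp hχ).2 hm m1 _ _ (fun n hn => (m2 n hn).1) m4
    _ ≤ ∑ χ ∈ (Finset.univ.erase (1 : DirichletCharacter ℂ (n + 2))),
        A * ∫ u, Phi κ m (B (Sq (n + 2))) (ι (Sq (n + 2))) (c (Sq (n + 2))) χ u *
          ‖hatw W.w u‖ := by
        refine Finset.sum_le_sum_of_subset_of_nonneg hsub fun χ _ _ => ?_
        exact mul_nonneg hA0 (integral_nonneg fun u =>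
          mul_nonneg (Phi_nonneg _ _ _ _ _ _ _) (norm_nonneg _))
    _ = A * (((n + 2).totient : ℝ) * ∫ u, Ψ n u * ‖hatw W.w u‖) := by
        rw [← Finset.mul_sum, ← integral_finsetSum _ hPhii]
        congr 1
        rw [← integral_const_mul]
        congr 1
        funext u
        rw [hΨ]
        simp only
        rw [← Finset.sum_mul]
        have := (htot n).ne'
        field_simp
    _ ≤ A * (((n + 2).totient : ℝ) * (R + δ / (A + 1))) := by
        refine mul_le_mul_of_nonneg_left ?_ hA0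
        exact mul_le_mul_of_nonneg_left hn.le (htot n).le
    _ = ((n + 2).totient : ℝ) * (A * R + A * (δ / (A + 1))) := by ring
    _ ≤ ((n + 2).totient : ℝ) * (A * R + δ) := by
        have : A * (δ / (A + 1)) ≤ δ := by
          rw [mul_div_assoc', div_le_iff₀ (by positivity)]
          nlinarith
        have h2 := (htot n).le
        gcongr

end Pool.Agent.GRH
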