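import Pool.Agent.Lib_helper24.GRH.GAM

/-!
# MP_77948b_nt, block REP (helper60)

Mellin representation of completed Dirichlet L-functions on the critical line, through the
kernels of the Hurwitz zeta functions (no contour shift and no Abel summation: for a nontrivial
character the constant terms of the kernels at `0` and `∞` cancel in the sum over residues).
-/

namespace Pool.Agent.GRH

open Complex MeasureTheory Filter Topology Set HurwitzZeta

namespace RepAux

/-- Summation over residue classes. -/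
lemma class_sum {N : ℕ} [NeZero N] (Φ : ZMod N → ℂ) (f : ℤ → ℂ) (S : ZMod N → ℂ)
    (h : ∀ j : ZMod N, HasSum (fun n : ℤ => f (n * N + j.val)) (S j)) :
    HasSum (fun k : ℤ => Φ k * f k) (∑ j, Φ j * S j) := by
  have hN : (N : ℤ) ≠ 0 := by exact_mod_cast NeZero.ne N
  have h1 : ∀ j : ZMod N, HasSum (fun k : ℤ => if (k : ZMod N) = j then Φ j * f k else 0)
      (Φ j * S j) := by
    intro j
    have hinj : Function.Injective (fun n : ℤ => n * N + j.val) := by
      intro a b hab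
      have h2 : a * (N : ℤ) = b * N := by
        have : a * (N : ℤ) + (j.val : ℤ) = b * N + (j.val : ℤ) := hab
        linarith
      exact mul_right_cancel₀ hN h2
    rw [← hinj.hasSum_iff]
    · have h3 := (h j).mul_left (Φ j)
      refine h3.congr_fun fun n => ?_
      simp
    · intro k hk
      rw [if_neg]
      intro hkj
      apply hk
      refine ⟨(k - j.val) / N, ?_⟩
      have hdvd : (N : ℤ) ∣ k - j.val := by
        rw [← ZMod.intCast_zmod_eq_zero_iff_dvd, Int.cast_sub, hkj]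
        simp
      change (k - j.val) / N * N + j.val = k
      rw [Int.ediv_mul_cancel hdvd]
      ring
  have h2 := hasSum_sum (s := Finset.univ) fun j _ => h1 j
  refine h2.congr_fun fun k => ?_
  simp

lemma nat_of_int (g : ℤ → ℂ) (a : ℂ) (h : HasSum g a) (h0 : g 0 = 0)
    (hev : ∀ n : ℤ, g (-n) = g n) : HasSum (fun n : ℕ => 2 * g n) a := by
  have h1 := h.nat_add_neg
  rw [h0, add_zero] at h1
  refine h1.congr_fun fun n => ?_
  rw [hev, two_mul]

/-- Mellin transform of a finite linear combination. -/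
lemma mellin_lin {ι : Type*} [Fintype ι] (c : ι → ℂ) (M : ι → ℝ → ℂ) (z : ℂ)
    (h : ∀ i, MellinConvergent (M i) z) :
    MellinConvergent (fun t => ∑ i, c i * M i t) z ∧
      mellin (fun t => ∑ i, c i * M i t) z = ∑ i, c i * mellin (M i) z := by
  have h1 : ∀ t : ℝ, (t : ℂ) ^ (z - 1) • (∑ i, c i * M i t) =
      ∑ i, c i * ((t : ℂ) ^ (z - 1) • M i t) := by
    intro t
    rw [smul_eq_mul, Finset.mul_sum]
    refine Finset.sum_congr rfl fun i _ => ?_
    rw [smul_eq_mul]
    ring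
  have h2 : ∀ i, IntegrableOn (fun t : ℝ => c i * ((t : ℂ) ^ (z - 1) • M i t)) (Ioi 0) :=
    fun i => (h i).const_mul (c i)
  constructor
  · rw [MellinConvergent]
    simp only [h1]
    exact integrable_finsetSum _ fun i _ => h2 i
  · rw [mellin]
    simp only [h1]
    rw [integral_finsetSum _ fun i _ => h2 i]
    refine Finset.sum_congr rfl fun i _ => ?_
    rw [integral_const_mul, mellin]

lemma mellin_congr_ne_one (F M : ℝ → ℂ) (z : ℂ) (h : ∀ t : ℝ, 0 < t → t ≠ 1 → F t = M t)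
    (hM : MellinConvergent M z) : MellinConvergent F z ∧ mellin F z = mellin M z := by
  have h1 : ∀ᵐ t : ℝ ∂(volume.restrict (Ioi 0)), (t : ℂ) ^ (z - 1) • M t =
      (t : ℂ) ^ (z - 1) • F t := by
    rw [ae_restrict_iff' measurableSet_Ioi]
    have h2 : ∀ᵐ t : ℝ, t ≠ 1 := by
      simp [ae_iff, measure_singleton]
    filter_upwards [h2] with t ht1 ht0
    rw [h t ht0 ht1]
  constructor
  · exact Integrable.congr hM h1
  · rw [mellin, mellin]
    exact integral_congr_ae (h1.mono fun t ht => ht.symm)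

lemma char_zero {q : ℕ} [NeZero q] (χ : DirichletCharacter ℂ q) (hχ : χ ≠ 1) :
    χ (0 : ZMod q) = 0 := by
  apply DirichletCharacter.map_zero'
  intro h
  exact hχ (DirichletCharacter.level_one' χ h)

/-- Mellin representation, even case. -/
lemma rep_even {q : ℕ} [NeZero q] (χ : DirichletCharacter ℂ q) (hχ : χ ≠ 1) (hE : χ.Even)
    (s : ℂ) :
    MellinConvergent (fun t => ∑ j : ZMod q, χ j * (evenKernel (ZMod.toAddCircle j) t : ℂ)) (s / 2)
    ∧ DirichletCharacter.completedLFunction χ s = (q : ℂ) ^ (-s) / 2 *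
      mellin (fun t => ∑ j : ZMod q, χ j * (evenKernel (ZMod.toAddCircle j) t : ℂ)) (s / 2) := by
  have h0 := char_zero χ hχ
  have hsum : ∑ j, χ j = 0 := MulChar.sum_eq_zero_of_ne_one hχ
  have hM : ∀ j : ZMod q, HasMellin (hurwitzEvenFEPair (ZMod.toAddCircle j)).f_modif (s / 2)
      ((hurwitzEvenFEPair (ZMod.toAddCircle j)).Λ₀ (s / 2)) := fun j =>
    ⟨((hurwitzEvenFEPair (ZMod.toAddCircle j)).isStrongFEPair_toStrongFEPair.hasMellin
      (s / 2)).1, rfl⟩
  have hlin := mellin_lin (fun j : ZMod q => χ j)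
    (fun j => (hurwitzEvenFEPair (ZMod.toAddCircle j)).f_modif) (s / 2) (fun j => (hM j).1)
  have hcongr := mellin_congr_ne_one
    (fun t => ∑ j : ZMod q, χ j * (evenKernel (ZMod.toAddCircle j) t : ℂ))
    (fun t => ∑ j : ZMod q, χ j * (hurwitzEvenFEPair (ZMod.toAddCircle j)).f_modif t) (s / 2)
    (by
      intro t ht0 ht1
      rcases lt_or_gt_of_ne ht1 with hlt | hgt
      · have h1 : ∀ j : ZMod q, (hurwitzEvenFEPair (ZMod.toAddCircle j)).f_modif t =
            (evenKernel (ZMod.toAddCircle j) t : ℂ) - ((t ^ (-(1 / 2 : ℝ)) : ℝ) : ℂ) := by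
          intro j
          rw [WeakFEPair.f_modif, Pi.add_apply, indicator_of_notMem (by simpa using hlt.le),
            indicator_of_mem (mem_Ioo.mpr ⟨ht0, hlt⟩), zero_add]
          simp [hurwitzEvenFEPair]
        simp only [h1, mul_sub, Finset.sum_sub_distrib, ← Finset.sum_mul, hsum, zero_mul, sub_zero]
      · have h1 : ∀ j : ZMod q, (hurwitzEvenFEPair (ZMod.toAddCircle j)).f_modif t =
            (evenKernel (ZMod.toAddCircle j) t : ℂ) - (if j = 0 then 1 else 0) := by
          intro j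
          rw [WeakFEPair.f_modif, Pi.add_apply, indicator_of_mem (mem_Ioi.mpr hgt),
            indicator_of_notMem (by simp [hgt.le]), add_zero]
          simp [hurwitzEvenFEPair]
        simp only [h1, mul_sub, Finset.sum_sub_distrib]
        simp [h0])
    hlin.1
  refine ⟨hcongr.1, ?_⟩
  rw [DirichletCharacter.completedLFunction, ZMod.completedLFunction_eq, h0, hsum, hcongr.2,
    hlin.2, ZMod.completedLFunction₀]
  have hodd : ∑ j : ZMod q, χ j * completedHurwitzZetaOdd (ZMod.toAddCircle j) s = 0 := by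
    refine (Function.Even.mul_odd (f := fun j : ZMod q => χ j) ?_ fun j => ?_).sum_eq_zero
    · exact hE.to_fun
    · rw [map_neg, completedHurwitzZetaOdd_neg]
  rw [hodd]
  have h2 : ∀ j : ZMod q, completedHurwitzZetaEven₀ (ZMod.toAddCircle j) s =
      mellin (hurwitzEvenFEPair (ZMod.toAddCircle j)).f_modif (s / 2) / 2 := fun j => rfl
  simp only [h2]
  simp only [mul_zero, zero_div, sub_zero, add_zero]
  rw [Finset.mul_sum, Finset.mul_sum]
  refine Finset.sum_congr rfl fun j _ => ?_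
  ring

/-- Mellin representation, odd case. -/
lemma rep_odd {q : ℕ} [NeZero q] (χ : DirichletCharacter ℂ q) (hO : χ.Odd)
    (s : ℂ) :
    MellinConvergent (fun t => ∑ j : ZMod q, χ j * (oddKernel (ZMod.toAddCircle j) t : ℂ))
      ((s + 1) / 2)
    ∧ DirichletCharacter.completedLFunction χ s = (q : ℂ) ^ (-s) / 2 *
      mellin (fun t => ∑ j : ZMod q, χ j * (oddKernel (ZMod.toAddCircle j) t : ℂ))
        ((s + 1) / 2) := by
  have hM : ∀ j : ZMod q, HasMellin (fun t => (oddKernel (ZMod.toAddCircle j) t : ℂ)) ((s + 1) / 2)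
      ((hurwitzOddFEPair (ZMod.toAddCircle j)).Λ ((s + 1) / 2)) := fun j =>
    (isStrong_hurwitzOddFEPair (ZMod.toAddCircle j)).hasMellin ((s + 1) / 2)
  have hlin := mellin_lin (fun j : ZMod q => χ j)
    (fun j t => (oddKernel (ZMod.toAddCircle j) t : ℂ)) ((s + 1) / 2) (fun j => (hM j).1)
  refine ⟨hlin.1, ?_⟩
  rw [hlin.2, DirichletCharacter.completedLFunction,
    ZMod.completedLFunction_def_odd hO.to_fun]
  have h2 : ∀ j : ZMod q, completedHurwitzZetaOdd (ZMod.toAddCircle j) s =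
      mellin (fun t => (oddKernel (ZMod.toAddCircle j) t : ℂ)) ((s + 1) / 2) / 2 := fun j => by
    rw [(hM j).2, completedHurwitzZetaOdd]
  simp only [h2]
  rw [Finset.mul_sum, Finset.mul_sum]
  refine Finset.sum_congr rfl fun j _ => ?_
  ring

/-- The theta series of an even character through the even kernels. -/
lemma theta_even {q : ℕ} [NeZero q] (χ : DirichletCharacter ℂ q) (hχ : χ ≠ 1) (hE : χ.Even)
    (u : ℝ) :
    ∑ j : ZMod q, χ j * (evenKernel (ZMod.toAddCircle j) ((q : ℝ) ^ 2 * Real.exp (2 * u)) : ℂ) =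
      2 * T 0 1 χ (Real.exp u) := by
  have hq : (q : ℝ) ≠ 0 := by exact_mod_cast NeZero.ne q
  have hpos : 0 < (q : ℝ) ^ 2 * Real.exp (2 * u) := by positivity
  have h1 := class_sum (fun j : ZMod q => χ j)
    (fun k : ℤ => ((Real.exp (-Real.pi * ((k : ℝ) * Real.exp u) ^ 2) : ℝ) : ℂ))
    (fun j => (evenKernel (ZMod.toAddCircle j) ((q : ℝ) ^ 2 * Real.exp (2 * u)) : ℂ))
    (by
      intro j
      rw [ZMod.toAddCircle_apply]
      rw [hasSum_ofReal]
      refine (hasSum_int_evenKernel _ hpos).congr_fun fun n => ?_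
      congr 1
      have : Real.exp (2 * u) = Real.exp u ^ 2 := by
        rw [← Real.exp_nat_mul]
        push_cast
        ring
      rw [this]
      push_cast
      field_simp)
  have h2 := nat_of_int _ _ h1 (by simp [char_zero χ hχ]) (by
    intro n
    simp only [Int.cast_neg]
    have : χ (-(n : ZMod q)) = χ (n : ZMod q) := hE.to_fun _
    rw [this]
    congr 3
    ring)
  rw [← h2.tsum_eq, tsum_mul_left, T]
  congr 1
  refine tsum_congr fun n => ?_
  simp [G]

/-- The theta series of an odd character through the odd kernels. -/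
lemma theta_odd {q : ℕ} [NeZero q] (χ : DirichletCharacter ℂ q) (hO : χ.Odd)
    (u : ℝ) :
    (q : ℂ) * Real.exp u *
      ∑ j : ZMod q, χ j * (oddKernel (ZMod.toAddCircle j) ((q : ℝ) ^ 2 * Real.exp (2 * u)) : ℂ) =
      2 * T 1 1 χ (Real.exp u) := by
  have hq : (q : ℝ) ≠ 0 := by exact_mod_cast NeZero.ne q
  have hpos : 0 < (q : ℝ) ^ 2 * Real.exp (2 * u) := by positivity
  have h1 := class_sum (fun j : ZMod q => χ j)
    (fun k : ℤ => (((k : ℝ) * Real.exp u *
      Real.exp (-Real.pi * ((k : ℝ) * Real.exp u) ^ 2) : ℝ) : ℂ))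
    (fun j => (q : ℂ) * Real.exp u *
      (oddKernel (ZMod.toAddCircle j) ((q : ℝ) ^ 2 * Real.exp (2 * u)) : ℂ))
    (by
      intro j
      rw [ZMod.toAddCircle_apply]
      have h3 := (hasSum_int_oddKernel ((j.val : ℝ) / q) hpos).mul_left ((q : ℝ) * Real.exp u)
      have h4 := hasSum_ofReal.mpr h3
      push_cast at h4 ⊢
      refine h4.congr_fun fun n => ?_
      have : cexp (2 * (u : ℂ)) = cexp (u : ℂ) ^ 2 := by
        rw [← Complex.exp_nat_mul]
        push_cast
        ring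
      have hqc : (q : ℂ) ≠ 0 := by exact_mod_cast NeZero.ne q
      rw [this]
      have e1 : -(Real.pi : ℂ) * (((n : ℂ) * q + (j.val : ℂ)) * cexp u) ^ 2 =
          -(Real.pi : ℂ) * ((n : ℂ) + (j.val : ℂ) / q) ^ 2 * ((q : ℂ) ^ 2 * cexp u ^ 2) := by
        field_simp
      have e2 : ((n : ℂ) * q + (j.val : ℂ)) * cexp u =
          (q : ℂ) * cexp u * ((n : ℂ) + (j.val : ℂ) / q) := by
        field_simp
      rw [e1, e2]
      ring)
  have h2 := nat_of_int _ _ h1 (by simp) (by
    intro n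
    simp only [Int.cast_neg]
    have : χ (-(n : ZMod q)) = - χ (n : ZMod q) := hO.to_fun _
    rw [this]
    have e3 : (-(n : ℝ) * Real.exp u) ^ 2 = ((n : ℝ) * Real.exp u) ^ 2 := by ring
    rw [e3]
    push_cast
    ring)
  have h5 : (q : ℂ) * Real.exp u *
      ∑ j : ZMod q, χ j * (oddKernel (ZMod.toAddCircle j) ((q : ℝ) ^ 2 * Real.exp (2 * u)) : ℂ) =
      ∑ j : ZMod q, χ j * ((q : ℂ) * Real.exp u *
      (oddKernel (ZMod.toAddCircle j) ((q : ℝ) ^ 2 * Real.exp (2 * u)) : ℂ)) := by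
    rw [Finset.mul_sum]
    refine Finset.sum_congr rfl fun j _ => ?_
    ring
  rw [h5, ← h2.tsum_eq, tsum_mul_left, T]
  congr 1
  refine tsum_congr fun n => ?_
  simp [G]

end RepAux

open RepAux

theorem rep {q : ℕ} [NeZero q] (χ : DirichletCharacter ℂ q) (hχ : χ ≠ 1) (κ : ℕ)
    (hκ : (κ = 0 ∧ χ.Even) ∨ (κ = 1 ∧ χ.Odd)) :
    Integrable (dens κ 1 χ) ∧ ∀ t : ℝ,
      DirichletCharacter.completedLFunction χ (1 / 2 + t * I) =
        ∫ u : ℝ, dens κ 1 χ u * cexp (t * u * I) := by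
  have hq : (0 : ℝ) < (q : ℝ) ^ 2 := by
    have : (q : ℝ) ≠ 0 := by exact_mod_cast NeZero.ne q
    positivity
  have hqc : (q : ℂ) ≠ 0 := by exact_mod_cast NeZero.ne q
  have hpow : ∀ z : ℂ, (((q : ℝ) ^ 2 : ℝ) : ℂ) ^ z = (q : ℂ) ^ (2 * z) := by
    intro z
    have h1 := Complex.natCast_cpow_natCast_mul q 2 z
    rw [show ((2 : ℕ) : ℂ) = 2 by norm_num] at h1
    rw [h1]
    push_cast
    rfl
  rcases hκ with ⟨rfl, hE⟩ | ⟨rfl, hO⟩
  · -- even case
    have key : ∀ t u : ℝ, 2 * (((q : ℝ) ^ 2 : ℝ) : ℂ) ^ ((1 / 2 + t * I) / 2 : ℂ) *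
        cexp (2 * ((1 / 2 + t * I) / 2 : ℂ) * u) *
          (∑ j : ZMod q, χ j * (evenKernel (ZMod.toAddCircle j)
            ((q : ℝ) ^ 2 * Real.exp (2 * u)) : ℂ)) =
        2 * (q : ℂ) ^ (1 / 2 + t * I : ℂ) * (dens 0 1 χ u * cexp (t * u * I)) := by
      intro t u
      rw [theta_even χ hχ hE u, dens, hpow]
      have e1 : cexp (2 * ((1 / 2 + t * I) / 2 : ℂ) * u) =
          cexp (((u / 2 : ℝ)) : ℂ) * cexp (t * u * I) := by
        rw [← Complex.exp_add]
        congr 1
        push_cast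
        ring
      rw [e1, show (2 * ((1 / 2 + t * I) / 2) : ℂ) = 1 / 2 + t * I by ring]
      push_cast
      ring
    have hne : ∀ t : ℝ, 2 * (q : ℂ) ^ (1 / 2 + t * I : ℂ) ≠ 0 := fun t =>
      mul_ne_zero two_ne_zero (by
        rw [Ne, Complex.cpow_eq_zero_iff]
        rintro ⟨h, -⟩
        exact hqc h)
    constructor
    · have h1 := mellin_sub_conv hq _ _ (rep_even χ hχ hE (1 / 2 + (0 : ℝ) * I)).1
      simp only [key 0] at h1
      have h2 := h1.const_mul ((2 * (q : ℂ) ^ (1 / 2 + (0 : ℝ) * I : ℂ))⁻¹)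
      refine h2.congr (Filter.Eventually.of_forall fun u => ?_)
      simp only
      rw [inv_mul_cancel_left₀ (hne 0)]
      simp
    · intro t
      rw [(rep_even χ hχ hE (1 / 2 + t * I)).2, mellin_sub_eq hq]
      simp only [key t]
      rw [integral_const_mul, ← mul_assoc]
      have : (q : ℂ) ^ (-(1 / 2 + t * I : ℂ)) / 2 * (2 * (q : ℂ) ^ (1 / 2 + t * I : ℂ)) = 1 := by
        have h5 : (q : ℂ) ^ (1 / 2 + t * I : ℂ) ≠ 0 := right_ne_zero_of_mul (hne t)
        rw [Complex.cpow_neg, div_mul_eq_mul_div, ← mul_assoc, mul_comm _ (2 : ℂ), mul_assoc,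
          inv_mul_cancel₀ h5]
        norm_num
      rw [this, one_mul]
  · -- odd case
    have key : ∀ t u : ℝ, 2 * (((q : ℝ) ^ 2 : ℝ) : ℂ) ^ (((1 / 2 + t * I) + 1) / 2 : ℂ) *
        cexp (2 * (((1 / 2 + t * I) + 1) / 2 : ℂ) * u) *
          (∑ j : ZMod q, χ j * (oddKernel (ZMod.toAddCircle j)
            ((q : ℝ) ^ 2 * Real.exp (2 * u)) : ℂ)) =
        2 * (q : ℂ) ^ (1 / 2 + t * I : ℂ) * (dens 1 1 χ u * cexp (t * u * I)) := by
      intro t u
      rw [dens]
      have h3 := theta_odd χ hO u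
      rw [hpow, show (2 * ((1 / 2 + t * I + 1) / 2) : ℂ) = (1 / 2 + t * I) + 1 by ring,
        Complex.cpow_add _ _ hqc, Complex.cpow_one]
      have e1 : cexp (((1 / 2 + t * I) + 1 : ℂ) * u) =
          cexp (((u / 2 : ℝ)) : ℂ) * ((Real.exp u : ℝ) : ℂ) * cexp (t * u * I) := by
        rw [Complex.ofReal_exp, ← Complex.exp_add, ← Complex.exp_add]
        congr 1
        push_cast
        ring
      rw [e1]
      have h4 : 2 * ((q : ℂ) ^ (1 / 2 + t * I : ℂ) * q) *
          (cexp (((u / 2 : ℝ)) : ℂ) * ((Real.exp u : ℝ) : ℂ) * cexp (t * u * I)) *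
            (∑ j : ZMod q, χ j * (oddKernel (ZMod.toAddCircle j)
              ((q : ℝ) ^ 2 * Real.exp (2 * u)) : ℂ)) =
          2 * (q : ℂ) ^ (1 / 2 + t * I : ℂ) * cexp (((u / 2 : ℝ)) : ℂ) * cexp (t * u * I) *
            ((q : ℂ) * Real.exp u * ∑ j : ZMod q, χ j * (oddKernel (ZMod.toAddCircle j)
              ((q : ℝ) ^ 2 * Real.exp (2 * u)) : ℂ)) := by ring
      rw [h4, h3]
      push_cast
      ring
    have hne : ∀ t : ℝ, 2 * (q : ℂ) ^ (1 / 2 + t * I : ℂ) ≠ 0 := fun t =>
      mul_ne_zero two_ne_zero (by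
        rw [Ne, Complex.cpow_eq_zero_iff]
        rintro ⟨h, -⟩
        exact hqc h)
    constructor
    · have h1 := mellin_sub_conv hq _ _ (rep_odd χ hO (1 / 2 + (0 : ℝ) * I)).1
      simp only [key 0] at h1
      have h2 := h1.const_mul ((2 * (q : ℂ) ^ (1 / 2 + (0 : ℝ) * I : ℂ))⁻¹)
      refine h2.congr (Filter.Eventually.of_forall fun u => ?_)
      simp only
      rw [inv_mul_cancel_left₀ (hne 0)]
      simp
    · intro t
      rw [(rep_odd χ hO (1 / 2 + t * I)).2, mellin_sub_eq hq]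
      simp only [key t]
      rw [integral_const_mul, ← mul_assoc]
      have : (q : ℂ) ^ (-(1 / 2 + t * I : ℂ)) / 2 * (2 * (q : ℂ) ^ (1 / 2 + t * I : ℂ)) = 1 := by
        have h5 : (q : ℂ) ^ (1 / 2 + t * I : ℂ) ≠ 0 := right_ne_zero_of_mul (hne t)
        rw [Complex.cpow_neg, div_mul_eq_mul_div, ← mul_assoc, mul_comm _ (2 : ℂ), mul_assoc,
          inv_mul_cancel₀ h5]
        norm_num
      rw [this, one_mul]

end Pool.Agent.GRH
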